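import Pool.Agent.Lib.MP_9dc83d_nt.Final

/-!
# Terms of the concatenation sequence with few small prime factors

A weighted form of the upper bound of the Brun-Hooley sieve: the sum of `y ^ ω_Z(a_n)` for
`0 ≤ y ≤ 1`, where `ω_Z(a_n)` is the number of primes `p ≤ Z` dividing `a_n`.
-/

set_option autoImplicit false

open Finset

namespace Pool.Concat

theorem UU_lam (T j : ℕ) (lam : ℝ) (h : ℕ → ℝ) :
    UU T j (fun p => lam * h p) = ∑ S ∈ (PB j).powerset,
      (if S.card ≤ kk T j then (-1 : ℝ) ^ S.card * lam ^ S.card else 0) * ∏ p ∈ S, h p := by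
  rw [UU_eq]
  refine Finset.sum_congr rfl fun S _ => ?_
  split_ifs with hS
  · rw [Finset.prod_mul_distrib, Finset.prod_const, mul_assoc]
  · rw [zero_mul, zero_mul]

/-- the weighted upper bound of the Brun-Hooley sieve -/
theorem brun_hooley_weight (T : ℕ) (I : Finset ℕ) (A : ℕ → ℕ → Prop) (g : ℕ → ℝ) (X : ℝ)
    (hX : 0 ≤ X) (lam : ℝ) (hl0 : 0 ≤ lam) (hl1 : lam ≤ 1)
    (hg0 : ∀ p ∈ PA T, 0 ≤ g p) (hg1 : ∀ p ∈ PA T, g p ≤ 2 / p) (hg2 : ∀ p ∈ PA T, g p ≤ 2 / 3)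
    (hr : ∀ S : Finset ℕ, S ⊆ PA T →
      |∑ n ∈ I, ∏ p ∈ S, ind A n p - X * ∏ p ∈ S, g p| ≤ ∏ p ∈ S, (p : ℝ)) :
    ∑ n ∈ I, VV (PA T) (fun p => lam * ind A n p) ≤
      2 * X * VV (PA T) (fun p => lam * g p) + (Z T : ℝ) ^ 205 := by
  classical
  have hjT : ∀ j : Fin (T + 1), (j : ℕ) ≤ T := fun j => Nat.lt_succ_iff.1 j.2
  have hlg0 : ∀ p ∈ PA T, 0 ≤ lam * g p := fun p hp => mul_nonneg hl0 (hg0 p hp)
  have hlgg : ∀ p ∈ PA T, lam * g p ≤ g p := fun p hp => mul_le_of_le_one_left (hg0 p hp) hl1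
  have hb0 : ∀ j : Fin (T + 1), ∀ p ∈ PB j, 0 ≤ lam * g p := fun j p hp =>
    hlg0 p (PB_subset (hjT j) hp)
  have hb1 : ∀ j : Fin (T + 1), ∀ p ∈ PB j, lam * g p ≤ 2 / p := fun j p hp =>
    (hlgg p (PB_subset (hjT j) hp)).trans (hg1 p (PB_subset (hjT j) hp))
  have hb2 : ∀ j : Fin (T + 1), ∀ p ∈ PB j, lam * g p ≤ 2 / 3 := fun j p hp =>
    (hlgg p (PB_subset (hjT j) hp)).trans (hg2 p (PB_subset (hjT j) hp))
  have hdis : ∀ i j : Fin (T + 1), i ≠ j → Disjoint (PB i) (PB j) :=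
    fun i j hij => PB_disjoint fun h => hij (Fin.ext h)
  have hR := prod_Gk_le T
  set R := ∏ j : Fin (T + 1), Gk (PB j) (kk T j + 1) (fun p => (p : ℝ)) with hRdef
  have hbg : ∀ j : Fin (T + 1), VV (PB j) (fun p => lam * g p) ≤ UU T j (fun p => lam * g p) ∧
      UU T j (fun p => lam * g p) ≤ VV (PB j) (fun p => lam * g p) +
        Ek (PB j) (kk T j + 1) (fun p => lam * g p) := fun j =>
    bonf (PB j) (fun p => lam * g p) (hb0 j) (fun p hp => (hb2 j p hp).trans (by norm_num))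
      (kk T j) (kk_even T j)
  have hin0 : ∀ n p, 0 ≤ lam * ind A n p := fun n p => mul_nonneg hl0 (ind_nonneg A n p)
  have hin1 : ∀ n p, lam * ind A n p ≤ 1 := fun n p =>
    (mul_le_of_le_one_left (ind_nonneg A n p) hl1).trans (ind_le_one A n p)
  have hbn : ∀ n, ∀ j : Fin (T + 1), VV (PB j) (fun p => lam * ind A n p) ≤
      UU T j (fun p => lam * ind A n p) := fun n j =>
    (bonf (PB j) (fun p => lam * ind A n p) (fun p _ => hin0 n p) (fun p _ => hin1 n p) (kk T j)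
      (kk_even T j)).1
  have hVn0 : ∀ n, ∀ j : Fin (T + 1), 0 ≤ VV (PB j) (fun p => lam * ind A n p) := fun n j =>
    VV_nonneg _ _ fun p _ => hin1 n p
  have hVg0 : ∀ j : Fin (T + 1), 0 ≤ VV (PB j) (fun p => lam * g p) := fun j =>
    VV_nonneg _ _ fun p hp => (hb2 j p hp).trans (by norm_num)
  have hlc : ∀ m : ℕ, |(-1 : ℝ) ^ m * lam ^ m| ≤ 1 := by
    intro m
    rw [abs_mul, abs_pow, abs_neg, abs_one, one_pow, one_mul, abs_pow, abs_of_nonneg hl0]
    exact pow_le_one₀ hl0 hl1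
  -- expansion of the main product
  have hmain : |∑ n ∈ I, ∏ j : Fin (T + 1), UU T j (fun p => lam * ind A n p) -
      X * ∏ j : Fin (T + 1), UU T j (fun p => lam * g p)| ≤ R := by
    have h1 := expand (ι := Fin (T + 1)) (fun j => PB j) hdis
      (fun j S => if S.card ≤ kk T j then (-1 : ℝ) ^ S.card * lam ^ S.card else 0)
      (fun j => kk T j + 1)
      (fun j S => by
        split_ifs
        · exact hlc _
        · norm_num)
      (fun j S h => by
        rw [if_neg (by omega)]) I A g X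
      (by rw [biUnion_PB]; exact hr)
    simpa only [← UU_lam] using h1
  have hE : ∀ i : Fin (T + 1), Ek (PB i) (kk T i + 1) (fun p => lam * g p) ≤
      eps T i * VV (PB i) (fun p => lam * g p) := fun i =>
    Ek_le_eps T i (fun p => lam * g p) (hb0 i) (hb1 i) (hb2 i)
  have hUg0 : ∀ j : Fin (T + 1), 0 ≤ UU T j (fun p => lam * g p) := fun j =>
    (hVg0 j).trans (hbg j).1
  have hprodU : ∏ j : Fin (T + 1), UU T j (fun p => lam * g p) ≤
      2 * VV (PA T) (fun p => lam * g p) := by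
    rw [VV_PA]
    have h1 : ∏ j : Fin (T + 1), UU T j (fun p => lam * g p) ≤
        ∏ j : Fin (T + 1), (Real.exp (eps T j) * VV (PB j) (fun p => lam * g p)) := by
      refine Finset.prod_le_prod (fun j _ => hUg0 j) fun j _ => ?_
      have h2 := (hbg j).2
      have h3 := hE j
      have h4 := Real.add_one_le_exp (eps T j)
      have h5 := mul_le_mul_of_nonneg_right h4 (hVg0 j)
      linarith
    rw [Finset.prod_mul_distrib, ← Real.exp_sum] at h1
    refine h1.trans ?_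
    refine mul_le_mul_of_nonneg_right ?_ (Finset.prod_nonneg fun j _ => hVg0 j)
    have h6 : Real.exp (∑ j : Fin (T + 1), eps T j) ≤ Real.exp (1 / 2) := Real.exp_le_exp.2 (sum_eps T)
    refine h6.trans ?_
    have h7 : Real.exp (1 / 2) * Real.exp (1 / 2) = Real.exp 1 := by
      rw [← Real.exp_add]
      norm_num
    have h8 := Real.exp_one_lt_d9
    have h9 : 0 < Real.exp (1 / 2) := Real.exp_pos _
    nlinarith
  have hZ1 : (1 : ℝ) ≤ Z T := by
    have := two_le_Z T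
    exact_mod_cast (by omega : 1 ≤ Z T)
  have h1 : ∑ n ∈ I, VV (PA T) (fun p => lam * ind A n p) ≤
      ∑ n ∈ I, ∏ j : Fin (T + 1), UU T j (fun p => lam * ind A n p) := by
    refine Finset.sum_le_sum fun n _ => ?_
    rw [VV_PA]
    exact Finset.prod_le_prod (fun j _ => hVn0 n j) fun j _ => hbn n j
  have h2 := (abs_le.1 hmain).2
  have h3 := mul_le_mul_of_nonneg_left hprodU hX
  have h4 : R ≤ (Z T : ℝ) ^ 205 := hR.trans (pow_le_pow_right₀ hZ1 (by norm_num))
  linarith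

/-- the weighted sieve bound in one block -/
theorem block_weight (ρ s c T H : ℕ) (lam : ℝ) (hl0 : 0 ≤ lam) (hl1 : lam ≤ 1) :
    ∑ t ∈ range H, VV (PA T) (fun p => lam * ind (AA (ρ + 1) s c) t p) ≤
      2 * (H : ℝ) * VV (PA T) (fun p => lam * gg ρ s c p) + (Z T : ℝ) ^ 205 := by
  refine brun_hooley_weight T (range H) (AA (ρ + 1) s c) (gg ρ s c) H (Nat.cast_nonneg _)
    lam hl0 hl1
    (fun p hp => (gg_prop ρ s c p (mem_PA.1 hp).1).1)
    (fun p hp => (gg_prop ρ s c p (mem_PA.1 hp).1).2.1)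
    (fun p hp => (gg_prop ρ s c p (mem_PA.1 hp).1).2.2.1) ?_
  intro S hS
  exact remainder (AA (ρ + 1) s c) (mm ρ) (qq ρ) (ww ρ s c) S (fun p hp => (mem_PA.1 (hS hp)).1)
    (fun p hp => local_all ρ s c p (mem_PA.1 (hS hp)).1) (fun p _ => ww_nonneg ρ s c p)
    (fun p hp => qq_mul_ww ρ s c p (mem_PA.1 (hS hp)).1) H

/-- the weight of the `n`-th term -/
noncomputable def fwl (b T : ℕ) (lam : ℝ) (n : ℕ) : ℝ :=
  VV (PA T) (fun p => lam * ind (fun p n => p ∣ cc b n) n p)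

theorem fwl_nonneg (b T : ℕ) (lam : ℝ) (hl1 : lam ≤ 1) (n : ℕ) :
    0 ≤ fwl b T lam n :=
  VV_nonneg _ _ fun p _ =>
    (mul_le_of_le_one_left (ind_nonneg _ n p) hl1).trans (ind_le_one _ n p)

theorem fwl_block (b D T : ℕ) (lam : ℝ) (hb : 2 ≤ b) (t : ℕ) (ht : t < b ^ (D + 1) - b ^ D) :
    fwl b T lam (b ^ D - 1 + t + 1) =
      VV (PA T) (fun p => lam * ind (AA (b ^ (D + 1)) (cc b (b ^ D - 1)) (b ^ D - 1)) t p) := by
  unfold fwl VV
  refine Finset.prod_congr rfl fun p _ => ?_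
  congr 2
  unfold ind AA
  have h1 := cc_block b D hb (t + 1) (by omega)
  have e1 : b ^ D - 1 + t + 1 = b ^ D - 1 + (t + 1) := rfl
  rw [e1]
  beta_reduce
  rw [h1]

theorem sum_weight (b T D₀ : ℕ) (hb : 2 ≤ b) (U lam : ℝ) (hl0 : 0 ≤ lam) (hl1 : lam ≤ 1)
    (hLU : ∀ D, D + 1 ≤ D₀ → ∀ s c, VV (PA T) (fun p => lam * gg (b ^ (D + 1) - 1) s c p) ≤ U) :
    ∀ D, D ≤ D₀ → ∀ N, N < b ^ D →
      ∑ n ∈ range N, fwl b T lam (n + 1) ≤ 2 * (N : ℝ) * U + (D : ℝ) * (Z T : ℝ) ^ 205 := by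
  intro D
  induction D with
  | zero =>
    intro _ N hN
    have : N = 0 := by simpa using hN
    subst this
    simp
  | succ D ih =>
    intro hD N hN
    have ih' := ih (by omega)
    have hZ : (0 : ℝ) ≤ (Z T : ℝ) ^ 205 := by positivity
    push_cast
    rcases Nat.lt_or_ge N (b ^ D) with h | h
    · have h2 := ih' N h
      linarith
    · have hpos : 0 < b ^ D := Nat.pos_of_ne_zero (pow_ne_zero _ (by omega))
      have h2 := ih' (b ^ D - 1) (by omega)
      set c := b ^ D - 1 with hc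
      set H := N - c with hH
      have hN' : N = c + H := by omega
      have hρ : b ^ (D + 1) - 1 + 1 = b ^ (D + 1) := by
        have : 0 < b ^ (D + 1) := Nat.pos_of_ne_zero (pow_ne_zero _ (by omega))
        omega
      have h4 := block_weight (b ^ (D + 1) - 1) (cc b c) c T H lam hl0 hl1
      rw [hρ] at h4
      have h6 := hLU D hD (cc b c) c
      have h7 : ∑ t ∈ range H, VV (PA T)
            (fun p => lam * ind (AA (b ^ (D + 1)) (cc b c) c) t p) =
          ∑ t ∈ range H, fwl b T lam (c + t + 1) := by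
        refine Finset.sum_congr rfl fun t ht => ?_
        rw [Finset.mem_range] at ht
        exact (fwl_block b D T lam hb t (by omega)).symm
      rw [h7] at h4
      have h8 : ∑ n ∈ range N, fwl b T lam (n + 1) =
          ∑ n ∈ range c, fwl b T lam (n + 1) + ∑ t ∈ range H, fwl b T lam (c + t + 1) := by
        rw [hN', Finset.sum_range_add]
      have h9 : (N : ℝ) = c + H := by
        rw [hN']
        push_cast
        ring
      rw [h8, h9]
      have hH0 : (0 : ℝ) ≤ H := Nat.cast_nonneg H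
      have h11 := mul_le_mul_of_nonneg_left h6 hH0
      linarith

/-- `exp (-x) ≤ (1 - x) exp (3 x ^ 2)` for `0 ≤ x ≤ 2 / 3` -/
theorem exp_neg_le (x : ℝ) (h1 : x ≤ 2 / 3) :
    Real.exp (-x) ≤ (1 - x) * Real.exp (3 * x ^ 2) := by
  have h2 : 0 < 1 - x := by linarith
  have h3 : x / (1 - x) ≤ x + 3 * x ^ 2 := by
    rw [div_le_iff₀ h2]
    nlinarith [mul_nonneg (sq_nonneg x) (sub_nonneg.2 h1)]
  have h5 := Real.add_one_le_exp (x / (1 - x))
  have h6 : x / (1 - x) + 1 = 1 / (1 - x) := by field_simp; ring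
  rw [h6] at h5
  have h7 : 1 / (1 - x) ≤ Real.exp (x + 3 * x ^ 2) := h5.trans (Real.exp_le_exp.2 h3)
  rw [div_le_iff₀ h2, Real.exp_add] at h7
  have h8 : Real.exp (-x) * Real.exp x = 1 := by
    rw [← Real.exp_add]
    simp
  have h9 := Real.exp_pos (-x)
  calc Real.exp (-x) = Real.exp (-x) * 1 := (mul_one _).symm
    _ ≤ Real.exp (-x) * (Real.exp x * Real.exp (3 * x ^ 2) * (1 - x)) :=
        mul_le_mul_of_nonneg_left h7 h9.le
    _ = (Real.exp (-x) * Real.exp x) * ((1 - x) * Real.exp (3 * x ^ 2)) := by ring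
    _ = (1 - x) * Real.exp (3 * x ^ 2) := by rw [h8, one_mul]

theorem sum_gg_sq (ρ s c T : ℕ) : ∑ p ∈ PA T, gg ρ s c p ^ 2 ≤ 4 := by
  have h1 : ∑ p ∈ PA T, gg ρ s c p ^ 2 ≤ ∑ p ∈ PA T, 4 * ((p : ℝ) * ((p : ℝ) - 1))⁻¹ := by
    refine Finset.sum_le_sum fun p hp => ?_
    have hpp := (mem_PA.1 hp).1
    obtain ⟨g0, g1, -, -⟩ := gg_prop ρ s c p hpp
    have h2 : (2 : ℝ) ≤ p := by exact_mod_cast hpp.two_le
    have h3 : gg ρ s c p ^ 2 ≤ (2 / (p : ℝ)) ^ 2 := pow_le_pow_left₀ g0 g1 2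
    refine h3.trans ?_
    rw [div_pow, div_eq_mul_inv]
    have h4 : ((p : ℝ) ^ 2)⁻¹ ≤ ((p : ℝ) * ((p : ℝ) - 1))⁻¹ := by
      apply inv_anti₀
      · exact mul_pos (by linarith) (by linarith)
      · nlinarith
    have h5 : (2 : ℝ) ^ 2 = 4 := by norm_num
    rw [h5]
    exact mul_le_mul_of_nonneg_left h4 (by norm_num)
  refine h1.trans ?_
  rw [← Finset.mul_sum]
  have h2 := Mert.m2_tel (Z T) (by have := two_le_Z T; omega)
  have h3 : (0 : ℝ) ≤ 1 / (Z T : ℝ) := by positivity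
  have h4 : ∑ p ∈ PA T, ((p : ℝ) * ((p : ℝ) - 1))⁻¹ ≤ 1 := by
    unfold PA
    linarith
  linarith

/-- the sum of the densities -/
theorem exp_neg_sum_gg (ρ s c T : ℕ) :
    Real.exp (-∑ p ∈ PA T, gg ρ s c p) ≤ Real.exp 12 * VV (PA T) (gg ρ s c) := by
  have h1 : Real.exp (-∑ p ∈ PA T, gg ρ s c p) ≤
      ∏ p ∈ PA T, ((1 - gg ρ s c p) * Real.exp (3 * gg ρ s c p ^ 2)) := by
    rw [← Finset.sum_neg_distrib, Real.exp_sum]
    refine Finset.prod_le_prod (fun p _ => (Real.exp_pos _).le) fun p hp => ?_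
    obtain ⟨-, -, g2, -⟩ := gg_prop ρ s c p (mem_PA.1 hp).1
    exact exp_neg_le _ g2
  refine h1.trans ?_
  rw [Finset.prod_mul_distrib, ← Real.exp_sum, ← Finset.mul_sum]
  have h2 := sum_gg_sq ρ s c T
  have h3 : Real.exp (3 * ∑ p ∈ PA T, gg ρ s c p ^ 2) ≤ Real.exp 12 :=
    Real.exp_le_exp.2 (by linarith)
  have h4 : 0 ≤ ∏ p ∈ PA T, (1 - gg ρ s c p) := Finset.prod_nonneg fun p hp => by
    obtain ⟨-, -, g2, -⟩ := gg_prop ρ s c p (mem_PA.1 hp).1
    linarith
  calc (∏ p ∈ PA T, (1 - gg ρ s c p)) * Real.exp (3 * ∑ p ∈ PA T, gg ρ s c p ^ 2)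
      ≤ (∏ p ∈ PA T, (1 - gg ρ s c p)) * Real.exp 12 := mul_le_mul_of_nonneg_left h3 h4
    _ = Real.exp 12 * VV (PA T) (gg ρ s c) := by
        unfold VV
        ring

theorem VV_lam_le (ρ s c T : ℕ) (W lam : ℝ) (hl0 : 0 ≤ lam) (hl1 : lam ≤ 1)
    (hW : VV (PA T) (gg ρ s c) ≤ W) (hW0 : 0 < W) :
    VV (PA T) (fun p => lam * gg ρ s c p) ≤ Real.exp (lam * (12 + Real.log W)) := by
  have h1 : VV (PA T) (fun p => lam * gg ρ s c p) ≤
      Real.exp (lam * (-∑ p ∈ PA T, gg ρ s c p)) := by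
    have e1 : lam * (-∑ p ∈ PA T, gg ρ s c p) = ∑ p ∈ PA T, -(lam * gg ρ s c p) := by
      rw [Finset.sum_neg_distrib, ← Finset.mul_sum]
      ring
    rw [e1, Real.exp_sum]
    unfold VV
    refine Finset.prod_le_prod (fun p hp => ?_) fun p _ => ?_
    · obtain ⟨g0, -, g2, -⟩ := gg_prop ρ s c p (mem_PA.1 hp).1
      have := mul_le_of_le_one_left g0 hl1
      linarith
    · have := Real.add_one_le_exp (-(lam * gg ρ s c p))
      linarith
  refine h1.trans (Real.exp_le_exp.2 (mul_le_mul_of_nonneg_left ?_ hl0))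
  have h2 := exp_neg_sum_gg ρ s c T
  have h3 : Real.exp (-∑ p ∈ PA T, gg ρ s c p) ≤ Real.exp (12 + Real.log W) := by
    rw [Real.exp_add, Real.exp_log hW0]
    exact h2.trans (mul_le_mul_of_nonneg_left hW (Real.exp_pos _).le)
  exact Real.exp_le_exp.1 h3

/-- the sum of `(1 - lam) ^ ω_Z(a_n)` -/
theorem weight_bounds (b : ℕ) (hb : 2 ≤ b) : ∃ κ : ℝ, 0 < κ ∧ ∀ T N D : ℕ, 1 ≤ D → N < b ^ D →
    ∀ lam : ℝ, 0 ≤ lam → lam ≤ 1 →
    ∑ n ∈ range N, fwl b T lam (n + 1) ≤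
      2 * N * Real.exp (lam * (Real.log (Real.log ((b * D : ℕ) : ℝ) / (κ * Real.log (Z T))))) +
        (D : ℝ) * (Z T : ℝ) ^ 205 := by
  obtain ⟨c, hc, hc1, hM⟩ := Mert.prod_lower
  refine ⟨c * Real.exp (-3) * Real.exp (-12), by positivity, ?_⟩
  intro T N D hD hN lam hl0 hl1
  set y := b * D with hy
  have hy2 : 2 ≤ y := by nlinarith
  have hyR : (2 : ℝ) ≤ (y : ℝ) := by exact_mod_cast hy2
  have hlogy : 0 < Real.log (y : ℝ) := Real.log_pos (by linarith)
  have hlogZ : 0 < Real.log (Z T) := log_Z_pos T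
  have hρ : ∀ D', D' + 1 ≤ D → 0 < b ^ (D' + 1) - 1 ∧ b ^ (D' + 1) - 1 < 2 ^ y := by
    intro D' hD'
    have h1 : b ^ 1 ≤ b ^ (D' + 1) := Nat.pow_le_pow_right (by omega) (by omega)
    have h2 : b ^ (D' + 1) ≤ b ^ D := Nat.pow_le_pow_right (by omega) hD'
    have h3 : b ^ D ≤ (2 ^ b) ^ D := Nat.pow_le_pow_left (Nat.lt_two_pow_self).le D
    rw [← pow_mul, ← hy] at h3
    rw [pow_one] at h1
    constructor <;> omega
  set W := Real.log y / (c * Real.exp (-3) * Real.log (Z T)) with hW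
  have hW0 : 0 < W := by positivity
  have h := sum_weight b T D hb (Real.exp (lam * (12 + Real.log W))) lam hl0 hl1
    (fun D' hD' s c' => VV_lam_le _ s c' T W lam hl0 hl1
      (V_upper c hM hc _ s c' y T (hρ D' hD').1 (hρ D' hD').2 hy2) hW0) D le_rfl N hN
  have e1 : 12 + Real.log W =
      Real.log (Real.log y / (c * Real.exp (-3) * Real.exp (-12) * Real.log (Z T))) := by
    have e2 : Real.log y / (c * Real.exp (-3) * Real.exp (-12) * Real.log (Z T)) =
        Real.exp 12 * W := by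
      rw [hW, Real.exp_neg 12]
      field_simp
    rw [e2, Real.log_mul (Real.exp_pos _).ne' hW0.ne', Real.log_exp]
  rw [← e1]
  exact h

/-- the number of primes `p` with `p ^ 820 ≤ N` dividing the `n`-th term -/
def smallPF (b N n : ℕ) : ℕ := ((cc b n).primeFactors.filter fun p => p ^ 820 ≤ N).card

theorem pow_le_fwl (b T N n k : ℕ) (hT : Z T ^ 820 ≤ N) (hn : 1 ≤ n) (y : ℝ) (hy0 : 0 ≤ y)
    (hy1 : y ≤ 1) (hk : smallPF b N n ≤ k) : y ^ k ≤ fwl b T (1 - y) n := by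
  classical
  have h1 : fwl b T (1 - y) n = y ^ ((PA T).filter fun p => p ∣ cc b n).card := by
    unfold fwl VV
    rw [← Finset.prod_filter_mul_prod_filter_not (PA T) (fun p => p ∣ cc b n),
      ← Finset.prod_const]
    have h2 : ∏ p ∈ (PA T).filter (fun p => ¬ p ∣ cc b n),
        (1 - (1 - y) * ind (fun p n => p ∣ cc b n) n p) = 1 := by
      refine Finset.prod_eq_one fun p hp => ?_
      unfold ind
      rw [if_neg (Finset.mem_filter.1 hp).2]
      ring
    rw [h2, mul_one]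
    refine Finset.prod_congr rfl fun p hp => ?_
    show 1 - (1 - y) * ind (fun p n => p ∣ cc b n) n p = y
    unfold ind
    rw [if_pos (Finset.mem_filter.1 hp).2]
    ring
  rw [h1]
  refine pow_le_pow_of_le_one hy0 hy1 (le_trans (Finset.card_le_card ?_) hk)
  intro p hp
  rw [Finset.mem_filter, mem_PA] at hp
  rw [Finset.mem_filter, Nat.mem_primeFactors]
  have h3 := le_cc b n
  exact ⟨⟨hp.1.1, hp.2, by omega⟩, (Nat.pow_le_pow_left hp.1.2 820).trans hT⟩

/-- **Few small prime factors.** -/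
theorem few_small_factors (b : ℕ) (hb : 2 ≤ b) : ∃ C : ℝ, 0 < C ∧ ∃ N₀ : ℕ,
    ∀ N : ℕ, N₀ ≤ N → ∀ k : ℕ, 1 ≤ k → (k : ℝ) ≤ Real.log (Real.log N) →
    (((Icc 1 N).filter (fun n => smallPF b N n ≤ k)).card : ℝ) ≤
      C * N * (Real.log (Real.log N) / Real.log N) *
        (Real.exp 1 * Real.log (Real.log N) / k) ^ k := by
  obtain ⟨κ, hκ, hcount⟩ := weight_bounds b hb
  set B : ℝ := Real.log (3 * b) + 1 with hB
  have hbR : (2 : ℝ) ≤ b := by exact_mod_cast hb
  have hB1 : 1 ≤ B := by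
    have := Real.log_nonneg (show (1 : ℝ) ≤ 3 * b by linarith)
    linarith
  obtain ⟨N₀, hN₀⟩ := large_cond 3 (Z 1 ^ 410)
  set K : ℝ := 1640 * B / κ + 1 with hK
  have hK1 : 1 ≤ K := by
    have : 0 ≤ 1640 * B / κ := by positivity
    linarith
  refine ⟨2 * K + 1, by positivity, N₀, fun N hN k hk1 hkm => ?_⟩
  obtain ⟨hNZ, hll, hbig2⟩ := hN₀ N hN
  set ℓ := Real.log N with hℓ
  set m := Real.log ℓ with hm
  have hZ1 : 2 ≤ Z 1 := two_le_Z 1
  have hN2 : 2 ≤ N := by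
    have : 2 ^ 1 ≤ Z 1 ^ 410 := (Nat.pow_le_pow_left hZ1 1).trans
      (Nat.pow_le_pow_right (by omega) (by norm_num))
    omega
  have hNR : (2 : ℝ) ≤ N := by exact_mod_cast hN2
  have hN0 : (0 : ℝ) < N := by linarith
  have hℓ0 : 0 < ℓ := Real.log_pos (by linarith)
  have hmℓ : m ≤ ℓ - 1 := Real.log_le_sub_one_of_pos hℓ0
  have hℓ1 : 1 ≤ ℓ := by linarith
  -- the number of blocks
  set D := Nat.log b N + 1 with hD
  have hND : N < b ^ D := Nat.lt_pow_succ_log_self (by omega) N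
  have hDℓ : (D : ℝ) ≤ 3 * ℓ := by
    have h1 : b ^ (Nat.log b N) ≤ N := Nat.pow_log_le_self b (by omega)
    have h2 : (b : ℝ) ^ (Nat.log b N) ≤ N := by exact_mod_cast h1
    have h3 := Real.log_le_log (by positivity) h2
    rw [Real.log_pow] at h3
    have h4 : Real.log 2 ≤ Real.log b := Real.log_le_log (by norm_num) hbR
    have h5 := Real.log_two_gt_d9
    have h6 : (Nat.log b N : ℝ) * (1 / 2) ≤ ℓ := by
      refine le_trans (mul_le_mul_of_nonneg_left (by linarith) (Nat.cast_nonneg _)) h3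
    rw [hD]
    push_cast
    linarith
  have hlogy : Real.log ((b * D : ℕ) : ℝ) ≤ B * m := by
    have h1 : ((b * D : ℕ) : ℝ) ≤ 3 * b * ℓ := by
      push_cast
      have := mul_le_mul_of_nonneg_left hDℓ (by linarith : (0 : ℝ) ≤ b)
      linarith
    have h2 : (0 : ℝ) < ((b * D : ℕ) : ℝ) := by
      have : 0 < b * D := Nat.mul_pos (by omega) (by omega)
      exact_mod_cast this
    have h3 := Real.log_le_log h2 h1
    rw [Real.log_mul (by positivity) hℓ0.ne'] at h3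
    have h4 : 0 ≤ Real.log (3 * (b : ℝ)) := Real.log_nonneg (by linarith)
    have h5 : Real.log (3 * (b : ℝ)) * 1 ≤ Real.log (3 * (b : ℝ)) * m := mul_le_mul_of_nonneg_left hll h4
    rw [hB]
    linarith
  have hlogy0 : 0 < Real.log ((b * D : ℕ) : ℝ) := by
    apply Real.log_pos
    have : 1 < b * D := by nlinarith
    exact_mod_cast this
  -- the sieving level
  have hex : ∃ k, N < Z k ^ 410 := by
    refine ⟨N, ?_⟩
    have h1 : N < 2 ^ N := Nat.lt_two_pow_self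
    have h2 : 2 ^ N ≤ 2 ^ (2 ^ N) := Nat.pow_le_pow_right (by norm_num) h1.le
    have h3 : Z N ^ 1 ≤ Z N ^ 410 := Nat.pow_le_pow_right (by have := two_le_Z N; omega) (by norm_num)
    rw [pow_one] at h3
    have h4 : Z N = 2 ^ (2 ^ N) := rfl
    omega
  set k₀ := Nat.find hex with hk
  have hk1' : N < Z k₀ ^ 410 := Nat.find_spec hex
  have hk2 : 2 ≤ k₀ := by
    by_contra hlt
    have h1 : Z k₀ ≤ Z 1 := Z_mono (by omega)
    have h2 : Z k₀ ^ 410 ≤ Z 1 ^ 410 := Nat.pow_le_pow_left h1 410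
    omega
  obtain ⟨T, hT⟩ : ∃ T, k₀ = T + 2 := ⟨k₀ - 2, by omega⟩
  have hT1 : Z (T + 1) ^ 410 ≤ N := by
    have := Nat.find_min hex (show T + 1 < Nat.find hex by omega)
    omega
  have hT2 : N < Z (T + 1) ^ 820 := by
    rw [hT, Z_succ (T + 1), ← pow_mul] at hk1'
    exact hk1'
  have hT0 : Z T ^ 820 ≤ N := by
    rw [Z_succ T, ← pow_mul] at hT1
    exact hT1
  have hs0 : (Z T : ℝ) ^ 205 ≤ Real.sqrt N := by
    have hZT410 : Z T ^ 410 ≤ N := (Nat.pow_le_pow_left (Z_mono (Nat.le_succ T)) 410).trans hT1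
    apply Real.le_sqrt_of_sq_le
    rw [← pow_mul]
    exact_mod_cast hZT410
  have hsN : Real.sqrt N * Real.sqrt N = N := Real.mul_self_sqrt hN0.le
  have hsq0 : 0 < Real.sqrt N := Real.sqrt_pos.2 hN0
  have hℓ3 : 0 < ℓ ^ 3 := by positivity
  have hm0 : 0 < m := by linarith
  have hDs : (D : ℝ) * (Z T : ℝ) ^ 205 ≤ 3 * ℓ * Real.sqrt N :=
    mul_le_mul hDℓ hs0 (by positivity) (by positivity)
  have herr2 : 3 * ℓ * Real.sqrt N ≤ N * m / ℓ := by
    rw [le_div_iff₀ hℓ0]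
    have h1 : 3 * ℓ ^ 2 ≤ 3 * ℓ ^ 3 := by nlinarith [mul_nonneg (sq_nonneg ℓ) (sub_nonneg.2 hℓ1)]
    have h2 : 3 * ℓ ^ 2 * Real.sqrt N ≤ Real.sqrt N * Real.sqrt N :=
      mul_le_mul_of_nonneg_right (h1.trans hbig2) hsq0.le
    rw [hsN] at h2
    have h3 : (N : ℝ) * 1 ≤ N * m := mul_le_mul_of_nonneg_left hll hN0.le
    nlinarith
  have hlogT : ℓ / 1640 ≤ Real.log (Z T) := by
    have h1 : (N : ℝ) ≤ (Z (T + 1) : ℝ) ^ 820 := by exact_mod_cast hT2.le
    have h2 := Real.log_le_log hN0 h1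
    have h3 : (Z (T + 1) : ℝ) = (Z T : ℝ) ^ 2 := by
      rw [Z_succ]
      push_cast
      rfl
    rw [h3, ← pow_mul, Real.log_pow] at h2
    push_cast at h2
    linarith
  have hlogT0 := log_Z_pos T
  -- the parameter
  have hkR : (1 : ℝ) ≤ k := by exact_mod_cast hk1
  set y : ℝ := k / m with hy
  have hy0 : 0 < y := by positivity
  have hy1 : y ≤ 1 := by
    rw [hy, div_le_one hm0]
    exact hkm
  have hup := hcount T N D (by omega) hND (1 - y) (by linarith) (by linarith)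
  -- the main term
  have hV : Real.log ((b * D : ℕ) : ℝ) / (κ * Real.log (Z T)) ≤ K * m / ℓ := by
    have h1 : Real.log ((b * D : ℕ) : ℝ) / (κ * Real.log (Z T)) ≤ (B * m) / (κ * (ℓ / 1640)) := by
      apply div_le_div₀
      · positivity
      · exact hlogy
      · positivity
      · exact mul_le_mul_of_nonneg_left hlogT hκ.le
    have h2 : (B * m) / (κ * (ℓ / 1640)) = (1640 * B / κ) * m / ℓ := by
      field_simp
    have h3 : (1640 * B / κ) * m / ℓ ≤ K * m / ℓ := by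
      apply div_le_div_of_nonneg_right _ hℓ0.le
      apply mul_le_mul_of_nonneg_right _ hm0.le
      linarith
    linarith
  have hlogV : Real.log (Real.log ((b * D : ℕ) : ℝ) / (κ * Real.log (Z T))) ≤
      Real.log (K * m) - m := by
    have h1 := Real.log_le_log (by positivity) hV
    rw [Real.log_div (by positivity) hℓ0.ne'] at h1
    exact h1
  have hKm : 0 ≤ Real.log (K * m) := Real.log_nonneg (by nlinarith)
  have hexp : Real.exp ((1 - y) * (Real.log (Real.log ((b * D : ℕ) : ℝ) / (κ * Real.log (Z T))))) ≤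
      K * m / ℓ * Real.exp k := by
    have h1 : (1 - y) * (Real.log (Real.log ((b * D : ℕ) : ℝ) / (κ * Real.log (Z T)))) ≤
        Real.log (K * m) - m + k := by
      have h2 := mul_le_mul_of_nonneg_left hlogV (by linarith : (0 : ℝ) ≤ 1 - y)
      have h3 : y * m = k := by
        rw [hy]
        field_simp
      have h4 : 0 ≤ y * Real.log (K * m) := mul_nonneg hy0.le hKm
      nlinarith
    have h2 : K * m / ℓ * Real.exp k = Real.exp (Real.log (K * m) - m + k) := by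
      rw [Real.exp_add, Real.exp_sub, Real.exp_log (by positivity), Real.exp_log hℓ0]
    rw [h2]
    exact Real.exp_le_exp.2 h1
  have hek : 1 ≤ Real.exp k := Real.one_le_exp (by linarith)
  have hsum : ∑ n ∈ range N, fwl b T (1 - y) (n + 1) ≤ (2 * K + 1) * N * (m / ℓ) * Real.exp k := by
    refine hup.trans ?_
    have h1 : 2 * (N : ℝ) * Real.exp ((1 - y) *
        (Real.log (Real.log ((b * D : ℕ) : ℝ) / (κ * Real.log (Z T))))) ≤
        2 * (N : ℝ) * (K * m / ℓ * Real.exp k) := mul_le_mul_of_nonneg_left hexp (by positivity)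
    have h2 : (N : ℝ) * m / ℓ ≤ N * m / ℓ * Real.exp k := le_mul_of_one_le_right (by positivity) hek
    have h3 : (2 * K + 1) * N * (m / ℓ) * Real.exp k =
        2 * (N : ℝ) * (K * m / ℓ * Real.exp k) + N * m / ℓ * Real.exp k := by ring
    rw [h3]
    linarith
  -- counting
  have hcard : (((Icc 1 N).filter (fun n => smallPF b N n ≤ k)).card : ℝ) * y ^ k ≤
      ∑ n ∈ range N, fwl b T (1 - y) (n + 1) := by
    have e1 : ∑ n ∈ range N, fwl b T (1 - y) (n + 1) = ∑ n ∈ Icc 1 N, fwl b T (1 - y) n := by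
      rw [Finset.range_eq_Ico, Finset.sum_Ico_add' (fun n => fwl b T (1 - y) n) 0 N 1]
      rfl
    rw [e1, ← nsmul_eq_mul, ← Finset.sum_const]
    refine le_trans (Finset.sum_le_sum (g := fun n => fwl b T (1 - y) n) fun n hn => ?_)
      (Finset.sum_le_sum_of_subset_of_nonneg (Finset.filter_subset _ _) fun n _ _ =>
        fwl_nonneg b T (1 - y) (by linarith) n)
    rw [Finset.mem_filter, Finset.mem_Icc] at hn
    exact pow_le_fwl b T N n k hT0 hn.1.1 y hy0.le hy1 hn.2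
  have hyk : 0 < y ^ k := by positivity
  have h1 : (((Icc 1 N).filter (fun n => smallPF b N n ≤ k)).card : ℝ) ≤
      (2 * K + 1) * N * (m / ℓ) * Real.exp k / y ^ k := by
    rw [le_div_iff₀ hyk]
    exact hcard.trans hsum
  refine h1.trans (le_of_eq ?_)
  have h2 : (Real.exp 1 * m / k) ^ k = Real.exp k / y ^ k := by
    rw [hy, div_pow, div_pow, mul_pow, ← Real.exp_nat_mul, mul_one]
    field_simp
  rw [h2]
  ring

end Pool.Concat
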