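import Mathlib

/-!
# The Brun-Hooley sieve: combinatorial part
-/

set_option autoImplicit false

open Finset

namespace Pool.Concat

/-- truncated elementary symmetric sum -/
noncomputable def Gk (P : Finset ℕ) (k : ℕ) (y : ℕ → ℝ) : ℝ :=
  ∑ S ∈ P.powerset, if S.card ≤ k then ∏ p ∈ S, y p else 0

/-- elementary symmetric sum of degree `m` -/
noncomputable def Ek (P : Finset ℕ) (m : ℕ) (y : ℕ → ℝ) : ℝ :=
  ∑ S ∈ P.powerset, if S.card = m then ∏ p ∈ S, y p else 0

/-- `∏ (1 - x p)` -/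
noncomputable def VV (P : Finset ℕ) (x : ℕ → ℝ) : ℝ := ∏ p ∈ P, (1 - x p)

theorem sum_powerset_insert' (P : Finset ℕ) (a : ℕ) (ha : a ∉ P) (f : Finset ℕ → ℝ) :
    ∑ S ∈ (insert a P).powerset, f S = ∑ S ∈ P.powerset, f S + ∑ S ∈ P.powerset, f (insert a S) := by
  exact Finset.sum_powerset_insert ha f

theorem Gk_zero (P : Finset ℕ) (y : ℕ → ℝ) : Gk P 0 y = 1 := by
  unfold Gk
  rw [Finset.sum_eq_single_of_mem ∅ (Finset.empty_mem_powerset P)]
  · simp
  · intro S _ hS
    rw [if_neg]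
    intro h
    exact hS (Finset.card_eq_zero.1 (Nat.le_zero.1 h))

theorem Gk_insert (P : Finset ℕ) (a : ℕ) (ha : a ∉ P) (k : ℕ) (y : ℕ → ℝ) :
    Gk (insert a P) (k + 1) y = Gk P (k + 1) y + y a * Gk P k y := by
  unfold Gk
  rw [sum_powerset_insert' P a ha, Finset.mul_sum]
  congr 1
  refine Finset.sum_congr rfl fun S hS => ?_
  have haS : a ∉ S := fun h => ha (Finset.mem_powerset.1 hS h)
  rw [Finset.card_insert_of_notMem haS, Finset.prod_insert haS]
  by_cases h : S.card ≤ k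
  · rw [if_pos h, if_pos (by omega)]
  · rw [if_neg h, if_neg (by omega), mul_zero]

theorem Gk_succ (P : Finset ℕ) (k : ℕ) (y : ℕ → ℝ) :
    Gk P (k + 1) y = Gk P k y + Ek P (k + 1) y := by
  unfold Gk Ek
  rw [← Finset.sum_add_distrib]
  refine Finset.sum_congr rfl fun S _ => ?_
  by_cases h : S.card ≤ k
  · rw [if_pos h, if_pos (by omega), if_neg (by omega), add_zero]
  · by_cases h2 : S.card = k + 1
    · rw [if_pos (by omega), if_neg h, if_pos h2, zero_add]
    · rw [if_neg (by omega), if_neg h, if_neg h2, zero_add]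

theorem Ek_neg (P : Finset ℕ) (m : ℕ) (y : ℕ → ℝ) :
    Ek P m (fun p => - y p) = (-1) ^ m * Ek P m y := by
  unfold Ek
  rw [Finset.mul_sum]
  refine Finset.sum_congr rfl fun S _ => ?_
  by_cases h : S.card = m
  · rw [if_pos h, if_pos h, Finset.prod_neg, h]
  · rw [if_neg h, if_neg h, mul_zero]

theorem Ek_nonneg (P : Finset ℕ) (m : ℕ) (y : ℕ → ℝ) (h0 : ∀ p ∈ P, 0 ≤ y p) : 0 ≤ Ek P m y := by
  unfold Ek
  refine Finset.sum_nonneg fun S hS => ?_
  split_ifs
  · exact Finset.prod_nonneg fun p hp => h0 p (Finset.mem_powerset.1 hS hp)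
  · exact le_rfl

theorem VV_nonneg (P : Finset ℕ) (x : ℕ → ℝ) (h1 : ∀ p ∈ P, x p ≤ 1) : 0 ≤ VV P x :=
  Finset.prod_nonneg fun p hp => by linarith [h1 p hp]

/-- weighted Bonferroni inequalities -/
theorem bonf_aux (P : Finset ℕ) (x : ℕ → ℝ) (h0 : ∀ p ∈ P, 0 ≤ x p) (h1 : ∀ p ∈ P, x p ≤ 1) :
    ∀ k : ℕ, 0 ≤ (-1 : ℝ) ^ k * (Gk P k (fun p => - x p) - VV P x) := by
  classical
  induction P using Finset.induction_on with
  | empty =>
    intro k
    have : Gk ∅ k (fun p => - x p) = 1 := by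
      unfold Gk
      simp
    rw [this]
    simp [VV]
  | insert a P ha ih =>
    have ih' := ih (fun p hp => h0 p (Finset.mem_insert_of_mem hp))
      (fun p hp => h1 p (Finset.mem_insert_of_mem hp))
    have ha0 := h0 a (Finset.mem_insert_self a P)
    have hV : VV (insert a P) x = (1 - x a) * VV P x := by
      unfold VV
      rw [Finset.prod_insert ha]
    have hVn := VV_nonneg P x (fun p hp => h1 p (Finset.mem_insert_of_mem hp))
    intro k
    rcases k with _ | k
    · rw [Gk_zero, hV]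
      have h2 := ih' 0
      rw [Gk_zero] at h2
      simp only [pow_zero, one_mul] at h2 ⊢
      nlinarith
    · rw [Gk_insert P a ha, hV]
      have h2 := ih' (k + 1)
      have h3 := mul_nonneg ha0 (ih' k)
      have h4 : (-1 : ℝ) ^ (k + 1) * (Gk P (k + 1) (fun p => - x p) + - x a * Gk P k (fun p => - x p) -
          (1 - x a) * VV P x) = (-1 : ℝ) ^ (k + 1) * (Gk P (k + 1) (fun p => - x p) - VV P x) +
          x a * ((-1 : ℝ) ^ k * (Gk P k (fun p => - x p) - VV P x)) := by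
        rw [pow_succ]
        ring
      rw [h4]
      exact add_nonneg h2 h3

theorem bonf (P : Finset ℕ) (x : ℕ → ℝ) (h0 : ∀ p ∈ P, 0 ≤ x p) (h1 : ∀ p ∈ P, x p ≤ 1)
    (k : ℕ) (hk : Even k) :
    VV P x ≤ Gk P k (fun p => - x p) ∧ Gk P k (fun p => - x p) ≤ VV P x + Ek P (k + 1) x := by
  have ha := bonf_aux P x h0 h1 k
  have hb := bonf_aux P x h0 h1 (k + 1)
  rw [Gk_succ, Ek_neg] at hb
  rw [pow_succ, hk.neg_one_pow] at hb
  rw [hk.neg_one_pow] at ha
  constructor
  · linarith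
  · linarith

/-- Hooley's inequality -/
theorem hooley {ι : Type} [DecidableEq ι] (s : Finset ι) (x y : ι → ℝ) (h0 : ∀ i ∈ s, 0 ≤ x i)
    (h : ∀ i ∈ s, x i ≤ y i) :
    ∏ i ∈ s, y i - ∑ i ∈ s, (y i - x i) * ∏ j ∈ s.erase i, y j ≤ ∏ i ∈ s, x i := by
  induction s using Finset.induction_on with
  | empty => simp
  | insert a s ha ih =>
    have ih' := ih (fun i hi => h0 i (Finset.mem_insert_of_mem hi))
      (fun i hi => h i (Finset.mem_insert_of_mem hi))
    have hy : ∀ i ∈ s, 0 ≤ y i := fun i hi =>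
      (h0 i (Finset.mem_insert_of_mem hi)).trans (h i (Finset.mem_insert_of_mem hi))
    have hxa := h0 a (Finset.mem_insert_self a s)
    have hya := h a (Finset.mem_insert_self a s)
    have hYX : ∏ i ∈ s, x i ≤ ∏ i ∈ s, y i :=
      Finset.prod_le_prod (fun i hi => h0 i (Finset.mem_insert_of_mem hi))
        (fun i hi => h i (Finset.mem_insert_of_mem hi))
    have hsum : ∑ i ∈ insert a s, (y i - x i) * ∏ j ∈ (insert a s).erase i, y j =
        (y a - x a) * ∏ j ∈ s, y j + y a * ∑ i ∈ s, (y i - x i) * ∏ j ∈ s.erase i, y j := by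
      rw [Finset.sum_insert ha, Finset.erase_insert ha, Finset.mul_sum]
      congr 1
      refine Finset.sum_congr rfl fun i hi => ?_
      have hia : i ≠ a := fun e => ha (e ▸ hi)
      have : (insert a s).erase i = insert a (s.erase i) := by
        rw [Finset.erase_insert_of_ne (Ne.symm hia)]
      rw [this, Finset.prod_insert (fun h' => ha (Finset.mem_of_mem_erase h'))]
      ring
    rw [Finset.prod_insert ha, Finset.prod_insert ha, hsum]
    have hS : 0 ≤ ∑ i ∈ s, (y i - x i) * ∏ j ∈ s.erase i, y j :=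
      Finset.sum_nonneg fun i hi => mul_nonneg
        (by linarith [h i (Finset.mem_insert_of_mem hi)])
        (Finset.prod_nonneg fun j hj => hy j (Finset.mem_of_mem_erase hj))
    nlinarith [mul_nonneg hxa hS, mul_nonneg (sub_nonneg.2 hya) hS,
      mul_le_mul_of_nonneg_left ih' hxa]

theorem Ek_le (P : Finset ℕ) (m : ℕ) (x : ℕ → ℝ) (h0 : ∀ p ∈ P, 0 ≤ x p) (t : ℝ) (ht : 0 < t) :
    Ek P m x * t ^ m ≤ Real.exp (t * ∑ p ∈ P, x p) := by
  have h1 : Ek P m x * t ^ m ≤ ∏ p ∈ P, (1 + t * x p) := by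
    rw [Finset.prod_one_add]
    unfold Ek
    rw [Finset.sum_mul]
    refine Finset.sum_le_sum fun S hS => ?_
    have hS0 : 0 ≤ ∏ p ∈ S, t * x p := Finset.prod_nonneg fun p hp =>
      mul_nonneg ht.le (h0 p (Finset.mem_powerset.1 hS hp))
    by_cases h : S.card = m
    · rw [if_pos h, Finset.prod_mul_distrib, Finset.prod_const, h]
      exact le_of_eq (mul_comm _ _)
    · rw [if_neg h, zero_mul]
      exact hS0
  refine h1.trans ?_
  rw [Finset.mul_sum, Real.exp_sum]
  refine Finset.prod_le_prod (fun p hp => ?_) fun p hp => ?_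
  · have := mul_nonneg ht.le (h0 p hp)
    linarith
  · have := Real.add_one_le_exp (t * x p)
    linarith

theorem Gk_le (P : Finset ℕ) (k : ℕ) (y : ℕ → ℝ) (h0 : ∀ p ∈ P, 0 ≤ y p) :
    Gk P k y ≤ (1 + ∑ p ∈ P, y p) ^ k := by
  classical
  induction P using Finset.induction_on generalizing k with
  | empty =>
    unfold Gk
    simp
  | insert a P ha ih =>
    have hP : ∀ p ∈ P, 0 ≤ y p := fun p hp => h0 p (Finset.mem_insert_of_mem hp)
    have ha0 := h0 a (Finset.mem_insert_self a P)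
    have hs : 0 ≤ ∑ p ∈ P, y p := Finset.sum_nonneg hP
    rcases k with _ | k
    · rw [Gk_zero, pow_zero]
    · rw [Gk_insert P a ha, Finset.sum_insert ha]
      set c := 1 + ∑ p ∈ P, y p with hc
      have hc0 : 0 ≤ c := by linarith
      have h1 := ih (k + 1) hP
      have h2 := mul_le_mul_of_nonneg_left (ih k hP) ha0
      have h3 : c ^ k ≤ (c + y a) ^ k := pow_le_pow_left₀ hc0 (by linarith) k
      have h4 : (c + y a) * c ^ k ≤ (c + y a) * (c + y a) ^ k :=
        mul_le_mul_of_nonneg_left h3 (by linarith)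
      have h5 : 1 + (y a + ∑ p ∈ P, y p) = c + y a := by rw [hc]; ring
      rw [h5]
      calc Gk P (k + 1) y + y a * Gk P k y ≤ c ^ (k + 1) + y a * c ^ k := add_le_add h1 h2
        _ = (c + y a) * c ^ k := by ring
        _ ≤ (c + y a) ^ (k + 1) := by rw [pow_succ' (c + y a)]; exact h4

/-- the indicator of `A p n` -/
noncomputable def ind (A : ℕ → ℕ → Prop) (n p : ℕ) : ℝ := by
  classical exact if A p n then 1 else 0

theorem ind_nonneg (A : ℕ → ℕ → Prop) (n p : ℕ) : 0 ≤ ind A n p := by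
  unfold ind; split_ifs <;> norm_num

theorem ind_le_one (A : ℕ → ℕ → Prop) (n p : ℕ) : ind A n p ≤ 1 := by
  unfold ind; split_ifs <;> norm_num

open Classical in
theorem prod_ind (A : ℕ → ℕ → Prop) (n : ℕ) (S : Finset ℕ) :
    ∏ p ∈ S, ind A n p = if (∀ p ∈ S, A p n) then 1 else 0 := by
  split_ifs with h
  · refine Finset.prod_eq_one fun p hp => ?_
    unfold ind
    rw [if_pos (h p hp)]
  · push Not at h
    obtain ⟨p, hp, hn⟩ := h
    refine Finset.prod_eq_zero hp ?_
    unfold ind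
    rw [if_neg hn]

open Classical in
theorem VV_ind (A : ℕ → ℕ → Prop) (n : ℕ) (S : Finset ℕ) :
    VV S (ind A n) = if (∀ p ∈ S, ¬ A p n) then 1 else 0 := by
  unfold VV
  split_ifs with h
  · refine Finset.prod_eq_one fun p hp => ?_
    unfold ind
    rw [if_neg (h p hp), sub_zero]
  · push Not at h
    obtain ⟨p, hp, hn⟩ := h
    refine Finset.prod_eq_zero hp ?_
    unfold ind
    rw [if_pos hn, sub_self]

/-- expanding a product of sieve weights with disjoint supports -/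
theorem expand {ι : Type} [Fintype ι] [DecidableEq ι] (P : ι → Finset ℕ)
    (hdis : ∀ i j, i ≠ j → Disjoint (P i) (P j)) (c : ι → Finset ℕ → ℝ) (m : ι → ℕ)
    (hc : ∀ j S, |c j S| ≤ 1) (hm : ∀ j S, m j < S.card → c j S = 0) (I : Finset ℕ)
    (A : ℕ → ℕ → Prop) (g : ℕ → ℝ) (X : ℝ)
    (hr : ∀ S : Finset ℕ, S ⊆ Finset.univ.biUnion P →
      |∑ n ∈ I, ∏ p ∈ S, ind A n p - X * ∏ p ∈ S, g p| ≤ ∏ p ∈ S, (p : ℝ)) :
    |∑ n ∈ I, ∏ j, ∑ S ∈ (P j).powerset, c j S * ∏ p ∈ S, ind A n p -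
      X * ∏ j, ∑ S ∈ (P j).powerset, c j S * ∏ p ∈ S, g p| ≤
      ∏ j, Gk (P j) (m j) (fun p => (p : ℝ)) := by
  have e1 : ∀ (h : ℕ → ℝ), ∏ j, ∑ S ∈ (P j).powerset, c j S * ∏ p ∈ S, h p =
      ∑ x ∈ Fintype.piFinset (fun j => (P j).powerset),
        (∏ j, c j (x j)) * ∏ p ∈ Finset.univ.biUnion x, h p := by
    intro h
    rw [Finset.prod_univ_sum]
    refine Finset.sum_congr rfl fun x hx => ?_
    rw [Finset.prod_mul_distrib]
    congr 1
    rw [Finset.prod_biUnion]
    intro i _ j _ hij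
    have hi := Finset.mem_powerset.1 (Fintype.mem_piFinset.1 hx i)
    have hj := Finset.mem_powerset.1 (Fintype.mem_piFinset.1 hx j)
    exact Finset.disjoint_of_subset_left hi (Finset.disjoint_of_subset_right hj (hdis i j hij))
  have e2 : ∏ j, Gk (P j) (m j) (fun p => (p : ℝ)) =
      ∑ x ∈ Fintype.piFinset (fun j => (P j).powerset),
        (∏ j, if (x j).card ≤ m j then (1 : ℝ) else 0) * ∏ p ∈ Finset.univ.biUnion x, (p : ℝ) := by
    unfold Gk
    rw [Finset.prod_univ_sum]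
    refine Finset.sum_congr rfl fun x hx => ?_
    rw [Finset.prod_biUnion]
    · rw [← Finset.prod_mul_distrib]
      refine Finset.prod_congr rfl fun j _ => ?_
      split_ifs <;> simp
    · intro i _ j _ hij
      have hi := Finset.mem_powerset.1 (Fintype.mem_piFinset.1 hx i)
      have hj := Finset.mem_powerset.1 (Fintype.mem_piFinset.1 hx j)
      exact Finset.disjoint_of_subset_left hi (Finset.disjoint_of_subset_right hj (hdis i j hij))
  have e3 : ∑ n ∈ I, ∏ j, ∑ S ∈ (P j).powerset, c j S * ∏ p ∈ S, ind A n p =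
      ∑ x ∈ Fintype.piFinset (fun j => (P j).powerset), (∏ j, c j (x j)) *
        ∑ n ∈ I, ∏ p ∈ Finset.univ.biUnion x, ind A n p := by
    rw [Finset.sum_congr rfl (fun n _ => e1 (ind A n)), Finset.sum_comm]
    refine Finset.sum_congr rfl fun x _ => ?_
    rw [← Finset.mul_sum]
  rw [e3, e1 g, e2, Finset.mul_sum, ← Finset.sum_sub_distrib]
  refine (Finset.abs_sum_le_sum_abs _ _).trans (Finset.sum_le_sum fun x hx => ?_)
  have hsub : Finset.univ.biUnion x ⊆ Finset.univ.biUnion P := by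
    intro p hp
    rw [Finset.mem_biUnion] at hp ⊢
    obtain ⟨j, hj, hpj⟩ := hp
    exact ⟨j, hj, Finset.mem_powerset.1 (Fintype.mem_piFinset.1 hx j) hpj⟩
  have h1 := hr _ hsub
  have h2 : (∏ j, c j (x j)) * (∑ n ∈ I, ∏ p ∈ Finset.univ.biUnion x, ind A n p) -
      X * ((∏ j, c j (x j)) * ∏ p ∈ Finset.univ.biUnion x, g p) =
      (∏ j, c j (x j)) * ((∑ n ∈ I, ∏ p ∈ Finset.univ.biUnion x, ind A n p) -
      X * ∏ p ∈ Finset.univ.biUnion x, g p) := by ring
  rw [h2, abs_mul]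
  have h3 : |∏ j, c j (x j)| ≤ ∏ j, if (x j).card ≤ m j then (1 : ℝ) else 0 := by
    rw [Finset.abs_prod]
    refine Finset.prod_le_prod (fun j _ => abs_nonneg _) fun j _ => ?_
    split_ifs with h
    · exact hc j _
    · rw [hm j _ (not_le.1 h), abs_zero]
  exact mul_le_mul h3 h1 (abs_nonneg _) (Finset.prod_nonneg fun j _ => by split_ifs <;> norm_num)

end Pool.Concat
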