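import Pool.Agent.Lib.MP_9dc83d_nt.BH1

/-!
# The Brun-Hooley sieve: blocks of primes and Chebyshev's bound
-/

set_option autoImplicit false

open Finset

namespace Pool.Concat

/-- the block boundaries -/
def Z (j : ℕ) : ℕ := 2 ^ (2 ^ j)

theorem two_le_Z (j : ℕ) : 2 ≤ Z j := by
  unfold Z
  calc 2 = 2 ^ 1 := by norm_num
    _ ≤ 2 ^ (2 ^ j) := Nat.pow_le_pow_right (by norm_num) Nat.one_le_two_pow

theorem Z_mono {i j : ℕ} (h : i ≤ j) : Z i ≤ Z j :=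
  Nat.pow_le_pow_right (by norm_num) (Nat.pow_le_pow_right (by norm_num) h)

/-- the primes up to `Z T` -/
def PA (T : ℕ) : Finset ℕ := (Icc 1 (Z T)).filter Nat.Prime

/-- the `j`-th block of primes -/
def PB (j : ℕ) : Finset ℕ := (PA j).filter fun p => j = 0 ∨ Z (j - 1) < p

theorem mem_PA {T p : ℕ} : p ∈ PA T ↔ p.Prime ∧ p ≤ Z T := by
  unfold PA
  rw [Finset.mem_filter, Finset.mem_Icc]
  exact ⟨fun h => ⟨h.2, h.1.2⟩, fun h => ⟨⟨h.1.one_lt.le, h.2⟩, h.1⟩⟩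

theorem mem_PB {j p : ℕ} : p ∈ PB j ↔ (p.Prime ∧ p ≤ Z j) ∧ (j = 0 ∨ Z (j - 1) < p) := by
  unfold PB
  rw [Finset.mem_filter, mem_PA]

theorem PB_disjoint {i j : ℕ} (h : i ≠ j) : Disjoint (PB i) (PB j) := by
  rw [Finset.disjoint_left]
  intro p hi hj
  rw [mem_PB] at hi hj
  rcases lt_or_gt_of_ne h with hlt | hlt
  · rcases hj.2 with h0 | h0
    · omega
    · have := Z_mono (show i ≤ j - 1 by omega)
      omega
  · rcases hi.2 with h0 | h0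
    · omega
    · have := Z_mono (show j ≤ i - 1 by omega)
      omega

theorem biUnion_PB (T : ℕ) : (Finset.univ : Finset (Fin (T + 1))).biUnion (fun j => PB j) = PA T := by
  ext p
  rw [Finset.mem_biUnion, mem_PA]
  constructor
  · rintro ⟨j, -, hj⟩
    rw [mem_PB] at hj
    exact ⟨hj.1.1, hj.1.2.trans (Z_mono (Nat.lt_succ_iff.1 j.2))⟩
  · rintro ⟨hp, hT⟩
    have hex : ∃ j, p ≤ Z j := ⟨T, hT⟩
    classical
    set j := Nat.find hex with hj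
    have hjT : j ≤ T := Nat.find_min' hex hT
    refine ⟨⟨j, Nat.lt_succ_iff.2 hjT⟩, Finset.mem_univ _, ?_⟩
    rw [mem_PB]
    refine ⟨⟨hp, Nat.find_spec hex⟩, ?_⟩
    rcases Nat.eq_zero_or_pos j with h0 | h0
    · exact Or.inl h0
    · right
      exact not_le.1 (Nat.find_min hex (show j - 1 < Nat.find hex by omega))

theorem card_dyadic (i : ℕ) :
    ((Ioc (2 ^ i) (2 ^ (i + 1))).filter Nat.Prime).card * i ≤ 2 ^ (i + 2) := by
  set Q := (Ioc (2 ^ i) (2 ^ (i + 1))).filter Nat.Prime with hQ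
  have h1 : (2 ^ i) ^ Q.card ≤ ∏ p ∈ Q, p := by
    rw [← Finset.prod_const]
    exact Finset.prod_le_prod' fun p hp => (Finset.mem_Ioc.1 (Finset.mem_filter.1 hp).1).1.le
  have h2 : ∏ p ∈ Q, p ≤ primorial (2 ^ (i + 1)) := by
    unfold primorial
    apply Finset.prod_le_prod_of_subset_of_one_le'
    · intro p hp
      rw [hQ, Finset.mem_filter, Finset.mem_Ioc] at hp
      rw [Finset.mem_filter, Finset.mem_range]
      exact ⟨by omega, hp.2⟩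
    · intro p hp _
      exact (Finset.mem_filter.1 hp).2.one_lt.le
  have h3 := primorial_le_four_pow (2 ^ (i + 1))
  have h4 : (2 : ℕ) ^ (i * Q.card) ≤ 2 ^ (2 * 2 ^ (i + 1)) := by
    rw [pow_mul, pow_mul]
    exact h1.trans (h2.trans h3)
  have h5 := (Nat.pow_le_pow_iff_right (by norm_num)).1 h4
  calc Q.card * i = i * Q.card := mul_comm _ _
    _ ≤ 2 * 2 ^ (i + 1) := h5
    _ = 2 ^ (i + 2) := by ring

theorem sum_dyadic (i : ℕ) (hi : 1 ≤ i) :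
    ∑ p ∈ (Ioc (2 ^ i) (2 ^ (i + 1))).filter Nat.Prime, (p : ℝ)⁻¹ ≤ 4 / i := by
  set Q := (Ioc (2 ^ i) (2 ^ (i + 1))).filter Nat.Prime with hQ
  have hiR : (0 : ℝ) < i := by exact_mod_cast hi
  have h1 : ∑ p ∈ Q, (p : ℝ)⁻¹ ≤ ∑ _p ∈ Q, ((2 : ℝ) ^ i)⁻¹ := by
    refine Finset.sum_le_sum fun p hp => ?_
    have h2 : 2 ^ i ≤ p := (Finset.mem_Ioc.1 (Finset.mem_filter.1 hp).1).1.le
    have h3 : (2 : ℝ) ^ i ≤ p := by exact_mod_cast h2
    exact inv_anti₀ (by positivity) h3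
  rw [Finset.sum_const, nsmul_eq_mul] at h1
  refine h1.trans ?_
  have h4 : (Q.card : ℝ) * i ≤ 2 ^ (i + 2) := by exact_mod_cast card_dyadic i
  rw [le_div_iff₀ hiR, mul_assoc, mul_comm ((2 : ℝ) ^ i)⁻¹, ← mul_assoc, ← div_eq_mul_inv,
    div_le_iff₀ (by positivity)]
  calc (Q.card : ℝ) * i ≤ 2 ^ (i + 2) := h4
    _ = 4 * 2 ^ i := by ring

theorem sum_range_primes (a m : ℕ) (ha : 1 ≤ a) :
    ∑ p ∈ (Ioc (2 ^ a) (2 ^ (a + m))).filter Nat.Prime, (p : ℝ)⁻¹ ≤ 4 * m / a := by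
  induction m with
  | zero => simp
  | succ m ih =>
    have haR : (0 : ℝ) < a := by exact_mod_cast ha
    have hsplit : (Ioc (2 ^ a) (2 ^ (a + (m + 1)))).filter Nat.Prime ⊆
        (Ioc (2 ^ a) (2 ^ (a + m))).filter Nat.Prime ∪
        (Ioc (2 ^ (a + m)) (2 ^ (a + m + 1))).filter Nat.Prime := by
      intro p hp
      rw [Finset.mem_filter, Finset.mem_Ioc] at hp
      rw [Finset.mem_union, Finset.mem_filter, Finset.mem_filter, Finset.mem_Ioc, Finset.mem_Ioc]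
      rcases le_or_gt p (2 ^ (a + m)) with h | h
      · exact Or.inl ⟨⟨hp.1.1, h⟩, hp.2⟩
      · exact Or.inr ⟨⟨h, hp.1.2⟩, hp.2⟩
    have hnn : ∀ p ∈ (Ioc (2 ^ a) (2 ^ (a + m))).filter Nat.Prime ∪
        (Ioc (2 ^ (a + m)) (2 ^ (a + m + 1))).filter Nat.Prime, (0 : ℝ) ≤ (p : ℝ)⁻¹ :=
      fun p _ => by positivity
    have h1 := Finset.sum_le_sum_of_subset_of_nonneg hsplit (fun p hp _ => hnn p hp)
    have h2 := Finset.sum_union_inter (s₁ := (Ioc (2 ^ a) (2 ^ (a + m))).filter Nat.Prime)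
      (s₂ := (Ioc (2 ^ (a + m)) (2 ^ (a + m + 1))).filter Nat.Prime)
      (f := fun p : ℕ => (p : ℝ)⁻¹)
    have h3 : 0 ≤ ∑ p ∈ (Ioc (2 ^ a) (2 ^ (a + m))).filter Nat.Prime ∩
        (Ioc (2 ^ (a + m)) (2 ^ (a + m + 1))).filter Nat.Prime, (p : ℝ)⁻¹ :=
      Finset.sum_nonneg fun p _ => by positivity
    have h4 := sum_dyadic (a + m) (by omega)
    have h5 : (4 : ℝ) / ((a + m : ℕ) : ℝ) ≤ 4 / a := by
      apply div_le_div_of_nonneg_left (by norm_num) haR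
      push_cast
      linarith [(Nat.cast_nonneg m : (0 : ℝ) ≤ m)]
    have h6 : (4 : ℝ) * ((m + 1 : ℕ) : ℝ) / a = 4 * m / a + 4 / a := by
      push_cast
      ring
    rw [h6]
    linarith

theorem cheb (j : ℕ) : ∑ p ∈ PB j, (p : ℝ)⁻¹ ≤ 4 := by
  rcases Nat.eq_zero_or_pos j with h0 | h0
  · subst h0
    have h1 : PB 0 = {2} := by decide
    rw [h1, Finset.sum_singleton]
    norm_num
  · obtain ⟨i, rfl⟩ : ∃ i, j = i + 1 := ⟨j - 1, by omega⟩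
    have h1 : PB (i + 1) = (Ioc (2 ^ (2 ^ i)) (2 ^ (2 ^ i + 2 ^ i))).filter Nat.Prime := by
      ext p
      rw [mem_PB, Finset.mem_filter, Finset.mem_Ioc]
      have h2 : (2 : ℕ) ^ i + 2 ^ i = 2 ^ (i + 1) := by ring
      rw [h2]
      simp only [Nat.add_sub_cancel, Nat.succ_ne_zero, false_or, Z]
      tauto
    rw [h1]
    have h3 := sum_range_primes (2 ^ i) (2 ^ i) Nat.one_le_two_pow
    refine h3.trans ?_
    push_cast
    have : (0 : ℝ) < 2 ^ i := by positivity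
    rw [div_le_iff₀ this]

theorem sum_PB_le (j : ℕ) : 1 + ∑ p ∈ PB j, (p : ℝ) ≤ (Z j : ℝ) ^ 2 := by
  have h1 : ∑ p ∈ PB j, p ≤ ∑ p ∈ Icc 1 (Z j), p := by
    apply Finset.sum_le_sum_of_subset
    intro p hp
    rw [mem_PB] at hp
    rw [Finset.mem_Icc]
    exact ⟨hp.1.1.one_lt.le, hp.1.2⟩
  have h2 : ∀ n : ℕ, 2 ≤ n → 1 + ∑ p ∈ Icc 1 n, p ≤ n ^ 2 := by
    intro n hn
    induction n, hn using Nat.le_induction with
    | base => decide
    | succ n hn ih =>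
      rw [Finset.sum_Icc_succ_top (by omega)]
      nlinarith
  have h3 := h2 (Z j) (two_le_Z j)
  have h4 : 1 + ∑ p ∈ PB j, p ≤ (Z j) ^ 2 := by omega
  have h5 : ((1 + ∑ p ∈ PB j, p : ℕ) : ℝ) ≤ ((Z j ^ 2 : ℕ) : ℝ) := by exact_mod_cast h4
  push_cast at h5
  exact h5

end Pool.Concat
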