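import Pool.Agent.Lib.MP_9dc83d_nt.BH2

/-!
# The Brun-Hooley sieve: the fundamental lemma
-/

set_option autoImplicit false

open Finset

namespace Pool.Concat

/-- truncation levels -/
def kk (T j : ℕ) : ℕ := 48 + 2 * (T - j)

theorem kk_even (T j : ℕ) : Even (kk T j) := ⟨24 + (T - j), by unfold kk; ring⟩

theorem exp_le_one_sub (x : ℝ) (h0 : 0 ≤ x) (h1 : x ≤ 2 / 3) : Real.exp (-(3 * x)) ≤ 1 - x := by
  have h2 : 0 < 1 - x := by linarith
  have h3 : x / (1 - x) ≤ 3 * x := by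
    rw [div_le_iff₀ h2]
    nlinarith
  have h4 : 1 / (1 - x) ≤ Real.exp (3 * x) := by
    have h5 := Real.add_one_le_exp (x / (1 - x))
    have h6 : x / (1 - x) + 1 = 1 / (1 - x) := by field_simp; ring
    rw [h6] at h5
    exact h5.trans (Real.exp_le_exp.2 h3)
  rw [Real.exp_neg]
  rw [div_le_iff₀ h2] at h4
  rw [inv_le_iff_one_le_mul₀ (Real.exp_pos _)]
  linarith

theorem VV_ge_exp (P : Finset ℕ) (g : ℕ → ℝ) (h0 : ∀ p ∈ P, 0 ≤ g p) (h1 : ∀ p ∈ P, g p ≤ 2 / 3) :
    Real.exp (-(3 * ∑ p ∈ P, g p)) ≤ VV P g := by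
  have : -(3 * ∑ p ∈ P, g p) = ∑ p ∈ P, -(3 * g p) := by
    rw [Finset.mul_sum, Finset.sum_neg_distrib]
  rw [this, Real.exp_sum]
  exact Finset.prod_le_prod (fun p _ => (Real.exp_pos _).le)
    (fun p hp => exp_le_one_sub (g p) (h0 p hp) (h1 p hp))

theorem exp_104 : Real.exp 104 * 4 ≤ 10 ^ 49 := by
  have h1 := Real.exp_one_lt_d9
  have h2 : Real.exp 104 = Real.exp 1 ^ 104 := by
    rw [← Real.exp_nat_mul]
    norm_num
  rw [h2]
  have h3 : Real.exp 1 ^ 104 ≤ (2.72 : ℝ) ^ 104 :=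
    pow_le_pow_left₀ (Real.exp_pos 1).le (by linarith) 104
  have h4 : (2.72 : ℝ) ^ 104 * 4 ≤ 10 ^ 49 := by norm_num
  linarith

/-- the relative error in the `j`-th block -/
noncomputable def eps (T j : ℕ) : ℝ := (1 / 4) * (1 / 2) ^ (T - j)

theorem eps_nonneg (T j : ℕ) : 0 ≤ eps T j := by unfold eps; positivity

theorem sum_eps (T : ℕ) : ∑ j : Fin (T + 1), eps T j ≤ 1 / 2 := by
  rw [Fin.sum_univ_eq_sum_range (fun j => eps T j) (T + 1)]
  unfold eps
  rw [← Finset.mul_sum]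
  have h1 := Finset.sum_range_reflect (fun s => (1 / 2 : ℝ) ^ s) (T + 1)
  have h2 : ∑ j ∈ range (T + 1), (1 / 2 : ℝ) ^ (T - j) = ∑ s ∈ range (T + 1), (1 / 2 : ℝ) ^ s := by
    rw [← h1]
    refine Finset.sum_congr rfl fun j _ => ?_
    congr 1
  rw [h2]
  have h3 : ∀ n : ℕ, ∑ s ∈ range n, (1 / 2 : ℝ) ^ s = 2 - 2 * (1 / 2) ^ n := by
    intro n
    induction n with
    | zero => simp
    | succ n ih =>
      rw [Finset.sum_range_succ, ih, pow_succ]
      ring
  rw [h3]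
  have h4 : (0 : ℝ) ≤ (1 / 2) ^ (T + 1) := by positivity
  linarith

theorem Ek_le_eps (T j : ℕ) (g : ℕ → ℝ) (h0 : ∀ p ∈ PB j, 0 ≤ g p)
    (h1 : ∀ p ∈ PB j, g p ≤ 2 / p) (h2 : ∀ p ∈ PB j, g p ≤ 2 / 3) :
    Ek (PB j) (kk T j + 1) g ≤ eps T j * VV (PB j) g := by
  have hS : ∑ p ∈ PB j, g p ≤ 8 := by
    have h3 : ∑ p ∈ PB j, g p ≤ ∑ p ∈ PB j, 2 * (p : ℝ)⁻¹ :=
      Finset.sum_le_sum fun p hp => by
        have := h1 p hp
        rwa [div_eq_mul_inv] at this
    rw [← Finset.mul_sum] at h3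
    have := cheb j
    linarith
  have hE := Ek_le (PB j) (kk T j + 1) g h0 10 (by norm_num)
  have hV := VV_ge_exp (PB j) g h0 h2
  have hE2 : Ek (PB j) (kk T j + 1) g * 10 ^ (kk T j + 1) ≤ Real.exp 80 :=
    hE.trans (Real.exp_le_exp.2 (by linarith))
  have hV2 : Real.exp (-24) ≤ VV (PB j) g :=
    le_trans (Real.exp_le_exp.2 (by linarith)) hV
  have hs : kk T j + 1 = 49 + 2 * (T - j) := by unfold kk; omega
  rw [hs] at hE2 ⊢
  set s := T - j with hsdef
  have h10 : (0 : ℝ) < 10 ^ (49 + 2 * s) := by positivity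
  have h3 : Ek (PB j) (49 + 2 * s) g ≤ Real.exp 80 / 10 ^ (49 + 2 * s) := by
    rw [le_div_iff₀ h10]
    exact hE2
  refine h3.trans ?_
  have h4 : eps T j * Real.exp (-24) ≤ eps T j * VV (PB j) g :=
    mul_le_mul_of_nonneg_left hV2 (eps_nonneg T j)
  refine le_trans ?_ h4
  rw [div_le_iff₀ h10]
  have h5 : Real.exp 80 = Real.exp 104 * Real.exp (-24) := by
    rw [← Real.exp_add]
    norm_num
  rw [h5]
  have h6 : Real.exp 104 ≤ eps T j * 10 ^ (49 + 2 * s) := by
    have h7 := exp_104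
    have h8 : eps T j * 10 ^ (49 + 2 * s) = (1 / 4) * 10 ^ 49 * 50 ^ s := by
      unfold eps
      rw [pow_add, pow_mul, ← hsdef]
      have : (50 : ℝ) ^ s = (1 / 2) ^ s * (10 ^ 2) ^ s := by
        rw [← mul_pow]
        norm_num
      rw [this]
      ring
    rw [h8]
    have h9 : (1 : ℝ) ≤ 50 ^ s := one_le_pow₀ (by norm_num)
    have h11 : (0 : ℝ) ≤ 1 / 4 * 10 ^ 49 := by norm_num
    have h12 := mul_le_mul_of_nonneg_left h9 h11
    linarith
  have h13 : (0 : ℝ) < Real.exp (-24) := Real.exp_pos _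
  calc Real.exp 104 * Real.exp (-24) ≤ (eps T j * 10 ^ (49 + 2 * s)) * Real.exp (-24) :=
        mul_le_mul_of_nonneg_right h6 h13.le
    _ = eps T j * Real.exp (-24) * 10 ^ (49 + 2 * s) := by ring

theorem exponent_sum (T : ℕ) : ∑ j ∈ range (T + 1), 2 ^ j * (kk T j + 1) ≤ 102 * 2 ^ T := by
  have hk : ∀ T j, kk T j + 1 = 49 + 2 * (T - j) := fun T j => by unfold kk; omega
  induction T with
  | zero => simp [kk]
  | succ T ih =>
    rw [Finset.sum_range_succ]
    have h1 : ∑ j ∈ range (T + 1), 2 ^ j * (kk (T + 1) j + 1) =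
        ∑ j ∈ range (T + 1), 2 ^ j * (kk T j + 1) + 2 * ∑ j ∈ range (T + 1), 2 ^ j := by
      rw [Finset.mul_sum, ← Finset.sum_add_distrib]
      refine Finset.sum_congr rfl fun j hj => ?_
      rw [Finset.mem_range] at hj
      rw [hk, hk]
      have : T + 1 - j = (T - j) + 1 := by omega
      rw [this]
      ring
    have h2 : ∑ j ∈ range (T + 1), 2 ^ j < 2 ^ (T + 1) := by
      have := Nat.geomSum_lt (m := 2) (n := T + 1) (s := range (T + 1)) le_rfl
        (fun k hk => Finset.mem_range.1 hk)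
      exact this
    rw [h1, hk]
    have h3 : T + 1 - (T + 1) = 0 := by omega
    rw [h3]
    have h4 : (2 : ℕ) ^ (T + 1) = 2 * 2 ^ T := by ring
    rw [h4] at h2 ⊢
    omega

theorem prod_Gk_le (T : ℕ) :
    ∏ j : Fin (T + 1), Gk (PB j) (kk T j + 1) (fun p => (p : ℝ)) ≤ (Z T : ℝ) ^ 204 := by
  have h1 : ∏ j : Fin (T + 1), Gk (PB j) (kk T j + 1) (fun p => (p : ℝ)) ≤
      ∏ j : Fin (T + 1), ((Z j : ℝ) ^ 2) ^ (kk T j + 1) := by
    refine Finset.prod_le_prod (fun j _ => ?_) fun j _ => ?_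
    · unfold Gk
      refine Finset.sum_nonneg fun S _ => ?_
      split_ifs
      · exact Finset.prod_nonneg fun p _ => Nat.cast_nonneg p
      · exact le_rfl
    · refine (Gk_le (PB j) (kk T j + 1) (fun p => (p : ℝ)) fun p _ => Nat.cast_nonneg p).trans ?_
      exact pow_le_pow_left₀ (by positivity) (sum_PB_le j) _
  refine h1.trans ?_
  rw [Fin.prod_univ_eq_prod_range (fun j => ((Z j : ℝ) ^ 2) ^ (kk T j + 1)) (T + 1)]
  have h2 : ∏ j ∈ range (T + 1), ((Z j : ℝ) ^ 2) ^ (kk T j + 1) =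
      2 ^ (2 * ∑ j ∈ range (T + 1), 2 ^ j * (kk T j + 1)) := by
    rw [Finset.mul_sum, ← Finset.prod_pow_eq_pow_sum]
    refine Finset.prod_congr rfl fun j _ => ?_
    unfold Z
    push_cast
    rw [← pow_mul, ← pow_mul]
    congr 1
    ring
  rw [h2]
  have h3 : (Z T : ℝ) ^ 204 = 2 ^ (2 * (102 * 2 ^ T)) := by
    unfold Z
    push_cast
    rw [← pow_mul]
    congr 1
    ring
  rw [h3]
  exact pow_le_pow_right₀ (by norm_num) (Nat.mul_le_mul_left 2 (exponent_sum T))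

theorem T_add_two_le (T : ℕ) : T + 2 ≤ Z T := by
  induction T with
  | zero => simp [Z]
  | succ T ih =>
    have h1 : Z (T + 1) = Z T * Z T := by
      unfold Z
      rw [← pow_add]
      congr 1
      ring
    have h2 := two_le_Z T
    rw [h1]
    nlinarith

/-- the upper weight of the `j`-th block -/
noncomputable def UU (T j : ℕ) (x : ℕ → ℝ) : ℝ := Gk (PB j) (kk T j) (fun p => - x p)

theorem UU_eq (T j : ℕ) (x : ℕ → ℝ) :
    UU T j x = ∑ S ∈ (PB j).powerset, (if S.card ≤ kk T j then (-1 : ℝ) ^ S.card else 0) * ∏ p ∈ S, x p := by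
  unfold UU Gk
  refine Finset.sum_congr rfl fun S _ => ?_
  split_ifs with h
  · rw [Finset.prod_neg]
  · rw [zero_mul]

theorem Ek_eq (P : Finset ℕ) (m : ℕ) (x : ℕ → ℝ) :
    Ek P m x = ∑ S ∈ P.powerset, (if S.card = m then (1 : ℝ) else 0) * ∏ p ∈ S, x p := by
  unfold Ek
  refine Finset.sum_congr rfl fun S _ => ?_
  split_ifs with h
  · rw [one_mul]
  · rw [zero_mul]

theorem VV_PA (T : ℕ) (x : ℕ → ℝ) : VV (PA T) x = ∏ j : Fin (T + 1), VV (PB j) x := by
  unfold VV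
  rw [← biUnion_PB T, Finset.prod_biUnion]
  intro i _ j _ hij
  exact PB_disjoint fun h => hij (Fin.ext h)

theorem PB_subset {T j : ℕ} (h : j ≤ T) : PB j ⊆ PA T := by
  intro p hp
  rw [mem_PB] at hp
  rw [mem_PA]
  exact ⟨hp.1.1, hp.1.2.trans (Z_mono h)⟩

theorem brun_hooley (T : ℕ) (I : Finset ℕ) (A : ℕ → ℕ → Prop) (g : ℕ → ℝ) (X : ℝ) (hX : 0 ≤ X)
    (hg0 : ∀ p ∈ PA T, 0 ≤ g p) (hg1 : ∀ p ∈ PA T, g p ≤ 2 / p) (hg2 : ∀ p ∈ PA T, g p ≤ 2 / 3)
    (hr : ∀ S : Finset ℕ, S ⊆ PA T →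
      |∑ n ∈ I, ∏ p ∈ S, ind A n p - X * ∏ p ∈ S, g p| ≤ ∏ p ∈ S, (p : ℝ)) :
    (1 / 2) * X * VV (PA T) g - (Z T : ℝ) ^ 205 ≤ ∑ n ∈ I, VV (PA T) (ind A n) ∧
    ∑ n ∈ I, VV (PA T) (ind A n) ≤ 2 * X * VV (PA T) g + (Z T : ℝ) ^ 205 := by
  classical
  have hjT : ∀ j : Fin (T + 1), (j : ℕ) ≤ T := fun j => Nat.lt_succ_iff.1 j.2
  have hb0 : ∀ j : Fin (T + 1), ∀ p ∈ PB j, 0 ≤ g p := fun j p hp => hg0 p (PB_subset (hjT j) hp)
  have hb1 : ∀ j : Fin (T + 1), ∀ p ∈ PB j, g p ≤ 2 / p := fun j p hp => hg1 p (PB_subset (hjT j) hp)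
  have hb2 : ∀ j : Fin (T + 1), ∀ p ∈ PB j, g p ≤ 2 / 3 := fun j p hp => hg2 p (PB_subset (hjT j) hp)
  have hdis : ∀ i j : Fin (T + 1), i ≠ j → Disjoint (PB i) (PB j) :=
    fun i j hij => PB_disjoint fun h => hij (Fin.ext h)
  have hR := prod_Gk_le T
  set R := ∏ j : Fin (T + 1), Gk (PB j) (kk T j + 1) (fun p => (p : ℝ)) with hRdef
  -- block inequalities
  have hbg : ∀ j : Fin (T + 1), VV (PB j) g ≤ UU T j g ∧
      UU T j g ≤ VV (PB j) g + Ek (PB j) (kk T j + 1) g := fun j =>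
    bonf (PB j) g (hb0 j) (fun p hp => (hb2 j p hp).trans (by norm_num)) (kk T j) (kk_even T j)
  have hbn : ∀ n, ∀ j : Fin (T + 1), VV (PB j) (ind A n) ≤ UU T j (ind A n) ∧
      UU T j (ind A n) ≤ VV (PB j) (ind A n) + Ek (PB j) (kk T j + 1) (ind A n) := fun n j =>
    bonf (PB j) (ind A n) (fun p _ => ind_nonneg A n p) (fun p _ => ind_le_one A n p) (kk T j)
      (kk_even T j)
  have hVn0 : ∀ n, ∀ j : Fin (T + 1), 0 ≤ VV (PB j) (ind A n) := fun n j =>
    VV_nonneg _ _ fun p _ => ind_le_one A n p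
  have hVg0 : ∀ j : Fin (T + 1), 0 ≤ VV (PB j) g := fun j =>
    VV_nonneg _ _ fun p hp => (hb2 j p hp).trans (by norm_num)
  -- expansion of the main product
  have hmain : |∑ n ∈ I, ∏ j : Fin (T + 1), UU T j (ind A n) - X * ∏ j : Fin (T + 1), UU T j g| ≤ R := by
    have h1 := expand (ι := Fin (T + 1)) (fun j => PB j) hdis
      (fun j S => if S.card ≤ kk T j then (-1 : ℝ) ^ S.card else 0) (fun j => kk T j + 1)
      (fun j S => by
        split_ifs
        · rw [abs_pow, abs_neg, abs_one, one_pow]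
        · norm_num)
      (fun j S h => by
        rw [if_neg (by omega)]) I A g X
      (by rw [biUnion_PB]; exact hr)
    simpa only [← UU_eq] using h1
  have hterm : ∀ i : Fin (T + 1),
      |∑ n ∈ I, Ek (PB i) (kk T i + 1) (ind A n) * ∏ j ∈ univ.erase i, UU T j (ind A n) -
        X * (Ek (PB i) (kk T i + 1) g * ∏ j ∈ univ.erase i, UU T j g)| ≤ R := by
    intro i
    have h1 := expand (ι := Fin (T + 1)) (fun j => PB j) hdis
      (fun j S => if j = i then (if S.card = kk T j + 1 then (1 : ℝ) else 0)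
        else (if S.card ≤ kk T j then (-1 : ℝ) ^ S.card else 0)) (fun j => kk T j + 1)
      (fun j S => by
        split_ifs
        · norm_num
        · norm_num
        · rw [abs_pow, abs_neg, abs_one, one_pow]
        · norm_num)
      (fun j S h => by
        split_ifs
        · omega
        · rfl
        · omega
        · rfl) I A g X
      (by rw [biUnion_PB]; exact hr)
    have h2 : ∀ h : ℕ → ℝ, ∏ j : Fin (T + 1), ∑ S ∈ (PB j).powerset,
        (if j = i then (if S.card = kk T j + 1 then (1 : ℝ) else 0)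
          else (if S.card ≤ kk T j then (-1 : ℝ) ^ S.card else 0)) * ∏ p ∈ S, h p =
        Ek (PB i) (kk T i + 1) h * ∏ j ∈ univ.erase i, UU T j h := by
      intro h
      rw [← Finset.mul_prod_erase univ _ (Finset.mem_univ i)]
      congr 1
      · rw [Ek_eq]
        refine Finset.sum_congr rfl fun S _ => ?_
        rw [if_pos rfl]
      · refine Finset.prod_congr rfl fun j hj => ?_
        rw [UU_eq]
        refine Finset.sum_congr rfl fun S _ => ?_
        rw [if_neg (Finset.ne_of_mem_erase hj)]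
    simp only [h2] at h1
    exact h1
  have hE : ∀ i : Fin (T + 1), Ek (PB i) (kk T i + 1) g ≤ eps T i * VV (PB i) g := fun i =>
    Ek_le_eps T i g (hb0 i) (hb1 i) (hb2 i)
  have hUg0 : ∀ j : Fin (T + 1), 0 ≤ UU T j g := fun j => (hVg0 j).trans (hbg j).1
  -- the product of the upper weights of g
  have hprodV : VV (PA T) g ≤ ∏ j : Fin (T + 1), UU T j g := by
    rw [VV_PA]
    exact Finset.prod_le_prod (fun j _ => hVg0 j) fun j _ => (hbg j).1
  have hprodU : ∏ j : Fin (T + 1), UU T j g ≤ 2 * VV (PA T) g := by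
    rw [VV_PA]
    have h1 : ∏ j : Fin (T + 1), UU T j g ≤ ∏ j : Fin (T + 1), (Real.exp (eps T j) * VV (PB j) g) := by
      refine Finset.prod_le_prod (fun j _ => hUg0 j) fun j _ => ?_
      have h2 := (hbg j).2
      have h3 := hE j
      have h4 := Real.add_one_le_exp (eps T j)
      have h5 := mul_le_mul_of_nonneg_right h4 (hVg0 j)
      linarith
    rw [Finset.prod_mul_distrib, ← Real.exp_sum] at h1
    refine h1.trans ?_
    refine mul_le_mul_of_nonneg_right ?_ (Finset.prod_nonneg fun j _ => hVg0 j)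
    have h6 : Real.exp (∑ j : Fin (T + 1), eps T j) ≤ Real.exp (1 / 2) := Real.exp_le_exp.2 (sum_eps T)
    refine h6.trans ?_
    have h7 : Real.exp (1 / 2) * Real.exp (1 / 2) = Real.exp 1 := by
      rw [← Real.exp_add]
      norm_num
    have h8 := Real.exp_one_lt_d9
    have h9 : 0 < Real.exp (1 / 2) := Real.exp_pos _
    nlinarith
  have hVPA : 0 ≤ VV (PA T) g := by
    rw [VV_PA]
    exact Finset.prod_nonneg fun j _ => hVg0 j
  have hZ1 : (1 : ℝ) ≤ Z T := by
    have := two_le_Z T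
    exact_mod_cast (by omega : 1 ≤ Z T)
  have hR0 : 0 ≤ R := (abs_nonneg _).trans hmain
  constructor
  · -- lower bound
    have hlow : ∀ n, ∏ j : Fin (T + 1), UU T j (ind A n) -
        ∑ i : Fin (T + 1), Ek (PB i) (kk T i + 1) (ind A n) * ∏ j ∈ univ.erase i, UU T j (ind A n) ≤
        VV (PA T) (ind A n) := by
      intro n
      have h1 := hooley (Finset.univ : Finset (Fin (T + 1))) (fun j => VV (PB j) (ind A n))
        (fun j => UU T j (ind A n)) (fun j _ => hVn0 n j) (fun j _ => (hbn n j).1)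
      rw [VV_PA]
      refine le_trans ?_ h1
      have h2 : ∑ i : Fin (T + 1), (UU T i (ind A n) - VV (PB i) (ind A n)) *
          ∏ j ∈ univ.erase i, UU T j (ind A n) ≤ ∑ i : Fin (T + 1),
          Ek (PB i) (kk T i + 1) (ind A n) * ∏ j ∈ univ.erase i, UU T j (ind A n) := by
        refine Finset.sum_le_sum fun i _ => mul_le_mul_of_nonneg_right ?_ ?_
        · have := (hbn n i).2
          linarith
        · exact Finset.prod_nonneg fun j _ => (hVn0 n j).trans (hbn n j).1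
      linarith
    have h3 := Finset.sum_le_sum (s := I) fun n _ => hlow n
    rw [Finset.sum_sub_distrib, Finset.sum_comm] at h3
    have h4 : ∑ i : Fin (T + 1), ∑ n ∈ I, Ek (PB i) (kk T i + 1) (ind A n) *
        ∏ j ∈ univ.erase i, UU T j (ind A n) ≤ ∑ i : Fin (T + 1),
        (X * (eps T i * ∏ j : Fin (T + 1), UU T j g) + R) := by
      refine Finset.sum_le_sum fun i _ => ?_
      have h5 := (abs_le.1 (hterm i)).2
      have h6 : Ek (PB i) (kk T i + 1) g * ∏ j ∈ univ.erase i, UU T j g ≤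
          eps T i * ∏ j : Fin (T + 1), UU T j g := by
        rw [← Finset.mul_prod_erase univ (fun j : Fin (T + 1) => UU T j g) (Finset.mem_univ i), ← mul_assoc]
        refine mul_le_mul_of_nonneg_right ?_ (Finset.prod_nonneg fun j _ => hUg0 j)
        exact (hE i).trans (mul_le_mul_of_nonneg_left (hbg i).1 (eps_nonneg T i))
      have h7 := mul_le_mul_of_nonneg_left h6 hX
      linarith
    rw [Finset.sum_add_distrib, ← Finset.mul_sum, ← Finset.sum_mul] at h4
    rw [Finset.sum_const, Finset.card_univ, Fintype.card_fin, nsmul_eq_mul] at h4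
    have h8 := (abs_le.1 hmain).1
    have hPU : 0 ≤ ∏ j : Fin (T + 1), UU T j g := Finset.prod_nonneg fun j _ => hUg0 j
    have h9 : X * ((∑ i : Fin (T + 1), eps T i) * ∏ j : Fin (T + 1), UU T j g) ≤
        X * ((1 / 2) * ∏ j : Fin (T + 1), UU T j g) :=
      mul_le_mul_of_nonneg_left (mul_le_mul_of_nonneg_right (sum_eps T) hPU) hX
    have h10 : X * VV (PA T) g ≤ X * ∏ j : Fin (T + 1), UU T j g := mul_le_mul_of_nonneg_left hprodV hX
    have h11 : R + ((T + 1 : ℕ) : ℝ) * R ≤ (Z T : ℝ) ^ 205 := by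
      have h12 : ((T + 2 : ℕ) : ℝ) ≤ (Z T : ℝ) := by exact_mod_cast T_add_two_le T
      have h13 : R + ((T + 1 : ℕ) : ℝ) * R = ((T + 2 : ℕ) : ℝ) * R := by push_cast; ring
      rw [h13, pow_succ', ]
      exact mul_le_mul h12 hR hR0 (by linarith)
    linarith
  · -- upper bound
    have h1 : ∑ n ∈ I, VV (PA T) (ind A n) ≤ ∑ n ∈ I, ∏ j : Fin (T + 1), UU T j (ind A n) := by
      refine Finset.sum_le_sum fun n _ => ?_
      rw [VV_PA]
      exact Finset.prod_le_prod (fun j _ => hVn0 n j) fun j _ => (hbn n j).1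
    have h2 := (abs_le.1 hmain).2
    have h3 := mul_le_mul_of_nonneg_left hprodU hX
    have h4 : R ≤ (Z T : ℝ) ^ 205 := hR.trans (pow_le_pow_right₀ hZ1 (by norm_num))
    linarith

end Pool.Concat
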