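import Mathlib

/-!
# Equidistribution of `A q ^ h - c h - B` modulo squarefree integers
-/

set_option autoImplicit false

open Finset

namespace Pool.Agent.Lib.MP_9dc83d_nt

/-- the function -/
def FF (q c A B : ℤ) (h : ℕ) : ℤ := A * q ^ h - c * h - B

/-- splitting a count over `range (k * M)` -/
lemma sum_range_mul_split (g : ℕ → ℕ) (M : ℕ) (k : ℕ) :
    ∑ h ∈ range (k * M), g h = ∑ h ∈ range M, ∑ j ∈ range k, g (h + M * j) := by
  induction k with
  | zero => simp
  | succ k ih =>
    rw [Nat.succ_mul, Finset.sum_range_add, ih, ← Finset.sum_add_distrib]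
    refine Finset.sum_congr rfl fun h _ => ?_
    rw [Finset.sum_range_succ]
    congr 2
    ring

/-- counts of a periodic predicate over several periods -/
lemma periodic_mul (P : ℕ → Prop) [DecidablePred P] (T : ℕ)
    (hP : ∀ h, P (h + T) ↔ P h) (k : ℕ) :
    ((range (k * T)).filter P).card = k * ((range T).filter P).card := by
  have hper : ∀ j h, P (h + T * j) ↔ P h := by
    intro j
    induction j with
    | zero => simp
    | succ j ih =>
      intro h
      rw [show h + T * (j + 1) = (h + T * j) + T by ring, hP, ih]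
  rw [Finset.card_filter, Finset.card_filter, sum_range_mul_split, Finset.mul_sum]
  refine Finset.sum_congr rfl fun h _ => ?_
  have : ∀ j ∈ range k, (if P (h + T * j) then 1 else 0) = if P h then 1 else 0 := by
    intro j _
    simp only [hper]
  rw [Finset.sum_congr rfl this, Finset.sum_const, card_range, smul_eq_mul]

/-- the count over any initial interval, up to the count over one period -/
lemma periodic_count (P : ℕ → Prop) [DecidablePred P] (T f : ℕ) (hT : 0 < T)
    (hP : ∀ h, P (h + T) ↔ P h) (hf : ((range T).filter P).card = f) (N : ℕ) :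
    |(((range N).filter P).card : ℝ) - N * f / T| ≤ f := by
  have hper : ∀ j h, P (h + T * j) ↔ P h := by
    intro j
    induction j with
    | zero => simp
    | succ j ih =>
      intro h
      rw [show h + T * (j + 1) = (h + T * j) + T by ring, hP, ih]
  set k := N / T
  set r := N % T
  have hN : N = k * T + r := by
    have := Nat.div_add_mod N T
    simp only [k, r]
    rw [mul_comm]
    exact this.symm
  have hr : r < T := Nat.mod_lt _ hT
  have h1 : ((range N).filter P).card = k * f + ((range r).filter P).card := by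
    rw [hN, Finset.card_filter, Finset.sum_range_add, ← Finset.card_filter,
      periodic_mul P T hP k, hf, Finset.card_filter]
    congr 1
    refine Finset.sum_congr rfl fun h _ => ?_
    have : P (k * T + h) ↔ P h := by
      rw [show k * T + h = h + T * k by ring]
      exact hper k h
    simp only [this]
  have h2 : ((range r).filter P).card ≤ f := by
    rw [← hf]
    exact Finset.card_le_card (Finset.filter_subset_filter _
      (Finset.range_subset_range.2 hr.le))
  have hT' : (0 : ℝ) < T := by exact_mod_cast hT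
  have h3 : (N : ℝ) * f / T = k * f + r * f / T := by
    rw [hN]
    push_cast
    field_simp
  have h4 : (r : ℝ) * f / T ≤ f := by
    rw [div_le_iff₀ hT']
    have : (r : ℝ) ≤ T := by exact_mod_cast hr.le
    have hf0 : (0 : ℝ) ≤ f := Nat.cast_nonneg f
    nlinarith
  have h5 : (0 : ℝ) ≤ (r : ℝ) * f / T := by positivity
  have h6 : (((range r).filter P).card : ℝ) ≤ f := by exact_mod_cast h2
  have h7 : (0 : ℝ) ≤ (((range r).filter P).card : ℝ) := Nat.cast_nonneg _
  rw [h1, h3, abs_le]
  push_cast
  constructor <;> linarith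

/-- periodicity of the divisibility -/
lemma FF_periodic (q c A B : ℤ) (e T : ℕ) (he : e ∣ T) (hq : (q : ZMod e) ^ T = 1) (h : ℕ) :
    ((e : ℤ) ∣ FF q c A B (h + T)) ↔ ((e : ℤ) ∣ FF q c A B h) := by
  rw [← ZMod.intCast_zmod_eq_zero_iff_dvd, ← ZMod.intCast_zmod_eq_zero_iff_dvd]
  have hT : ((T : ℕ) : ZMod e) = 0 := (ZMod.natCast_eq_zero_iff T e).2 he
  unfold FF
  push_cast
  rw [pow_add, hq, hT]
  simp

/-- one prime: exactly one `j < p` -/
lemma one_prime (q c A B : ℤ) (p : ℕ) (hp : p.Prime) (hc : ¬ (p : ℤ) ∣ c)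
    (M : ℕ) (hM : ¬ p ∣ M) (hq : (q : ZMod p) ^ M = 1) (h : ℕ) :
    ((range p).filter (fun j => (p : ℤ) ∣ FF q c A B (h + M * j))).card = 1 := by
  have : Fact p.Prime := ⟨hp⟩
  have hc' : (c : ZMod p) ≠ 0 := by
    rw [Ne, ZMod.intCast_zmod_eq_zero_iff_dvd]
    exact hc
  have hM' : (M : ZMod p) ≠ 0 := by
    rw [Ne, ZMod.natCast_eq_zero_iff]
    exact hM
  have key : ∀ j : ℕ, ((p : ℤ) ∣ FF q c A B (h + M * j)) ↔
      ((j : ZMod p) = (FF q c A B h : ZMod p) * ((c : ZMod p) * M)⁻¹) := by
    intro j
    rw [← ZMod.intCast_zmod_eq_zero_iff_dvd]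
    have e1 : ((FF q c A B (h + M * j) : ℤ) : ZMod p) =
        (FF q c A B h : ZMod p) - (c : ZMod p) * M * j := by
      unfold FF
      push_cast
      rw [pow_add, pow_mul, hq, one_pow]
      ring
    rw [e1, sub_eq_zero, eq_comm, eq_mul_inv_iff_mul_eq₀ (mul_ne_zero hc' hM')]
    constructor
    · intro hh
      rw [← hh]
      ring
    · intro hh
      rw [← hh]
      ring
  rw [Finset.card_eq_one]
  refine ⟨((FF q c A B h : ZMod p) * ((c : ZMod p) * M)⁻¹).val, ?_⟩
  ext j
  rw [Finset.mem_filter, Finset.mem_range, key, Finset.mem_singleton]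
  constructor
  · rintro ⟨h1, h2⟩
    rw [← h2, ZMod.val_natCast, Nat.mod_eq_of_lt h1]
  · rintro rfl
    refine ⟨ZMod.val_lt _, ?_⟩
    rw [ZMod.natCast_zmod_val]

/-- **equidistribution** over a full period -/
theorem equi (q c A B : ℤ) (s : Finset ℕ)
    (hs : ∀ p ∈ s, p.Prime ∧ ¬ (p : ℤ) ∣ q ∧ ¬ (p : ℤ) ∣ c) :
    ((range ((∏ p ∈ s, p) * ∏ p ∈ s, (p - 1))).filter
      (fun h => ((∏ p ∈ s, p : ℕ) : ℤ) ∣ FF q c A B h)).card = ∏ p ∈ s, (p - 1) := by
  induction s using Finset.induction_on_max with
  | empty => simp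
  | insert p s hmax ih =>
    have hps : p ∉ s := fun h => lt_irrefl _ (hmax p h)
    have hs' : ∀ r ∈ s, r.Prime ∧ ¬ (r : ℤ) ∣ q ∧ ¬ (r : ℤ) ∣ c :=
      fun r hr => hs r (Finset.mem_insert_of_mem hr)
    obtain ⟨hp, hpq, hpc⟩ := hs p (Finset.mem_insert_self _ _)
    specialize ih hs'
    rw [Finset.prod_insert hps, Finset.prod_insert hps]
    set e := ∏ r ∈ s, r with he
    set f := ∏ r ∈ s, (r - 1) with hf
    set M := (p - 1) * (e * f) with hM
    have hcop : Nat.Coprime e p := by
      rw [he]
      refine Nat.Coprime.prod_left fun r hr => ?_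
      exact (Nat.coprime_primes (hs' r hr).1 hp).2 (ne_of_lt (hmax r hr))
    have hpe : ¬ p ∣ e := fun h => by
      have := Nat.dvd_gcd h (dvd_refl p)
      rw [hcop] at this
      exact hp.one_lt.ne' (Nat.dvd_one.1 this)
    have hpf : ¬ p ∣ f := by
      rw [hf, hp.prime.dvd_finsetProd_iff]
      rintro ⟨r, hr, hd⟩
      have h1 := (hs' r hr).1.two_le
      have h2 := hmax r hr
      have := Nat.le_of_dvd (by omega) hd
      omega
    have hpM : ¬ p ∣ M := by
      rw [hM, hp.dvd_mul, hp.dvd_mul]
      rintro (h | h | h)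
      · have := Nat.le_of_dvd (by have := hp.two_le; omega) h
        have := hp.two_le
        omega
      · exact hpe h
      · exact hpf h
    have : Fact p.Prime := ⟨hp⟩
    have hqp : (q : ZMod p) ^ M = 1 := by
      rw [hM, pow_mul, ZMod.pow_card_sub_one_eq_one, one_pow]
      rw [Ne, ZMod.intCast_zmod_eq_zero_iff_dvd]
      exact hpq
    -- period of the condition for `e`
    have hqe : (q : ZMod e) ^ f = 1 := by
      have hphi : f = Nat.totient e := by
        rw [he, hf]
        clear_value M e f
        clear * - hs'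
        induction s using Finset.induction_on with
        | empty => simp
        | insert r s hr ih =>
          have h1 := (hs' r (Finset.mem_insert_self _ _)).1
          have h2 : ∀ r ∈ s, r.Prime ∧ ¬ (r : ℤ) ∣ q ∧ ¬ (r : ℤ) ∣ c :=
            fun r hr => hs' r (Finset.mem_insert_of_mem hr)
          rw [Finset.prod_insert hr, Finset.prod_insert hr, Nat.totient_mul,
            Nat.totient_prime h1, ih h2]
          refine Nat.Coprime.prod_right fun t ht => ?_
          refine (Nat.coprime_primes h1 (h2 t ht).1).2 ?_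
          rintro rfl
          exact hr ht
      have hu : IsUnit (q : ZMod e) := by
        have h1 : IsCoprime q (e : ℤ) := by
          rw [he]
          push_cast
          refine IsCoprime.prod_right fun r hr => ?_
          refine IsCoprime.symm ?_
          exact (Prime.coprime_iff_not_dvd (Nat.prime_iff_prime_int.1 (hs' r hr).1)).2
            (hs' r hr).2.1
        exact (ZMod.coe_int_isUnit_iff_isCoprime q e).2 h1.symm
      obtain ⟨u, hu⟩ := hu
      rw [← hu, hphi, ← Units.val_pow_eq_pow_val, ZMod.pow_totient, Units.val_one]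
    have hT : ∀ h, ((e : ℤ) ∣ FF q c A B (h + e * f)) ↔ ((e : ℤ) ∣ FF q c A B h) := by
      intro h
      refine FF_periodic q c A B e (e * f) (Dvd.intro _ rfl) ?_ h
      rw [mul_comm, pow_mul, hqe, one_pow]
    have hTM : ∀ j h, ((e : ℤ) ∣ FF q c A B (h + M * j)) ↔ ((e : ℤ) ∣ FF q c A B h) := by
      intro j h
      refine FF_periodic q c A B e (M * j) ?_ ?_ h
      · exact Dvd.dvd.mul_right (Dvd.dvd.mul_left (Dvd.intro _ rfl) _) _
      · rw [hM, show (p - 1) * (e * f) * j = f * ((p - 1) * e * j) by ring, pow_mul, hqe, one_pow]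
    have hmul : ∀ z : ℤ, (((p * e : ℕ) : ℤ) ∣ z) ↔ ((p : ℤ) ∣ z ∧ (e : ℤ) ∣ z) := by
      intro z
      push_cast
      constructor
      · intro h
        exact ⟨(Dvd.intro _ rfl).trans h, (Dvd.intro_left _ rfl).trans h⟩
      · rintro ⟨h1, h2⟩
        exact IsCoprime.mul_dvd (Nat.isCoprime_iff_coprime.2 hcop.symm) h1 h2
    have hrange : p * e * ((p - 1) * f) = p * M := by
      rw [hM]
      ring
    rw [hrange, Finset.card_filter, sum_range_mul_split]
    have hinner : ∀ h ∈ range M,
        ∑ j ∈ range p, (if ((p * e : ℕ) : ℤ) ∣ FF q c A B (h + M * j) then 1 else 0) =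
          if (e : ℤ) ∣ FF q c A B h then 1 else 0 := by
      intro h _
      by_cases hh : (e : ℤ) ∣ FF q c A B h
      · rw [if_pos hh, ← Finset.card_filter]
        have hfil : (range p).filter (fun j => ((p * e : ℕ) : ℤ) ∣ FF q c A B (h + M * j)) =
            (range p).filter (fun j => (p : ℤ) ∣ FF q c A B (h + M * j)) := by
          refine Finset.filter_congr fun j _ => ?_
          rw [hmul]
          exact ⟨fun h' => h'.1, fun h' => ⟨h', (hTM j h).2 hh⟩⟩
        rw [hfil]
        exact one_prime q c A B p hp hpc M hpM hqp h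
      · rw [if_neg hh]
        refine Finset.sum_eq_zero fun j _ => ?_
        rw [if_neg]
        rw [hmul, hTM j h]
        exact fun h => hh h.2
    rw [Finset.sum_congr rfl hinner, ← Finset.card_filter, hM,
      periodic_mul (fun h => (e : ℤ) ∣ FF q c A B h) (e * f) hT (p - 1), ih]

end Pool.Agent.Lib.MP_9dc83d_nt
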