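import Pool.Agent.Lib.MP_9dc83d_nt.Seq
import Pool.Agent.Lib.MP_9dc83d_nt.Equi
import Pool.Agent.Lib.MP_dde2f1_nt.SieveLib

/-!
# Divisibility counts in a block and the Selberg sieve
-/

set_option autoImplicit false

open Finset
open Pool.Agent.Lib.MP_dde2f1_nt.Sieve

namespace Pool.Agent.Lib.MP_9dc83d_nt

/-- the block of the integers with `d + 1` digits in base `b` -/
def blk (b d : ℕ) : Finset ℕ := Finset.Ico (b ^ d) (b ^ (d + 1))

/-- the excluded modulus of the block -/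
def kk (b d : ℕ) : ℕ := b ^ (d + 1) * (b ^ (d + 1) - 1)

lemma kk_pos (b d : ℕ) (hb : 2 ≤ b) : 0 < kk b d := by
  unfold kk
  have h1 : 2 ^ 1 ≤ b ^ (d + 1) :=
    (Nat.pow_le_pow_left hb 1).trans (Nat.pow_le_pow_right (by omega) (by omega))
  exact Nat.mul_pos (by omega) (by omega)

lemma blk_size (b d : ℕ) (hb : 2 ≤ b) : b ^ (d + 1) - b ^ d = (b - 1) * b ^ d := by
  obtain ⟨c, rfl⟩ : ∃ c, b = c + 1 := ⟨b - 1, by omega⟩
  rw [pow_succ]
  simp only [Nat.add_sub_cancel]
  have : (c + 1) ^ d * (c + 1) = c * (c + 1) ^ d + (c + 1) ^ d := by ring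
  omega

lemma card_blk_filter (b d : ℕ) (hb : 2 ≤ b) (P : ℕ → Prop) [DecidablePred P] :
    ((blk b d).filter P).card =
      ((range ((b - 1) * b ^ d)).filter (fun h => P (b ^ d + h))).card := by
  unfold blk
  rw [Finset.card_filter, Finset.card_filter, Finset.sum_Ico_eq_sum_range, blk_size b d hb]

lemma card_blk (b d : ℕ) (hb : 2 ≤ b) : (blk b d).card = (b - 1) * b ^ d := by
  unfold blk
  rw [Nat.card_Ico, blk_size b d hb]

/-- divisibility in the block in terms of the closed form -/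
lemma dvd_iff (b d : ℕ) (hb : 2 ≤ b) (e : ℕ) (he : e.Coprime (kk b d)) (h : ℕ)
    (hh : h < (b - 1) * b ^ d) :
    (e ∣ conc b (b ^ d + h)) ↔
      (e : ℤ) ∣ FF ((b : ℤ) ^ (d + 1)) ((b : ℤ) ^ (d + 1) - 1)
        ((((b : ℤ) ^ (d + 1) - 1) ^ 2 * (conc b (b ^ d - 1) : ℤ) +
        ((b : ℤ) ^ (d + 1) - 1) * ((b : ℤ) ^ d - 1) + (b : ℤ) ^ (d + 1)) * (b : ℤ) ^ (d + 1))
        ((((b : ℤ) ^ (d + 1) - 1) * ((b : ℤ) ^ d - 1) + (b : ℤ) ^ (d + 1)) +
          ((b : ℤ) ^ (d + 1) - 1)) h := by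
  have hbd : 1 ≤ b ^ d := Nat.one_le_pow _ _ (by omega)
  have hq1 : 1 ≤ b ^ (d + 1) := Nat.one_le_pow _ _ (by omega)
  have hc := closed b d hb (h + 1) (by omega)
  have e1 : b ^ d - 1 + (h + 1) = b ^ d + h := by omega
  rw [e1] at hc
  have hcop : IsCoprime (e : ℤ) (((b : ℤ) ^ (d + 1) - 1) ^ 2) := by
    have h1 : e.Coprime (b ^ (d + 1) - 1) := Nat.Coprime.coprime_dvd_right
      (Dvd.intro_left _ rfl) he
    have h2 : IsCoprime (e : ℤ) ((b ^ (d + 1) - 1 : ℕ) : ℤ) := Nat.isCoprime_iff_coprime.2 h1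
    rw [Nat.cast_sub hq1] at h2
    push_cast at h2
    exact h2.pow_right
  have h3 : (e ∣ conc b (b ^ d + h)) ↔
      (e : ℤ) ∣ (((b : ℤ) ^ (d + 1) - 1) ^ 2) * (conc b (b ^ d + h) : ℤ) := by
    rw [← Int.natCast_dvd_natCast]
    constructor
    · intro h
      exact Dvd.dvd.mul_left h _
    · intro h
      exact hcop.dvd_of_dvd_mul_left h
  rw [h3, hc]
  unfold FF
  have : ∀ x y : ℤ, x = y → ((e : ℤ) ∣ x ↔ (e : ℤ) ∣ y) := fun x y h => by rw [h]
  apply this
  push_cast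
  ring

/-- the count of the multiples of `e` in a block -/
lemma count_dvd (b d : ℕ) (hb : 2 ≤ b) (e : ℕ) (hsq : Squarefree e) (he : e.Coprime (kk b d)) :
    |(((blk b d).filter (fun n => e ∣ conc b n)).card : ℝ) -
      (((b - 1) * b ^ d : ℕ) : ℝ) / e| ≤ e := by
  rw [card_blk_filter b d hb]
  have hfil : (range ((b - 1) * b ^ d)).filter (fun h => e ∣ conc b (b ^ d + h)) =
      (range ((b - 1) * b ^ d)).filter (fun h =>
      (e : ℤ) ∣ FF ((b : ℤ) ^ (d + 1)) ((b : ℤ) ^ (d + 1) - 1)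
        ((((b : ℤ) ^ (d + 1) - 1) ^ 2 * (conc b (b ^ d - 1) : ℤ) +
        ((b : ℤ) ^ (d + 1) - 1) * ((b : ℤ) ^ d - 1) + (b : ℤ) ^ (d + 1)) * (b : ℤ) ^ (d + 1))
        ((((b : ℤ) ^ (d + 1) - 1) * ((b : ℤ) ^ d - 1) + (b : ℤ) ^ (d + 1)) +
          ((b : ℤ) ^ (d + 1) - 1)) h) :=
    Finset.filter_congr fun h hh => dvd_iff b d hb e he h (Finset.mem_range.1 hh)
  rw [hfil]
  generalize (((b : ℤ) ^ (d + 1) - 1) ^ 2 * (conc b (b ^ d - 1) : ℤ) +
        ((b : ℤ) ^ (d + 1) - 1) * ((b : ℤ) ^ d - 1) + (b : ℤ) ^ (d + 1)) *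
        (b : ℤ) ^ (d + 1) = A
  generalize (((b : ℤ) ^ (d + 1) - 1) * ((b : ℤ) ^ d - 1) + (b : ℤ) ^ (d + 1)) +
          ((b : ℤ) ^ (d + 1) - 1) = B
  have hq1 : 1 ≤ b ^ (d + 1) := Nat.one_le_pow _ _ (by omega)
  set s := e.primeFactors with hs
  have hse : ∏ p ∈ s, p = e := Nat.prod_primeFactors_of_squarefree hsq
  have hprimes : ∀ p ∈ s, p.Prime ∧ ¬ (p : ℤ) ∣ (b : ℤ) ^ (d + 1) ∧
      ¬ (p : ℤ) ∣ (b : ℤ) ^ (d + 1) - 1 := by
    intro p hp
    have hpp := Nat.prime_of_mem_primeFactors hp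
    have hpe := Nat.dvd_of_mem_primeFactors hp
    have hcop : p.Coprime (kk b d) := Nat.Coprime.coprime_dvd_left hpe he
    have hnot : ∀ t, t ∣ kk b d → ¬ p ∣ t := by
      intro t ht hpt
      have := Nat.dvd_gcd (dvd_refl p) (hpt.trans ht)
      rw [hcop] at this
      exact hpp.one_lt.ne' (Nat.dvd_one.1 this)
    refine ⟨hpp, ?_, ?_⟩
    · intro h
      apply hnot (b ^ (d + 1)) (Dvd.intro _ rfl)
      exact_mod_cast h
    · intro h
      apply hnot (b ^ (d + 1) - 1) (Dvd.intro_left _ rfl)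
      rw [← Int.natCast_dvd_natCast, Nat.cast_sub hq1]
      push_cast
      exact h
  set f := ∏ p ∈ s, (p - 1) with hf
  have hfpos : 0 < f := Finset.prod_pos fun p hp => by
    have := (hprimes p hp).1.two_le
    omega
  have he0 : 0 < e := Nat.pos_of_ne_zero hsq.ne_zero
  have hfe : f ≤ e := by
    rw [← hse]
    exact Finset.prod_le_prod' fun p _ => Nat.sub_le _ _
  have heq := equi ((b : ℤ) ^ (d + 1)) ((b : ℤ) ^ (d + 1) - 1) A B s hprimes
  rw [hse, ← hf] at heq
  have hu : IsUnit (((b : ℤ) ^ (d + 1) : ℤ) : ZMod e) := by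
    rw [ZMod.coe_int_isUnit_iff_isCoprime]
    have h1 : e.Coprime (b ^ (d + 1)) := Nat.Coprime.coprime_dvd_right (Dvd.intro _ rfl) he
    have h2 := Nat.isCoprime_iff_coprime.2 h1
    push_cast at h2
    exact h2
  have hphi : f = Nat.totient e := by
    rw [Nat.totient_eq_prod_factorization he0.ne', Nat.prod_factorization_eq_prod_primeFactors, hf]
    refine Finset.prod_congr rfl fun p hp => ?_
    have h1 : e.factorization p = 1 := by
      have h2 := (Nat.squarefree_iff_factorization_le_one he0.ne').1 hsq p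
      have h3 : 0 < e.factorization p :=
        (Nat.prime_of_mem_primeFactors hp).factorization_pos_of_dvd he0.ne'
          (Nat.dvd_of_mem_primeFactors hp)
      omega
    rw [h1]
    simp
  have hper : ∀ h, ((e : ℤ) ∣ FF ((b : ℤ) ^ (d + 1)) ((b : ℤ) ^ (d + 1) - 1) A B (h + e * f)) ↔
      ((e : ℤ) ∣ FF ((b : ℤ) ^ (d + 1)) ((b : ℤ) ^ (d + 1) - 1) A B h) := by
    intro h
    refine FF_periodic _ _ A B e (e * f) (Dvd.intro _ rfl) ?_ h
    obtain ⟨u, hu⟩ := hu
    rw [← hu, hphi, mul_comm e, pow_mul, ← Units.val_pow_eq_pow_val, ZMod.pow_totient,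
      Units.val_one, one_pow]
  have hcount := periodic_count
    (fun h => (e : ℤ) ∣ FF ((b : ℤ) ^ (d + 1)) ((b : ℤ) ^ (d + 1) - 1) A B h)
    (e * f) f (Nat.mul_pos he0 hfpos) hper heq ((b - 1) * b ^ d)
  have hf' : (0 : ℝ) < f := by exact_mod_cast hfpos
  have he' : (0 : ℝ) < e := by exact_mod_cast he0
  have e1 : ((((b - 1) * b ^ d : ℕ) : ℝ)) * f / ((e * f : ℕ) : ℝ) =
      (((b - 1) * b ^ d : ℕ) : ℝ) / e := by
    push_cast
    field_simp
  rw [e1] at hcount
  exact hcount.trans (by exact_mod_cast hfe)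

/-! ### The sieve -/

/-- the sieve of the values of the concatenation in a block -/
noncomputable def cSieve (b d z : ℕ) : BoundingSieve where
  support := (blk b d).image (conc b)
  prodPrimes := PP (kk b d) z
  prodPrimes_squarefree := PP_squarefree (kk b d) z
  weights := fun _ => 1
  weights_nonneg := fun _ => zero_le_one
  totalMass := (((b - 1) * b ^ d : ℕ) : ℝ)
  nu := inu
  nu_mult := inu_mult
  nu_pos_of_prime := by
    intro p hp _
    rw [inu_apply]
    have : (0 : ℝ) < p := by exact_mod_cast hp.pos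
    positivity
  nu_lt_one_of_prime := by
    intro p hp _
    rw [inu_apply]
    have : (1 : ℝ) < p := by exact_mod_cast hp.one_lt
    exact inv_lt_one_of_one_lt₀ this

lemma c_rem (b d z e : ℕ) (hb : 2 ≤ b) (he : e ∣ PP (kk b d) z) :
    |(cSieve b d z).rem e| ≤ e := by
  have hsq : Squarefree e := Squarefree.squarefree_of_dvd he (PP_squarefree _ z)
  have hcop : e.Coprime (kk b d) := coprime_of_dvd_PP _ z e he
  have hrem : (cSieve b d z).rem e =
      (∑ n ∈ (blk b d).image (conc b), if e ∣ n then (1 : ℝ) else 0) -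
        (e : ℝ)⁻¹ * (((b - 1) * b ^ d : ℕ) : ℝ) := rfl
  have hinj : Set.InjOn (conc b) (blk b d : Set ℕ) := (conc_strictMono b hb).injective.injOn
  rw [hrem, Finset.sum_image (fun x hx y hy h => hinj hx hy h), ← Finset.sum_filter,
    Finset.sum_const, nsmul_eq_mul, mul_one]
  have h := count_dvd b d hb e hsq hcop
  have h2 : (e : ℝ)⁻¹ * (((b - 1) * b ^ d : ℕ) : ℝ) = (((b - 1) * b ^ d : ℕ) : ℝ) / e := by
    rw [div_eq_mul_inv, mul_comm]
  rw [h2]
  exact h

lemma c_selberg (b d z e : ℕ) (he : e ∣ PP (kk b d) z) :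
    (cSieve b d z).selbergTerms e = iphi e := by
  have hsq : Squarefree e := Squarefree.squarefree_of_dvd he (PP_squarefree _ z)
  rw [BoundingSieve.selbergTerms_apply]
  show inu e * ∏ p ∈ e.primeFactors, (1 - inu p)⁻¹ = iphi e
  rw [← inu_mult.prod_primeFactors hsq, ← iphi_mult.prod_primeFactors hsq,
    ← Finset.prod_mul_distrib]
  apply Finset.prod_congr rfl
  intro p hp
  have hpp := Nat.prime_of_mem_primeFactors hp
  rw [iphi_prime p hpp, inu_apply]
  have : (1 : ℝ) < p := by exact_mod_cast hpp.one_lt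
  have h2 : (p : ℝ) - 1 ≠ 0 := by linarith
  field_simp

/-- **the block bound** -/
theorem block_bound (b d y : ℕ) (hb : 2 ≤ b) (hy : 1 ≤ y) :
    (((blk b d).filter (fun n => Nat.Coprime (PP (kk b d) y) (conc b n))).card : ℝ) ≤
      (((b - 1) * b ^ d : ℕ) : ℝ) * ((kk b d : ℝ) / (kk b d).totient) /
        Real.log ((y : ℝ) + 1) + (y : ℝ) ^ 4 := by
  classical
  set s := cSieve b d y with hs
  have hmain := selberg s y hy
  have hlog : 0 < Real.log ((y : ℝ) + 1) := by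
    apply Real.log_pos
    have : (1 : ℝ) ≤ y := by exact_mod_cast hy
    linarith
  have hk := kk_pos b d hb
  have hq' : (0 : ℝ) < kk b d := by exact_mod_cast hk
  have ht : (0 : ℝ) < (kk b d).totient := by exact_mod_cast Nat.totient_pos.2 hk
  have hSS : (((kk b d).totient : ℝ) / kk b d) * Real.log ((y : ℝ) + 1) ≤ SS s y := by
    refine (linear_lower (kk b d) y y hk le_rfl).trans ?_
    unfold SS
    apply le_of_eq
    apply Finset.sum_congr rfl
    intro e he
    rw [Finset.mem_filter] at he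
    exact (c_selberg b d y e (Nat.dvd_of_mem_divisors he.1)).symm
  have hSSpos : 0 < (((kk b d).totient : ℝ) / kk b d) * Real.log ((y : ℝ) + 1) := by positivity
  have hM : s.totalMass * (SS s y)⁻¹ ≤
      (((b - 1) * b ^ d : ℕ) : ℝ) * ((kk b d : ℝ) / (kk b d).totient) /
        Real.log ((y : ℝ) + 1) := by
    have h1 : (SS s y)⁻¹ ≤ ((((kk b d).totient : ℝ) / kk b d) * Real.log ((y : ℝ) + 1))⁻¹ :=
      inv_anti₀ hSSpos hSS
    have h2 : s.totalMass = (((b - 1) * b ^ d : ℕ) : ℝ) := rfl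
    rw [h2]
    calc (((b - 1) * b ^ d : ℕ) : ℝ) * (SS s y)⁻¹ ≤
        (((b - 1) * b ^ d : ℕ) : ℝ) *
          ((((kk b d).totient : ℝ) / kk b d) * Real.log ((y : ℝ) + 1))⁻¹ := by gcongr
      _ = (((b - 1) * b ^ d : ℕ) : ℝ) * ((kk b d : ℝ) / (kk b d).totient) /
        Real.log ((y : ℝ) + 1) := by field_simp
  have hE : ∑ d₁ ∈ (s.prodPrimes.divisors).filter (· ≤ y),
      ∑ d₂ ∈ (s.prodPrimes.divisors).filter (· ≤ y), |s.rem (Nat.lcm d₁ d₂)| ≤ (y : ℝ) ^ 4 := by
    have hcard : (((s.prodPrimes.divisors).filter (· ≤ y)).card : ℝ) ≤ y := by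
      have : ((s.prodPrimes.divisors).filter (· ≤ y)).card ≤ (Finset.Icc 1 y).card := by
        apply Finset.card_le_card
        intro d hd
        rw [Finset.mem_filter] at hd
        rw [Finset.mem_Icc]
        exact ⟨Nat.pos_of_mem_divisors hd.1, hd.2⟩
      rw [Nat.card_Icc, Nat.add_sub_cancel] at this
      exact_mod_cast this
    calc ∑ d₁ ∈ (s.prodPrimes.divisors).filter (· ≤ y),
        ∑ d₂ ∈ (s.prodPrimes.divisors).filter (· ≤ y), |s.rem (Nat.lcm d₁ d₂)|
        ≤ ∑ d₁ ∈ (s.prodPrimes.divisors).filter (· ≤ y),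
        ∑ d₂ ∈ (s.prodPrimes.divisors).filter (· ≤ y), ((y : ℝ) * y) := by
          apply Finset.sum_le_sum
          intro d₁ h1
          apply Finset.sum_le_sum
          intro d₂ h2
          rw [Finset.mem_filter] at h1 h2
          have h3 := c_rem b d y _ hb (Nat.lcm_dvd (Nat.dvd_of_mem_divisors h1.1)
            (Nat.dvd_of_mem_divisors h2.1))
          refine h3.trans ?_
          have h4 : Nat.lcm d₁ d₂ ≤ y * y := by
            have h5 : Nat.lcm d₁ d₂ ≤ d₁ * d₂ :=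
              Nat.le_of_dvd (Nat.mul_pos (Nat.pos_of_mem_divisors h1.1)
                (Nat.pos_of_mem_divisors h2.1)) (Nat.lcm_dvd_mul _ _)
            exact h5.trans (Nat.mul_le_mul h1.2 h2.2)
          exact_mod_cast h4
      _ = (((s.prodPrimes.divisors).filter (· ≤ y)).card : ℝ) *
          (((s.prodPrimes.divisors).filter (· ≤ y)).card : ℝ) * ((y : ℝ) * y) := by
          rw [Finset.sum_const, Finset.sum_const]
          simp only [nsmul_eq_mul]
          ring
      _ ≤ (y : ℝ) * y * ((y : ℝ) * y) := by gcongr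
      _ = (y : ℝ) ^ 4 := by ring
  have hsift : (((blk b d).filter (fun n => Nat.Coprime (PP (kk b d) y) (conc b n))).card : ℝ) =
      s.siftedSum := by
    unfold BoundingSieve.siftedSum
    show _ = ∑ n ∈ (blk b d).image (conc b),
      (if Nat.Coprime (PP (kk b d) y) n then (1 : ℝ) else 0)
    have hinj : Set.InjOn (conc b) (blk b d : Set ℕ) := (conc_strictMono b hb).injective.injOn
    rw [Finset.sum_image (fun x hx y hy h => hinj hx hy h), ← Finset.sum_filter,
      Finset.sum_const, nsmul_eq_mul, mul_one]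
  rw [hsift]
  linarith

end Pool.Agent.Lib.MP_9dc83d_nt
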