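import Pool.Agent.Lib.MP_9dc83d_nt.Vbounds

/-!
# Counting rough terms of the concatenation sequence
-/

set_option autoImplicit false

open Finset

namespace Pool.Concat

/-- the concatenation of the base-`b` representations of `1, ..., n` -/
def cc (b n : ℕ) : ℕ :=
  (List.range' 1 n).foldl (fun acc k => acc * b ^ (Nat.digits b k).length + k) 0

theorem cc_zero (b : ℕ) : cc b 0 = 0 := rfl

theorem cc_succ (b n : ℕ) : cc b (n + 1) = cc b n * b ^ (Nat.digits b (n + 1)).length + (n + 1) := by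
  unfold cc
  rw [List.range'_1_concat, List.foldl_append]
  simp only [List.foldl_cons, List.foldl_nil]
  rw [add_comm 1 n]

theorem le_cc (b n : ℕ) : n ≤ cc b n := by
  rcases n with _ | n
  · exact Nat.zero_le _
  · rw [cc_succ]
    exact Nat.le_add_left _ _

theorem digits_len_block (b D n : ℕ) (hb : 2 ≤ b) (h1 : b ^ D ≤ n) (h2 : n < b ^ (D + 1)) :
    (Nat.digits b n).length = D + 1 := by
  have hn : n ≠ 0 := by
    have : 0 < b ^ D := Nat.pos_of_ne_zero (pow_ne_zero _ (by omega))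
    omega
  rw [Nat.length_digits b n (by omega) hn, Nat.log_eq_of_pow_le_of_lt_pow h1 h2]

theorem cc_block (b D : ℕ) (hb : 2 ≤ b) (t : ℕ) (ht : t ≤ b ^ (D + 1) - b ^ D) :
    cc b (b ^ D - 1 + t) = ext (b ^ (D + 1)) (cc b (b ^ D - 1)) (b ^ D - 1) t := by
  induction t with
  | zero => rfl
  | succ t ih =>
    have hpos : 0 < b ^ D := Nat.pos_of_ne_zero (pow_ne_zero _ (by omega))
    have e1 : b ^ D - 1 + (t + 1) = (b ^ D - 1 + t) + 1 := rfl
    rw [e1, cc_succ, ih (by omega), digits_len_block b D _ hb (by omega) (by omega)]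
    simp only [ext]
    ring

/-- the sieving weight of the `n`-th term -/
noncomputable def fw (b T n : ℕ) : ℝ := VV (PA T) (ind (fun p n => p ∣ cc b n) n)

theorem fw_nonneg (b T n : ℕ) : 0 ≤ fw b T n := VV_nonneg _ _ fun _ _ => ind_le_one _ _ _

theorem fw_block (b D T : ℕ) (hb : 2 ≤ b) (t : ℕ) (ht : t < b ^ (D + 1) - b ^ D) :
    fw b T (b ^ D - 1 + t + 1) =
      VV (PA T) (ind (AA (b ^ (D + 1)) (cc b (b ^ D - 1)) (b ^ D - 1)) t) := by
  unfold fw VV
  refine Finset.prod_congr rfl fun p _ => ?_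
  congr 1
  unfold ind AA
  have h1 := cc_block b D hb (t + 1) (by omega)
  have e1 : b ^ D - 1 + t + 1 = b ^ D - 1 + (t + 1) := rfl
  rw [e1]
  beta_reduce
  rw [h1]

theorem sum_bounds (b T D₀ : ℕ) (hb : 2 ≤ b) (L U : ℝ)
    (hLU : ∀ D, D + 1 ≤ D₀ → ∀ s c, L ≤ VV (PA T) (gg (b ^ (D + 1) - 1) s c) ∧
      VV (PA T) (gg (b ^ (D + 1) - 1) s c) ≤ U) :
    ∀ D, D ≤ D₀ → ∀ N, N < b ^ D →
      (1 / 2) * (N : ℝ) * L - (D : ℝ) * (Z T : ℝ) ^ 205 ≤ ∑ n ∈ range N, fw b T (n + 1) ∧
      ∑ n ∈ range N, fw b T (n + 1) ≤ 2 * (N : ℝ) * U + (D : ℝ) * (Z T : ℝ) ^ 205 := by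
  intro D
  induction D with
  | zero =>
    intro _ N hN
    have : N = 0 := by simpa using hN
    subst this
    simp
  | succ D ih =>
    intro hD N hN
    have ih' := ih (by omega)
    have hZ : (0 : ℝ) ≤ (Z T : ℝ) ^ 205 := by positivity
    push_cast
    rcases Nat.lt_or_ge N (b ^ D) with h | h
    · obtain ⟨h1, h2⟩ := ih' N h
      constructor <;> linarith
    · have hpos : 0 < b ^ D := Nat.pos_of_ne_zero (pow_ne_zero _ (by omega))
      obtain ⟨h1, h2⟩ := ih' (b ^ D - 1) (by omega)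
      set c := b ^ D - 1 with hc
      set H := N - c with hH
      have hN' : N = c + H := by omega
      have hρ : b ^ (D + 1) - 1 + 1 = b ^ (D + 1) := by
        have : 0 < b ^ (D + 1) := Nat.pos_of_ne_zero (pow_ne_zero _ (by omega))
        omega
      obtain ⟨h3, h4⟩ := block_sieve (b ^ (D + 1) - 1) (cc b c) c T H
      rw [hρ] at h3 h4
      obtain ⟨h5, h6⟩ := hLU D hD (cc b c) c
      have h7 : ∑ t ∈ range H, VV (PA T) (ind (AA (b ^ (D + 1)) (cc b c) c) t) =
          ∑ t ∈ range H, fw b T (c + t + 1) := by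
        refine Finset.sum_congr rfl fun t ht => ?_
        rw [Finset.mem_range] at ht
        exact (fw_block b D T hb t (by omega)).symm
      rw [h7] at h3 h4
      have h8 : ∑ n ∈ range N, fw b T (n + 1) =
          ∑ n ∈ range c, fw b T (n + 1) + ∑ t ∈ range H, fw b T (c + t + 1) := by
        rw [hN', Finset.sum_range_add]
      have h9 : (N : ℝ) = c + H := by
        rw [hN']
        push_cast
        ring
      rw [h8, h9]
      have hH0 : (0 : ℝ) ≤ H := Nat.cast_nonneg H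
      have h10 := mul_le_mul_of_nonneg_left h5 hH0
      have h11 := mul_le_mul_of_nonneg_left h6 hH0
      constructor
      · linarith
      · linarith

/-- the bounds with explicit sieve products -/
theorem count_bounds (b : ℕ) (hb : 2 ≤ b) : ∃ κ : ℝ, 0 < κ ∧ ∀ T N D : ℕ, 1 ≤ D → N < b ^ D →
    κ * N / (Real.log (Z T) * Real.log ((b * D : ℕ) : ℝ)) - (D : ℝ) * (Z T : ℝ) ^ 205 ≤
      ∑ n ∈ range N, fw b T (n + 1) ∧
    ∑ n ∈ range N, fw b T (n + 1) ≤
      N * Real.log ((b * D : ℕ) : ℝ) / (κ * Real.log (Z T)) + (D : ℝ) * (Z T : ℝ) ^ 205 := by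
  obtain ⟨c, hc, hc1, hM⟩ := Mert.prod_lower
  refine ⟨c ^ 2 * Real.exp (-3) / 4, by positivity, ?_⟩
  intro T N D hD hN
  set y := b * D with hy
  have hy2 : 2 ≤ y := by nlinarith
  have hyR : (2 : ℝ) ≤ (y : ℝ) := by exact_mod_cast hy2
  have hlogy : 0 < Real.log (y : ℝ) := Real.log_pos (by linarith)
  have hZR : (2 : ℝ) ≤ Z T := by exact_mod_cast two_le_Z T
  have hlogZ : 0 < Real.log (Z T) := Real.log_pos (by linarith)
  have hE := Real.exp_pos (-3)
  have hρ : ∀ D', D' + 1 ≤ D → 0 < b ^ (D' + 1) - 1 ∧ b ^ (D' + 1) - 1 < 2 ^ y := by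
    intro D' hD'
    have h1 : b ^ 1 ≤ b ^ (D' + 1) := Nat.pow_le_pow_right (by omega) (by omega)
    have h2 : b ^ (D' + 1) ≤ b ^ D := Nat.pow_le_pow_right (by omega) hD'
    have h3 : b ^ D ≤ (2 ^ b) ^ D := Nat.pow_le_pow_left (Nat.lt_two_pow_self).le D
    rw [← pow_mul, ← hy] at h3
    rw [pow_one] at h1
    constructor <;> omega
  have hE1 : Real.exp (-3) ≤ 1 := by
    rw [Real.exp_le_one_iff]
    norm_num
  have h := sum_bounds b T D hb (c ^ 2 * Real.exp (-3) / (2 * Real.log (Z T) * Real.log y))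
    (Real.log y / (c * Real.exp (-3) * Real.log (Z T)))
    (fun D' hD' s c' => ⟨V_lower c hM hc _ s c' y T (hρ D' hD').1 (hρ D' hD').2 hy2,
      V_upper c hM hc _ s c' y T (hρ D' hD').1 (hρ D' hD').2 hy2⟩) D le_rfl N hN
  have hN0 : (0 : ℝ) ≤ N := Nat.cast_nonneg N
  constructor
  · refine le_trans (le_of_eq ?_) h.1
    congr 1
    field_simp
    ring
  · refine h.2.trans ?_
    have h1 : 2 * (N : ℝ) * (Real.log y / (c * Real.exp (-3) * Real.log (Z T))) ≤
        N * Real.log y / (c ^ 2 * Real.exp (-3) / 4 * Real.log (Z T)) := by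
      have h2 : 2 * (N : ℝ) * (Real.log y / (c * Real.exp (-3) * Real.log (Z T))) =
          (N * Real.log y) / (c * Real.exp (-3) * Real.log (Z T) / 2) := by
        field_simp
      rw [h2]
      apply div_le_div_of_nonneg_left (by positivity) (by positivity)
      have h3 : c ^ 2 ≤ c := by nlinarith
      have h4 : c ^ 2 * (Real.exp (-3) * Real.log (Z T)) ≤ c * (Real.exp (-3) * Real.log (Z T)) :=
        mul_le_mul_of_nonneg_right h3 (by positivity)
      have h5 : 0 ≤ c * (Real.exp (-3) * Real.log (Z T)) := by positivity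
      linarith
    linarith

end Pool.Concat
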