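import Pool.Agent.Lib.MP_9dc83d_nt.Count

/-!
# Choice of the sieving level
-/

set_option autoImplicit false

open Finset

namespace Pool.Concat

open Classical in
theorem sum_fw (b T N : ℕ) : ∑ n ∈ range N, fw b T (n + 1) =
    (((Icc 1 N).filter (fun n => ∀ p ∈ PA T, ¬ p ∣ cc b n)).card : ℝ) := by
  have h1 : ∑ n ∈ range N, fw b T (n + 1) = ∑ n ∈ Icc 1 N, fw b T n := by
    rw [Finset.range_eq_Ico, Finset.sum_Ico_add' (fun n => fw b T n) 0 N 1]
    rfl
  rw [h1, Finset.card_filter, Nat.cast_sum]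
  refine Finset.sum_congr rfl fun n _ => ?_
  unfold fw
  rw [VV_ind]
  push_cast
  split_ifs <;> rfl

theorem Z_succ (T : ℕ) : Z (T + 1) = Z T ^ 2 := by
  unfold Z
  rw [← pow_mul]
  congr 1

theorem log_Z_pos (T : ℕ) : 0 < Real.log (Z T) := by
  have hZR : (2 : ℝ) ≤ Z T := by exact_mod_cast two_le_Z T
  exact Real.log_pos (by linarith)

theorem large_cond (K : ℝ) (M : ℕ) : ∃ N₀ : ℕ, ∀ N : ℕ, N₀ ≤ N → M ≤ N ∧ 1 ≤ Real.log (Real.log N) ∧
    K * Real.log N ^ 3 ≤ Real.sqrt N := by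
  have h1 := (isLittleO_log_rpow_rpow_atTop 3 (by norm_num : (0 : ℝ) < 1 / 2)).bound
    (by positivity : (0 : ℝ) < 1 / (|K| + 1))
  have h2 := (Real.tendsto_log_atTop.comp Real.tendsto_log_atTop).eventually_ge_atTop 1
  have h3 := (h1.and h2).and (Filter.eventually_ge_atTop (3 : ℝ))
  rw [Filter.eventually_atTop] at h3
  obtain ⟨x₀, hx₀⟩ := h3
  refine ⟨max ⌈x₀⌉₊ M, fun N hN => ⟨(le_max_right _ _).trans hN, ?_⟩⟩
  have hNx : x₀ ≤ N := (Nat.le_ceil x₀).trans (by exact_mod_cast (le_max_left _ _).trans hN)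
  obtain ⟨⟨h4, h5⟩, h6⟩ := hx₀ N hNx
  refine ⟨h5, ?_⟩
  have hL : 0 ≤ Real.log N := Real.log_nonneg (by linarith)
  have e3 : Real.log N ^ (3 : ℝ) = Real.log N ^ 3 := by
    rw [← Real.rpow_natCast]
    norm_num
  rw [e3, Real.norm_of_nonneg (by positivity), Real.norm_of_nonneg (by positivity),
    ← Real.sqrt_eq_rpow] at h4
  have hK : 0 < |K| + 1 := by positivity
  rw [div_mul_eq_mul_div, one_mul, le_div_iff₀ hK] at h4
  have h7 : K * Real.log N ^ 3 ≤ Real.log N ^ 3 * (|K| + 1) := by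
    rw [mul_comm]
    refine mul_le_mul_of_nonneg_left ?_ (by positivity)
    have := le_abs_self K
    linarith
  linarith

open Classical in
theorem main (b : ℕ) (hb : 2 ≤ b) : ∃ c C : ℝ, 0 < c ∧ 0 < C ∧ ∃ N₀ : ℕ, ∀ N : ℕ, N₀ ≤ N →
    c * N / (Real.log N * Real.log (Real.log N)) ≤
      (((Icc 1 N).filter (fun n => ∀ p : ℕ, p.Prime → p ∣ cc b n → N < p ^ 820)).card : ℝ) ∧
    (((Icc 1 N).filter (fun n => ∀ p : ℕ, p.Prime → p ∣ cc b n → N < p ^ 820)).card : ℝ) ≤
      C * N * Real.log (Real.log N) / Real.log N ∧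
    (((Icc 1 N).filter (fun n => (cc b n).Prime)).card : ℝ) ≤
      C * N * Real.log (Real.log N) / Real.log N := by
  obtain ⟨κ, hκ, hcount⟩ := count_bounds b hb
  set B : ℝ := Real.log (3 * b) + 1 with hB
  have hbR : (2 : ℝ) ≤ b := by exact_mod_cast hb
  have hB1 : 1 ≤ B := by
    have := Real.log_nonneg (show (1 : ℝ) ≤ 3 * b by linarith)
    linarith
  obtain ⟨N₀, hN₀⟩ := large_cond (6 * B / κ + 3) (Z 1 ^ 410)
  refine ⟨κ / (2 * B), 1640 * B / κ + 2, by positivity, by positivity, N₀, fun N hN => ?_⟩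
  obtain ⟨hNZ, hll, hbig⟩ := hN₀ N hN
  set ℓ := Real.log N with hℓ
  set m := Real.log ℓ with hm
  have hZ1 : 2 ≤ Z 1 := two_le_Z 1
  have hN2 : 2 ≤ N := by
    have : 2 ^ 1 ≤ Z 1 ^ 410 := (Nat.pow_le_pow_left hZ1 1).trans
      (Nat.pow_le_pow_right (by omega) (by norm_num))
    omega
  have hNR : (2 : ℝ) ≤ N := by exact_mod_cast hN2
  have hN0 : (0 : ℝ) < N := by linarith
  have hℓ0 : 0 < ℓ := Real.log_pos (by linarith)
  have hmℓ : m ≤ ℓ - 1 := Real.log_le_sub_one_of_pos hℓ0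
  have hℓ1 : 1 ≤ ℓ := by linarith
  -- the number of blocks
  set D := Nat.log b N + 1 with hD
  have hND : N < b ^ D := Nat.lt_pow_succ_log_self (by omega) N
  have hDℓ : (D : ℝ) ≤ 3 * ℓ := by
    have h1 : b ^ (Nat.log b N) ≤ N := Nat.pow_log_le_self b (by omega)
    have h2 : (b : ℝ) ^ (Nat.log b N) ≤ N := by exact_mod_cast h1
    have h3 := Real.log_le_log (by positivity) h2
    rw [Real.log_pow] at h3
    have h4 : Real.log 2 ≤ Real.log b := Real.log_le_log (by norm_num) hbR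
    have h5 := Real.log_two_gt_d9
    have h6 : (Nat.log b N : ℝ) * (1 / 2) ≤ ℓ := by
      refine le_trans (mul_le_mul_of_nonneg_left (by linarith) (Nat.cast_nonneg _)) h3
    rw [hD]
    push_cast
    linarith
  have hlogy : Real.log ((b * D : ℕ) : ℝ) ≤ B * m := by
    have h1 : ((b * D : ℕ) : ℝ) ≤ 3 * b * ℓ := by
      push_cast
      have := mul_le_mul_of_nonneg_left hDℓ (by linarith : (0 : ℝ) ≤ b)
      linarith
    have h2 : (0 : ℝ) < ((b * D : ℕ) : ℝ) := by
      have : 0 < b * D := Nat.mul_pos (by omega) (by omega)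
      exact_mod_cast this
    have h3 := Real.log_le_log h2 h1
    rw [Real.log_mul (by positivity) hℓ0.ne'] at h3
    have h4 : 0 ≤ Real.log (3 * (b : ℝ)) := Real.log_nonneg (by linarith)
    have h5 : Real.log (3 * (b : ℝ)) * 1 ≤ Real.log (3 * (b : ℝ)) * m := mul_le_mul_of_nonneg_left hll h4
    rw [hB]
    linarith
  have hlogy0 : 0 < Real.log ((b * D : ℕ) : ℝ) := by
    apply Real.log_pos
    have : 1 < b * D := by nlinarith
    exact_mod_cast this
  -- the sieving level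
  have hex : ∃ k, N < Z k ^ 410 := by
    refine ⟨N, ?_⟩
    have h1 : N < 2 ^ N := Nat.lt_two_pow_self
    have h2 : 2 ^ N ≤ 2 ^ (2 ^ N) := Nat.pow_le_pow_right (by norm_num) h1.le
    have h3 : Z N ^ 1 ≤ Z N ^ 410 := Nat.pow_le_pow_right (by have := two_le_Z N; omega) (by norm_num)
    rw [pow_one] at h3
    have h4 : Z N = 2 ^ (2 ^ N) := rfl
    omega
  set k := Nat.find hex with hk
  have hk1 : N < Z k ^ 410 := Nat.find_spec hex
  have hk2 : 2 ≤ k := by
    by_contra hlt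
    have h1 : Z k ≤ Z 1 := Z_mono (by omega)
    have h2 : Z k ^ 410 ≤ Z 1 ^ 410 := Nat.pow_le_pow_left h1 410
    omega
  obtain ⟨T, hT⟩ : ∃ T, k = T + 2 := ⟨k - 2, by omega⟩
  have hT1 : Z (T + 1) ^ 410 ≤ N := by
    have := Nat.find_min hex (show T + 1 < Nat.find hex by omega)
    omega
  have hT2 : N < Z (T + 1) ^ 820 := by
    rw [hT, Z_succ (T + 1), ← pow_mul] at hk1
    exact hk1
  have hT0 : Z T ^ 820 ≤ N := by
    rw [Z_succ T, ← pow_mul] at hT1
    exact hT1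
  -- square root bounds
  have hs : ∀ j, Z j ^ 410 ≤ N → (Z j : ℝ) ^ 205 ≤ Real.sqrt N := by
    intro j hj
    apply Real.le_sqrt_of_sq_le
    rw [← pow_mul]
    exact_mod_cast hj
  have hZT410 : Z T ^ 410 ≤ N := (Nat.pow_le_pow_left (Z_mono (Nat.le_succ T)) 410).trans hT1
  have hs0 := hs T hZT410
  have hs1 := hs (T + 1) hT1
  have hsN : Real.sqrt N * Real.sqrt N = N := Real.mul_self_sqrt hN0.le
  have hsq0 : 0 < Real.sqrt N := Real.sqrt_pos.2 hN0
  have hℓ3 : 0 < ℓ ^ 3 := by positivity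
  have hBκ : 0 ≤ 6 * B / κ := by positivity
  have hbig1 : 6 * B / κ * ℓ ^ 3 ≤ Real.sqrt N := by
    have h1 : 0 ≤ 3 * ℓ ^ 3 := by positivity
    have h2 : (6 * B / κ + 3) * ℓ ^ 3 = 6 * B / κ * ℓ ^ 3 + 3 * ℓ ^ 3 := by ring
    linarith
  have hbig2 : 3 * ℓ ^ 3 ≤ Real.sqrt N := by
    have h1 : 0 ≤ 6 * B / κ * ℓ ^ 3 := by positivity
    have h2 : (6 * B / κ + 3) * ℓ ^ 3 = 6 * B / κ * ℓ ^ 3 + 3 * ℓ ^ 3 := by ring
    linarith
  have hm0 : 0 < m := by linarith
  -- D * sqrt N is small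
  have hDs : ∀ j, Z j ^ 410 ≤ N → (D : ℝ) * (Z j : ℝ) ^ 205 ≤ 3 * ℓ * Real.sqrt N := fun j hj =>
    mul_le_mul hDℓ (hs j hj) (by positivity) (by positivity)
  have herr2 : 3 * ℓ * Real.sqrt N ≤ N * m / ℓ := by
    rw [le_div_iff₀ hℓ0]
    have h1 : 3 * ℓ ^ 2 ≤ 3 * ℓ ^ 3 := by nlinarith [mul_nonneg (sq_nonneg ℓ) (sub_nonneg.2 hℓ1)]
    have h2 : 3 * ℓ ^ 2 * Real.sqrt N ≤ Real.sqrt N * Real.sqrt N :=
      mul_le_mul_of_nonneg_right (h1.trans hbig2) hsq0.le
    rw [hsN] at h2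
    have h3 : (N : ℝ) * 1 ≤ N * m := mul_le_mul_of_nonneg_left hll hN0.le
    nlinarith
  have herr3 : Real.sqrt N ≤ N * m / ℓ := by
    refine le_trans ?_ herr2
    nlinarith
  -- upper bound with level T
  have hup := (hcount T N D (by omega) hND).2
  have hlogT : ℓ / 1640 ≤ Real.log (Z T) := by
    have h1 : (N : ℝ) ≤ (Z (T + 1) : ℝ) ^ 820 := by exact_mod_cast hT2.le
    have h2 := Real.log_le_log hN0 h1
    have h3 : (Z (T + 1) : ℝ) = (Z T : ℝ) ^ 2 := by
      rw [Z_succ]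
      push_cast
      rfl
    rw [h3, ← pow_mul, Real.log_pow] at h2
    push_cast at h2
    linarith
  have hup2 : ∑ n ∈ range N, fw b T (n + 1) ≤ (1640 * B / κ + 1) * N * m / ℓ := by
    refine hup.trans ?_
    have h1 : N * Real.log ((b * D : ℕ) : ℝ) / (κ * Real.log (Z T)) ≤ N * (B * m) / (κ * (ℓ / 1640)) := by
      apply div_le_div₀
      · positivity
      · exact mul_le_mul_of_nonneg_left hlogy hN0.le
      · positivity
      · exact mul_le_mul_of_nonneg_left hlogT hκ.le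
    have h2 : N * (B * m) / (κ * (ℓ / 1640)) = (1640 * B / κ) * N * m / ℓ := by
      field_simp
    have h3 := hDs T hZT410
    have h4 : (1640 * B / κ + 1) * N * m / ℓ = (1640 * B / κ) * N * m / ℓ + N * m / ℓ := by
      field_simp
    rw [h4]
    rw [h2] at h1
    linarith
  refine ⟨?_, ?_, ?_⟩
  · -- lower bound
    have hlow := (hcount (T + 1) N D (by omega) hND).1
    have hlogT1 : Real.log (Z (T + 1)) ≤ ℓ := by
      apply Real.log_le_log
      · have := two_le_Z (T + 1)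
        exact_mod_cast (by omega : 0 < Z (T + 1))
      · have h1 : Z (T + 1) ^ 1 ≤ Z (T + 1) ^ 410 :=
          Nat.pow_le_pow_right (by have := two_le_Z (T + 1); omega) (by norm_num)
        rw [pow_one] at h1
        exact_mod_cast h1.trans hT1
    have hT1pos := log_Z_pos (T + 1)
    have h1 : κ * N / (ℓ * (B * m)) ≤
        κ * N / (Real.log (Z (T + 1)) * Real.log ((b * D : ℕ) : ℝ)) := by
      apply div_le_div_of_nonneg_left (by positivity) (by positivity)
      exact mul_le_mul hlogT1 hlogy hlogy0.le hℓ0.le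
    have h2 := hDs (T + 1) hT1
    have h3 : 3 * ℓ * Real.sqrt N ≤ κ / (2 * B) * N / (ℓ * m) := by
      rw [le_div_iff₀ (by positivity)]
      have h4 : 6 * B * ℓ ^ 3 ≤ κ * Real.sqrt N := by
        have : 6 * B / κ * ℓ ^ 3 * κ ≤ Real.sqrt N * κ := mul_le_mul_of_nonneg_right hbig1 hκ.le
        have h5 : 6 * B / κ * ℓ ^ 3 * κ = 6 * B * ℓ ^ 3 := by field_simp
        linarith
      have h6 : 3 * ℓ * Real.sqrt N * (ℓ * m) ≤ 3 * ℓ ^ 3 * Real.sqrt N := by
        have : 3 * ℓ ^ 2 * Real.sqrt N * m ≤ 3 * ℓ ^ 2 * Real.sqrt N * ℓ :=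
          mul_le_mul_of_nonneg_left (by linarith) (by positivity)
        nlinarith
      have h7 : 3 * ℓ ^ 3 * Real.sqrt N ≤ κ / (2 * B) * N := by
        rw [div_mul_eq_mul_div, le_div_iff₀ (by positivity)]
        have h8 := mul_le_mul_of_nonneg_right h4 hsq0.le
        have h9 : κ * Real.sqrt N * Real.sqrt N = κ * N := by rw [mul_assoc, hsN]
        nlinarith
      linarith
    have h4 : κ / (2 * B) * N / (ℓ * m) + κ / (2 * B) * N / (ℓ * m) = κ * N / (ℓ * (B * m)) := by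
      field_simp
      ring
    have h5 : κ / (2 * B) * N / (ℓ * m) ≤ ∑ n ∈ range N, fw b (T + 1) (n + 1) := by linarith
    refine h5.trans ?_
    rw [sum_fw]
    norm_cast
    apply Finset.card_le_card
    intro n hn
    rw [Finset.mem_filter] at hn ⊢
    refine ⟨hn.1, fun p hp hd => ?_⟩
    by_contra hlt
    apply hn.2 p _ hd
    rw [mem_PA]
    refine ⟨hp, ?_⟩
    by_contra hgt
    have h6 : Z (T + 1) ^ 820 < p ^ 820 := Nat.pow_lt_pow_left (by omega) (by norm_num)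
    omega
  · -- upper bound for rough terms
    have h1 : (((Icc 1 N).filter (fun n => ∀ p : ℕ, p.Prime → p ∣ cc b n → N < p ^ 820)).card : ℝ) ≤
        ∑ n ∈ range N, fw b T (n + 1) := by
      rw [sum_fw]
      norm_cast
      apply Finset.card_le_card
      intro n hn
      rw [Finset.mem_filter] at hn ⊢
      refine ⟨hn.1, fun p hp hd => ?_⟩
      have h2 := hn.2 p (mem_PA.1 hp).1 hd
      have h3 : p ^ 820 ≤ Z T ^ 820 := Nat.pow_le_pow_left (mem_PA.1 hp).2 820
      omega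
    refine h1.trans (hup2.trans ?_)
    apply div_le_div_of_nonneg_right _ hℓ0.le
    have h2 : 0 ≤ (N : ℝ) * m := by positivity
    nlinarith
  · -- upper bound for primes
    have h1 : ((Icc 1 N).filter (fun n => (cc b n).Prime)).card ≤
        ((Icc 1 N).filter (fun n => ∀ p ∈ PA T, ¬ p ∣ cc b n)).card + Z T := by
      have hsub : (Icc 1 N).filter (fun n => (cc b n).Prime) ⊆
          (Icc 1 N).filter (fun n => ∀ p ∈ PA T, ¬ p ∣ cc b n) ∪ Icc 1 (Z T) := by
        intro n hn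
        rw [Finset.mem_filter, Finset.mem_Icc] at hn
        rw [Finset.mem_union, Finset.mem_filter, Finset.mem_Icc, Finset.mem_Icc]
        by_cases h : cc b n ≤ Z T
        · exact Or.inr ⟨hn.1.1, (le_cc b n).trans h⟩
        · refine Or.inl ⟨hn.1, fun p hp hd => ?_⟩
          have h2 := (Nat.prime_dvd_prime_iff_eq (mem_PA.1 hp).1 hn.2).1 hd
          have h3 := (mem_PA.1 hp).2
          omega
      refine (Finset.card_le_card hsub).trans ((Finset.card_union_le _ _).trans ?_)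
      rw [Nat.card_Icc]
      omega
    have h2 : (((Icc 1 N).filter (fun n => (cc b n).Prime)).card : ℝ) ≤
        ∑ n ∈ range N, fw b T (n + 1) + (Z T : ℝ) := by
      rw [sum_fw]
      exact_mod_cast h1
    have h3 : (Z T : ℝ) ≤ Real.sqrt N := by
      refine le_trans ?_ hs0
      have h4 : (1 : ℝ) ≤ Z T := by
        have := two_le_Z T
        exact_mod_cast (by omega : 1 ≤ Z T)
      calc (Z T : ℝ) = (Z T : ℝ) ^ 1 := (pow_one _).symm
        _ ≤ (Z T : ℝ) ^ 205 := pow_le_pow_right₀ h4 (by norm_num)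
    have h5 : (1640 * B / κ + 2) * N * m / ℓ = (1640 * B / κ + 1) * N * m / ℓ + N * m / ℓ := by
      field_simp
      ring
    rw [h5]
    linarith

end Pool.Concat
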