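import Pool.Agent.Lib.MP_9dc83d_nt.BH3

/-!
# Exact independence of the local conditions
-/

set_option autoImplicit false

open Finset

namespace Pool.Concat

theorem sum_range_grid (F : ℕ → ℝ) (M m : ℕ) :
    ∑ t ∈ range (M * m), F t = ∑ r ∈ range M, ∑ i ∈ range m, F (r + i * M) := by
  rw [Finset.sum_comm]
  induction m with
  | zero => simp
  | succ m ih =>
    rw [Nat.mul_succ, Finset.sum_range_add, ih, Finset.sum_range_succ]
    congr 1
    refine Finset.sum_congr rfl fun r _ => ?_
    rw [mul_comm M m, add_comm]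

theorem sum_linear (F : ℕ → ℝ) (m K L : ℕ) (hm : 0 < m) (hF : ∀ t, F (t + m) = F t)
    (hL : Nat.Coprime L m) : ∑ i ∈ range m, F (K + i * L) = ∑ i ∈ range m, F i := by
  have hper : Function.Periodic F m := hF
  have h1 : ∀ n, F (n % m) = F n := fun n => hper.map_mod_nat n
  have hinj : Set.InjOn (fun i => (K + i * L) % m) (range m : Finset ℕ) := by
    intro i hi j hj hij
    have hi' : i < m := by simpa using hi
    have hj' : j < m := by simpa using hj
    have h2 : K + i * L ≡ K + j * L [MOD m] := hij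
    have h3 : i * L ≡ j * L [MOD m] := Nat.ModEq.add_left_cancel' K h2
    have h4 : i ≡ j [MOD m] := Nat.ModEq.cancel_right_of_coprime (by rwa [Nat.coprime_comm] at hL) h3
    have h5 : i % m = j % m := h4
    rwa [Nat.mod_eq_of_lt hi', Nat.mod_eq_of_lt hj'] at h5
  have himg : (range m).image (fun i => (K + i * L) % m) = range m := by
    apply Finset.eq_of_subset_of_card_le
    · intro x hx
      rw [Finset.mem_image] at hx
      obtain ⟨i, _, rfl⟩ := hx
      exact Finset.mem_range.2 (Nat.mod_lt _ hm)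
    · rw [Finset.card_image_of_injOn hinj]
  calc ∑ i ∈ range m, F (K + i * L) = ∑ i ∈ range m, F ((K + i * L) % m) :=
        Finset.sum_congr rfl fun i _ => (h1 _).symm
    _ = ∑ x ∈ (range m).image (fun i => (K + i * L) % m), F x := by
        rw [Finset.sum_image hinj]
    _ = ∑ i ∈ range m, F i := by rw [himg]

theorem periodic_mul (F : ℕ → ℝ) (T : ℕ) (hF : ∀ t, F (t + T) = F t) (k t : ℕ) :
    F (t + k * T) = F t := by
  induction k with
  | zero => simp
  | succ k ih =>
    have : t + (k + 1) * T = (t + k * T) + T := by ring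
    rw [this, hF, ih]

/-- sums of a periodic function over an interval -/
theorem disc (F : ℕ → ℝ) (T H : ℕ) (hT : 0 < T) (hF : ∀ t, F (t + T) = F t) (h0 : ∀ t, 0 ≤ F t) :
    |∑ t ∈ range H, F t - (H : ℝ) * ((∑ t ∈ range T, F t) / T)| ≤ ∑ t ∈ range T, F t := by
  set W := ∑ t ∈ range T, F t with hW
  have hW0 : 0 ≤ W := Finset.sum_nonneg fun t _ => h0 t
  have hTR : (0 : ℝ) < T := by exact_mod_cast hT
  set k := H / T with hk
  set r := H % T with hr
  have hH : H = T * k + r := (Nat.div_add_mod H T).symm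
  have hrT : r < T := Nat.mod_lt _ hT
  have h1 : ∑ t ∈ range (T * k), F t = k * W := by
    rw [sum_range_grid]
    have : ∀ x ∈ range T, ∑ i ∈ range k, F (x + i * T) = k * F x := by
      intro x _
      rw [Finset.sum_congr rfl (fun i _ => periodic_mul F T hF i x), Finset.sum_const,
        Finset.card_range, nsmul_eq_mul]
    rw [Finset.sum_congr rfl this, ← Finset.mul_sum]
  have h2 : ∑ t ∈ range r, F (T * k + t) = ∑ t ∈ range r, F t := by
    refine Finset.sum_congr rfl fun t _ => ?_
    rw [add_comm, mul_comm T k, periodic_mul F T hF]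
  have h3 : ∑ t ∈ range r, F t ≤ W :=
    Finset.sum_le_sum_of_subset_of_nonneg (Finset.range_mono hrT.le) fun t _ _ => h0 t
  have h4 : 0 ≤ ∑ t ∈ range r, F t := Finset.sum_nonneg fun t _ => h0 t
  have h5 : ∑ t ∈ range H, F t = k * W + ∑ t ∈ range r, F t := by
    rw [hH, Finset.sum_range_add, h1, h2]
  have h6 : (H : ℝ) = T * k + r := by exact_mod_cast hH
  have h7 : (H : ℝ) * (W / T) = k * W + r * W / T := by
    rw [h6]
    field_simp
  rw [h5, h7]
  have h8 : 0 ≤ (r : ℝ) * W / T := by positivity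
  have h9 : (r : ℝ) * W / T ≤ W := by
    rw [div_le_iff₀ hTR, mul_comm W]
    have : (r : ℝ) ≤ T := by exact_mod_cast hrT.le
    exact mul_le_mul_of_nonneg_right this hW0
  rw [abs_le]
  constructor
  · linarith
  · linarith

/-- local data for the condition at the prime `p`: the modulus `m`, the auxiliary period `q` and
the number `w` of solutions -/
structure LocalData (A : ℕ → ℕ → Prop) (p m q : ℕ) (w : ℝ) : Prop where
  m_pos : 0 < m
  q_pos : 0 < q
  m_fac : ∀ l, l.Prime → l ∣ m → l = p
  q_fac : ∀ l, l.Prime → l ∣ q → l < p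
  per : ∀ t, A p (t + m * q) ↔ A p t
  unif : ∀ M, q ∣ M → Nat.Coprime M m → ∀ t, ∑ i ∈ range m, ind A (t + i * M) p = w

theorem ind_congr (A : ℕ → ℕ → Prop) {n n' p : ℕ} (h : A p n ↔ A p n') : ind A n p = ind A n' p := by
  unfold ind
  by_cases h1 : A p n
  · rw [if_pos h1, if_pos (h.1 h1)]
  · rw [if_neg h1, if_neg (fun h2 => h1 (h.2 h2))]

theorem indep (A : ℕ → ℕ → Prop) (m q : ℕ → ℕ) (w : ℕ → ℝ) (S : Finset ℕ)
    (hS : ∀ p ∈ S, p.Prime) (hloc : ∀ p ∈ S, LocalData A p (m p) (q p) (w p)) :
    (0 < ∏ p ∈ S, (m p * q p)) ∧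
    (∀ t, ∏ p ∈ S, ind A (t + ∏ p ∈ S, (m p * q p)) p = ∏ p ∈ S, ind A t p) ∧
    ∑ t ∈ range (∏ p ∈ S, (m p * q p)), ∏ p ∈ S, ind A t p = ∏ p ∈ S, ((q p : ℝ) * w p) := by
  classical
  induction S using Finset.induction_on_max with
  | empty => simp
  | insert a S ha ih =>
    have haS : a ∉ S := fun h => lt_irrefl _ (ha a h)
    have hS' : ∀ p ∈ S, p.Prime := fun p hp => hS p (Finset.mem_insert_of_mem hp)
    have hloc' : ∀ p ∈ S, LocalData A p (m p) (q p) (w p) := fun p hp =>
      hloc p (Finset.mem_insert_of_mem hp)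
    obtain ⟨hT, hper, hcount⟩ := ih hS' hloc'
    have hla := hloc a (Finset.mem_insert_self a S)
    have hap := hS a (Finset.mem_insert_self a S)
    set T := ∏ p ∈ S, (m p * q p) with hTdef
    have hprod : ∏ p ∈ insert a S, (m p * q p) = (T * q a) * m a := by
      rw [Finset.prod_insert haS]
      ring
    -- the old product is a periodic function
    set F : ℕ → ℝ := fun t => ∏ p ∈ S, ind A t p with hF
    have hFper : ∀ t, F (t + T) = F t := hper
    have hpera : ∀ k t, ind A (t + k * (m a * q a)) a = ind A t a := by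
      intro k t
      exact periodic_mul (fun t => ind A t a) (m a * q a) (fun t => ind_congr A (hla.per t)) k t
    have hcop : Nat.Coprime (T * q a) (m a) := by
      rw [Nat.coprime_iff_gcd_eq_one]
      by_contra hne
      obtain ⟨l, hl, hld⟩ := Nat.exists_prime_and_dvd hne
      have h1 : l ∣ m a := hld.trans (Nat.gcd_dvd_right _ _)
      have h2 : l ∣ T * q a := hld.trans (Nat.gcd_dvd_left _ _)
      have h3 : l = a := hla.m_fac l hl h1
      rcases (Nat.Prime.dvd_mul hl).1 h2 with h4 | h4
      · rw [hTdef, Prime.dvd_finsetProd_iff hl.prime] at h4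
        obtain ⟨p, hp, h5⟩ := h4
        have h6 := ha p hp
        rcases (Nat.Prime.dvd_mul hl).1 h5 with h7 | h7
        · have := (hloc' p hp).m_fac l hl h7
          omega
        · have := (hloc' p hp).q_fac l hl h7
          omega
      · have := hla.q_fac l hl h4
        omega
    refine ⟨?_, ?_, ?_⟩
    · rw [hprod]
      exact Nat.mul_pos (Nat.mul_pos hT hla.q_pos) hla.m_pos
    · intro t
      rw [hprod, Finset.prod_insert haS, Finset.prod_insert haS]
      congr 1
      · have h1 : t + T * q a * m a = t + T * (m a * q a) := by ring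
        rw [h1]
        exact hpera T t
      · have h1 : t + T * q a * m a = t + (q a * m a) * T := by ring
        rw [h1]
        exact periodic_mul F T hFper _ t
    · rw [hprod, sum_range_grid]
      have h1 : ∀ r ∈ range (T * q a), ∑ i ∈ range (m a), ∏ p ∈ insert a S,
          ind A (r + i * (T * q a)) p = w a * F r := by
        intro r _
        have h2 : ∀ i ∈ range (m a), ∏ p ∈ insert a S, ind A (r + i * (T * q a)) p =
            ind A (r + i * (T * q a)) a * F r := by
          intro i _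
          rw [Finset.prod_insert haS]
          congr 1
          have h3 : r + i * (T * q a) = r + (i * q a) * T := by ring
          rw [h3]
          exact periodic_mul F T hFper _ r
        rw [Finset.sum_congr rfl h2, ← Finset.sum_mul,
          hla.unif (T * q a) (Dvd.intro_left _ rfl) hcop r]
      rw [Finset.sum_congr rfl h1, ← Finset.mul_sum, sum_range_grid]
      have h4 : ∀ x ∈ range T, ∑ i ∈ range (q a), F (x + i * T) = q a * F x := by
        intro x _
        rw [Finset.sum_congr rfl (fun i _ => periodic_mul F T hFper i x), Finset.sum_const,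
          Finset.card_range, nsmul_eq_mul]
      rw [Finset.sum_congr rfl h4, ← Finset.mul_sum, Finset.prod_insert haS]
      have h5 : ∑ t ∈ range T, F t = ∏ p ∈ S, ((q p : ℝ) * w p) := hcount
      rw [h5]
      ring

/-- the remainder bound -/
theorem remainder (A : ℕ → ℕ → Prop) (m q : ℕ → ℕ) (w : ℕ → ℝ) (S : Finset ℕ)
    (hS : ∀ p ∈ S, p.Prime) (hloc : ∀ p ∈ S, LocalData A p (m p) (q p) (w p))
    (hw0 : ∀ p ∈ S, 0 ≤ w p) (hqw : ∀ p ∈ S, (q p : ℝ) * w p ≤ p) (H : ℕ) :
    |∑ t ∈ range H, ∏ p ∈ S, ind A t p - (H : ℝ) * ∏ p ∈ S, (w p / m p)| ≤ ∏ p ∈ S, (p : ℝ) := by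
  obtain ⟨hT, hper, hcount⟩ := indep A m q w S hS hloc
  have h1 := disc (fun t => ∏ p ∈ S, ind A t p) (∏ p ∈ S, (m p * q p)) H hT hper
    (fun t => Finset.prod_nonneg fun p _ => ind_nonneg A t p)
  simp only [hcount] at h1
  have h2 : (∏ p ∈ S, ((q p : ℝ) * w p)) / ((∏ p ∈ S, (m p * q p) : ℕ) : ℝ) =
      ∏ p ∈ S, (w p / m p) := by
    rw [Nat.cast_prod, ← Finset.prod_div_distrib]
    refine Finset.prod_congr rfl fun p hp => ?_
    have h3 : (0 : ℝ) < q p := by exact_mod_cast (hloc p hp).q_pos
    have h4 : (0 : ℝ) < m p := by exact_mod_cast (hloc p hp).m_pos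
    push_cast
    field_simp
  rw [h2] at h1
  refine h1.trans ?_
  exact Finset.prod_le_prod (fun p hp => mul_nonneg (Nat.cast_nonneg _) (hw0 p hp)) hqw

end Pool.Concat
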