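import Pool.Agent.Lib.MP_9dc83d_nt.Indep

/-!
# Local conditions for the block recursion
-/

set_option autoImplicit false

open Finset

namespace Pool.Concat

/-- the block recursion -/
def ext (R s c : ℕ) : ℕ → ℕ
  | 0 => s
  | t + 1 => R * ext R s c t + (c + t + 1)

/-- the condition `p ∣ ext (t+1)` -/
def AA (R s c : ℕ) (p t : ℕ) : Prop := p ∣ ext R s c (t + 1)

theorem closed {K : Type} [CommRing K] (ρ s c : ℕ) (t : ℕ) :
    (ρ : K) ^ 2 * (ext (ρ + 1) s c t : K) =
      ((ρ : K) + 1) ^ t * ((ρ : K) ^ 2 * s + ρ * c + (ρ + 1)) - ρ * ((c : K) + t) - (ρ + 1) := by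
  induction t with
  | zero =>
    simp only [ext, pow_zero, Nat.cast_zero]
    ring
  | succ t ih =>
    have h1 : (ρ : K) ^ 2 * (ext (ρ + 1) s c (t + 1) : K) =
        ((ρ : K) + 1) * ((ρ : K) ^ 2 * (ext (ρ + 1) s c t : K)) + (ρ : K) ^ 2 * (c + t + 1) := by
      simp only [ext]
      push_cast
      ring
    rw [h1, ih]
    push_cast
    ring

theorem AA_zmod (R s c p t : ℕ) : AA R s c p t ↔ ((ext R s c (t + 1) : ℕ) : ZMod p) = 0 := by
  unfold AA
  rw [ZMod.natCast_eq_zero_iff]

/-- the generic primes -/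
theorem local_generic (ρ s c p : ℕ) (hp : p.Prime) (hρ : ¬ p ∣ ρ) :
    LocalData (AA (ρ + 1) s c) p p (p - 1) 1 := by
  have : Fact p.Prime := ⟨hp⟩
  have hρ0 : (ρ : ZMod p) ≠ 0 := by
    rw [Ne, ZMod.natCast_eq_zero_iff]
    exact hρ
  have hρ2 : (ρ : ZMod p) ^ 2 ≠ 0 := pow_ne_zero 2 hρ0
  -- powers of R
  have hpow : ∀ t k : ℕ, ((ρ : ZMod p) + 1) ^ (t + 1 + k * (p - 1)) = ((ρ : ZMod p) + 1) ^ (t + 1) := by
    intro t k
    by_cases h : (ρ : ZMod p) + 1 = 0
    · rw [h, zero_pow (by omega), zero_pow (by omega)]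
    · rw [pow_add, mul_comm k, pow_mul, ZMod.pow_card_sub_one_eq_one h, one_pow, mul_one]
  refine ⟨hp.pos, by have := hp.two_le; omega, ?_, ?_, ?_, ?_⟩
  · intro l hl hld
    exact (Nat.prime_dvd_prime_iff_eq hl hp).1 hld
  · intro l hl hld
    have := Nat.le_of_dvd (by have := hp.two_le; omega) hld
    have := hp.two_le
    omega
  · intro t
    rw [AA_zmod, AA_zmod]
    have h1 := closed (K := ZMod p) ρ s c (t + p * (p - 1) + 1)
    have h2 := closed (K := ZMod p) ρ s c (t + 1)
    have h3 : t + p * (p - 1) + 1 = t + 1 + p * (p - 1) := by ring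
    rw [h3, hpow] at h1
    have h4 : ((t + 1 + p * (p - 1) : ℕ) : ZMod p) = ((t + 1 : ℕ) : ZMod p) := by
      push_cast
      rw [CharP.cast_eq_zero (ZMod p) p]
      ring
    rw [h4, ← h2] at h1
    have h5 := mul_left_cancel₀ hρ2 h1
    rw [h3, h5]
  · intro M hqM hcop t
    obtain ⟨k, hk⟩ := hqM
    -- rewrite through the linear form
    have hM0 : (M : ZMod p) ≠ 0 := by
      rw [Ne, ZMod.natCast_eq_zero_iff]
      intro hd
      have := (Nat.Prime.coprime_iff_not_dvd hp).1 hcop.symm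
      exact this hd
    set K : ℕ := ρ * (c + t + 1) + (ρ + 1) + (p - 1) * ((ρ + 1) ^ (t + 1) * (ρ ^ 2 * s + ρ * c + (ρ + 1)))
      with hK
    have key : ∀ i, AA (ρ + 1) s c p (t + i * M) ↔ (fun (_ : ℕ) (x : ℕ) => p ∣ x) p (K + i * (ρ * M)) := by
      intro i
      rw [AA_zmod]
      have h1 := closed (K := ZMod p) ρ s c (t + i * M + 1)
      have h3 : t + i * M + 1 = t + 1 + (i * k) * (p - 1) := by rw [hk]; ring
      have h4 : ((ρ : ZMod p) + 1) ^ (t + i * M + 1) = ((ρ : ZMod p) + 1) ^ (t + 1) := by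
        rw [h3, hpow]
      rw [h4] at h1
      have h5 : ((K + i * (ρ * M) : ℕ) : ZMod p) =
          - ((ρ : ZMod p) ^ 2 * (ext (ρ + 1) s c (t + i * M + 1) : ZMod p)) := by
        rw [h1, hK]
        have h6 : ((p - 1 : ℕ) : ZMod p) = -1 := by
          rw [Nat.cast_sub hp.one_lt.le, CharP.cast_eq_zero]
          simp
        push_cast
        rw [h6]
        ring
      show _ ↔ p ∣ K + i * (ρ * M)
      rw [← ZMod.natCast_eq_zero_iff, h5, neg_eq_zero, mul_eq_zero]
      constructor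
      · intro h
        exact Or.inr h
      · rintro (h | h)
        · exact absurd h hρ2
        · exact h
    have h7 : ∑ i ∈ range p, ind (AA (ρ + 1) s c) (t + i * M) p =
        ∑ i ∈ range p, ind (fun _ x => p ∣ x) (K + i * (ρ * M)) p := by
      refine Finset.sum_congr rfl fun i _ => ?_
      unfold ind
      by_cases h : AA (ρ + 1) s c p (t + i * M)
      · rw [if_pos h, if_pos ((key i).1 h)]
      · rw [if_neg h, if_neg (fun h2 => h ((key i).2 h2))]
    rw [h7]
    have h8 := sum_linear (fun x => ind (fun _ x => p ∣ x) x p) p K (ρ * M) hp.pos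
      (fun x => ind_congr _ (by simp)) (by
        refine Nat.Coprime.mul_left ?_ hcop
        exact ((Nat.Prime.coprime_iff_not_dvd hp).2 hρ).symm)
    rw [h8]
    rw [Finset.sum_eq_single_of_mem 0 (Finset.mem_range.2 hp.pos)]
    · unfold ind
      rw [if_pos (dvd_zero p)]
    · intro x hx hx0
      unfold ind
      rw [if_neg]
      intro hd
      have := Nat.le_of_dvd (Nat.pos_of_ne_zero hx0) hd
      have := Finset.mem_range.1 hx
      omega

theorem two_ext (ρ s c p t : ℕ) (hρ : p ∣ ρ) :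
    (2 : ZMod p) * (ext (ρ + 1) s c t : ZMod p) = 2 * s + 2 * c * t + t * (t + 1) := by
  have hρ0 : (ρ : ZMod p) = 0 := by
    rw [ZMod.natCast_eq_zero_iff]
    exact hρ
  induction t with
  | zero => simp [ext]
  | succ t ih =>
    have h1 : (2 : ZMod p) * (ext (ρ + 1) s c (t + 1) : ZMod p) =
        2 * (ext (ρ + 1) s c t : ZMod p) + 2 * (c + t + 1) := by
      simp only [ext]
      push_cast
      rw [hρ0]
      ring
    rw [h1, ih]
    push_cast
    ring

/-- the number of solutions in one period -/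
noncomputable def ws (R s c p : ℕ) : ℝ := ∑ i ∈ range p, ind (AA R s c) i p

theorem local_odd (ρ s c p : ℕ) (hp : p.Prime) (hp2 : p ≠ 2) (hρ : p ∣ ρ) :
    LocalData (AA (ρ + 1) s c) p p 1 (ws (ρ + 1) s c p) ∧ ws (ρ + 1) s c p ≤ 2 := by
  have : Fact p.Prime := ⟨hp⟩
  have h2ne : (2 : ZMod p) ≠ 0 := by
    have h3 : ((2 : ℕ) : ZMod p) ≠ 0 := by
      rw [Ne, ZMod.natCast_eq_zero_iff]
      intro hd
      exact hp2 ((Nat.prime_dvd_prime_iff_eq hp Nat.prime_two).1 hd)
    exact_mod_cast h3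
  have hiff : ∀ t, AA (ρ + 1) s c p t ↔
      (2 * s + 2 * c * ((t + 1 : ℕ) : ZMod p) + ((t + 1 : ℕ) : ZMod p) * (((t + 1 : ℕ) : ZMod p) + 1) : ZMod p) = 0 := by
    intro t
    rw [AA_zmod, ← two_ext ρ s c p (t + 1) hρ, mul_eq_zero]
    constructor
    · intro h
      exact Or.inr h
    · rintro (h | h)
      · exact absurd h h2ne
      · exact h
  have hper : ∀ t, AA (ρ + 1) s c p (t + p) ↔ AA (ρ + 1) s c p t := by
    intro t
    rw [hiff, hiff]
    have : ((t + p + 1 : ℕ) : ZMod p) = ((t + 1 : ℕ) : ZMod p) := by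
      push_cast
      rw [CharP.cast_eq_zero (ZMod p) p]
      ring
    rw [this]
  refine ⟨⟨hp.pos, one_pos, ?_, ?_, ?_, ?_⟩, ?_⟩
  · intro l hl hld
    exact (Nat.prime_dvd_prime_iff_eq hl hp).1 hld
  · intro l hl hld
    exact absurd (Nat.dvd_one.1 hld) hl.one_lt.ne'
  · intro t
    rw [mul_one]
    exact hper t
  · intro M _ hcop t
    exact sum_linear (fun t => ind (AA (ρ + 1) s c) t p) p t M hp.pos
      (fun t => ind_congr _ (hper t)) hcop
  · unfold ws ind
    rw [← Finset.sum_filter, Finset.sum_const, nsmul_eq_mul, mul_one]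
    classical
    set U := (range p).filter (fun i => AA (ρ + 1) s c p i) with hU
    have hcard : U.card ≤ 2 := by
      rcases U.eq_empty_or_nonempty with h0 | ⟨i0, hi0⟩
      · rw [h0]
        simp
      · have h1 : (U.erase i0).card ≤ 1 := by
          rw [Finset.card_le_one]
          intro x hx y hy
          have key : ∀ j ∈ U.erase i0, (j : ZMod p) = - (2 * c + 3) - i0 := by
            intro j hj
            have hjU := Finset.mem_of_mem_erase hj
            have hji := Finset.ne_of_mem_erase hj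
            have h2 := (hiff j).1 (Finset.mem_filter.1 hjU).2
            have h3 := (hiff i0).1 (Finset.mem_filter.1 hi0).2
            have hjp := Finset.mem_range.1 (Finset.mem_filter.1 hjU).1
            have hip := Finset.mem_range.1 (Finset.mem_filter.1 hi0).1
            have h4 : ((j : ZMod p) - i0) * ((j : ZMod p) + i0 + (2 * c + 3)) = 0 := by
              push_cast at h2 h3
              linear_combination h2 - h3
            rcases mul_eq_zero.1 h4 with h5 | h5
            · exfalso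
              apply hji
              have h6 : (j : ZMod p) = (i0 : ZMod p) := sub_eq_zero.1 h5
              have h7 := (ZMod.natCast_eq_natCast_iff' j i0 p).1 h6
              rwa [Nat.mod_eq_of_lt hjp, Nat.mod_eq_of_lt hip] at h7
            · linear_combination h5
          have h8 : (x : ZMod p) = (y : ZMod p) := by rw [key x hx, key y hy]
          have h9 := (ZMod.natCast_eq_natCast_iff' x y p).1 h8
          have hxp := Finset.mem_range.1 (Finset.mem_filter.1 (Finset.mem_of_mem_erase hx)).1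
          have hyp := Finset.mem_range.1 (Finset.mem_filter.1 (Finset.mem_of_mem_erase hy)).1
          rwa [Nat.mod_eq_of_lt hxp, Nat.mod_eq_of_lt hyp] at h9
        have h2 := Finset.card_erase_add_one hi0
        omega
    exact_mod_cast hcard

theorem local_two (ρ s c : ℕ) (hρ : 2 ∣ ρ) : LocalData (AA (ρ + 1) s c) 2 4 1 2 := by
  obtain ⟨k, hk⟩ := hρ
  have hstep : ∀ t, ext (ρ + 1) s c (t + 1) % 2 = (ext (ρ + 1) s c t + c + t + 1) % 2 := by
    intro t
    simp only [ext]
    have : (ρ + 1) * ext (ρ + 1) s c t + (c + t + 1) =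
        (ext (ρ + 1) s c t + c + t + 1) + 2 * (k * ext (ρ + 1) s c t) := by
      rw [hk]
      ring
    rw [this, Nat.add_mul_mod_self_left]
  have hA : ∀ t, AA (ρ + 1) s c 2 t ↔ ext (ρ + 1) s c (t + 1) % 2 = 0 := by
    intro t
    unfold AA
    exact Nat.dvd_iff_mod_eq_zero
  have hper : ∀ t, AA (ρ + 1) s c 2 (t + 4) ↔ AA (ρ + 1) s c 2 t := by
    intro t
    rw [hA, hA]
    have h1 := hstep (t + 1)
    have h2 := hstep (t + 2)
    have h3 := hstep (t + 3)
    have h4 := hstep (t + 4)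
    have e1 : t + 1 + 1 = t + 2 := rfl
    have e2 : t + 2 + 1 = t + 3 := rfl
    have e3 : t + 3 + 1 = t + 4 := rfl
    have e4 : t + 4 + 1 = t + 5 := rfl
    rw [e1] at h1
    rw [e2] at h2
    rw [e3] at h3
    rw [e4] at h4 ⊢
    omega
  refine ⟨by norm_num, one_pos, ?_, ?_, ?_, ?_⟩
  · intro l hl hld
    have h4 : (4 : ℕ) = 2 ^ 2 := by norm_num
    rw [h4] at hld
    exact (Nat.prime_dvd_prime_iff_eq hl Nat.prime_two).1 (hl.dvd_of_dvd_pow hld)
  · intro l hl hld
    exact absurd (Nat.dvd_one.1 hld) hl.one_lt.ne'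
  · intro t
    exact hper t
  · intro M _ hcop t
    rw [sum_linear (fun t => ind (AA (ρ + 1) s c) t 2) 4 t M (by norm_num)
      (fun t => ind_congr _ (hper t)) hcop]
    have h0 := hstep 0
    have h1 := hstep 1
    have h2 := hstep 2
    have h3 := hstep 3
    have e0 : (0 : ℕ) + 1 = 1 := rfl
    have e1 : (1 : ℕ) + 1 = 2 := rfl
    have e2 : (2 : ℕ) + 1 = 3 := rfl
    have e3 : (3 : ℕ) + 1 = 4 := rfl
    simp only [Finset.sum_range_succ, Finset.sum_range_zero, zero_add]
    unfold ind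
    have a0 := hA 0
    have a1 := hA 1
    have a2 := hA 2
    have a3 := hA 3
    rw [e0] at a0 h0
    rw [e1] at a1 h1
    rw [e2] at a2 h2
    rw [e3] at a3 h3
    rcases Nat.mod_two_eq_zero_or_one (ext (ρ + 1) s c 1) with g0 | g0 <;>
    rcases Nat.mod_two_eq_zero_or_one (ext (ρ + 1) s c 2) with g1 | g1
    · have g2 : ext (ρ + 1) s c 3 % 2 = 1 := by omega
      have g3 : ext (ρ + 1) s c 4 % 2 = 1 := by omega
      rw [if_pos (a0.2 g0), if_pos (a1.2 g1), if_neg (fun h => by have := a2.1 h; omega),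
        if_neg (fun h => by have := a3.1 h; omega)]
      norm_num
    · have g2 : ext (ρ + 1) s c 3 % 2 = 1 := by omega
      have g3 : ext (ρ + 1) s c 4 % 2 = 0 := by omega
      rw [if_pos (a0.2 g0), if_neg (fun h => by have := a1.1 h; omega),
        if_neg (fun h => by have := a2.1 h; omega), if_pos (a3.2 g3)]
      norm_num
    · have g2 : ext (ρ + 1) s c 3 % 2 = 0 := by omega
      have g3 : ext (ρ + 1) s c 4 % 2 = 1 := by omega
      rw [if_neg (fun h => by have := a0.1 h; omega), if_pos (a1.2 g1), if_pos (a2.2 g2),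
        if_neg (fun h => by have := a3.1 h; omega)]
      norm_num
    · have g2 : ext (ρ + 1) s c 3 % 2 = 0 := by omega
      have g3 : ext (ρ + 1) s c 4 % 2 = 0 := by omega
      rw [if_neg (fun h => by have := a0.1 h; omega), if_neg (fun h => by have := a1.1 h; omega),
        if_pos (a2.2 g2), if_pos (a3.2 g3)]
      norm_num

/-- the moduli -/
def mm (ρ p : ℕ) : ℕ := if p ∣ ρ then (if p = 2 then 4 else p) else p

/-- the auxiliary periods -/
def qq (ρ p : ℕ) : ℕ := if p ∣ ρ then 1 else p - 1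

/-- the numbers of solutions -/
noncomputable def ww (ρ s c p : ℕ) : ℝ :=
  if p ∣ ρ then (if p = 2 then 2 else ws (ρ + 1) s c p) else 1

theorem ws_nonneg (R s c p : ℕ) : 0 ≤ ws R s c p := Finset.sum_nonneg fun _ _ => ind_nonneg _ _ _

theorem local_all (ρ s c p : ℕ) (hp : p.Prime) :
    LocalData (AA (ρ + 1) s c) p (mm ρ p) (qq ρ p) (ww ρ s c p) := by
  unfold mm qq ww
  by_cases h : p ∣ ρ
  · rw [if_pos h, if_pos h, if_pos h]
    by_cases h2 : p = 2
    · rw [if_pos h2, if_pos h2]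
      subst h2
      exact local_two ρ s c h
    · rw [if_neg h2, if_neg h2]
      exact (local_odd ρ s c p hp h2 h).1
  · rw [if_neg h, if_neg h, if_neg h]
    exact local_generic ρ s c p hp h

theorem ww_nonneg (ρ s c p : ℕ) : 0 ≤ ww ρ s c p := by
  unfold ww
  split_ifs
  · norm_num
  · exact ws_nonneg _ _ _ _
  · norm_num

theorem qq_mul_ww (ρ s c p : ℕ) (hp : p.Prime) : (qq ρ p : ℝ) * ww ρ s c p ≤ p := by
  unfold qq ww
  have h2 := hp.two_le
  have h2R : (2 : ℝ) ≤ p := by exact_mod_cast h2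
  by_cases h : p ∣ ρ
  · rw [if_pos h, if_pos h]
    by_cases h3 : p = 2
    · rw [if_pos h3]
      push_cast
      linarith
    · rw [if_neg h3]
      have := (local_odd ρ s c p hp h3 h).2
      push_cast
      linarith
  · rw [if_neg h, if_neg h, mul_one, Nat.cast_sub (by omega)]
    push_cast
    linarith

/-- the density of the residue classes removed at `p` -/
noncomputable def gg (ρ s c p : ℕ) : ℝ := ww ρ s c p / mm ρ p

theorem gg_prop (ρ s c p : ℕ) (hp : p.Prime) :
    0 ≤ gg ρ s c p ∧ gg ρ s c p ≤ 2 / p ∧ gg ρ s c p ≤ 2 / 3 ∧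
      ((¬ p ∣ ρ ∨ p = 2) → gg ρ s c p = (p : ℝ)⁻¹) := by
  have h2 := hp.two_le
  have h2R : (2 : ℝ) ≤ p := by exact_mod_cast h2
  have hp0 : (0 : ℝ) < p := by linarith
  refine ⟨div_nonneg (ww_nonneg _ _ _ _) (Nat.cast_nonneg _), ?_⟩
  unfold gg mm ww
  by_cases h : p ∣ ρ
  · rw [if_pos h, if_pos h]
    by_cases h3 : p = 2
    · rw [if_pos h3, if_pos h3]
      subst h3
      refine ⟨by norm_num, by norm_num, fun _ => by norm_num⟩
    · rw [if_neg h3, if_neg h3]
      have h4 := (local_odd ρ s c p hp h3 h).2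
      have h5 : (3 : ℝ) ≤ p := by
        have : 3 ≤ p := by omega
        exact_mod_cast this
      have h6 : ws (ρ + 1) s c p / p ≤ 2 / p := div_le_div_of_nonneg_right h4 hp0.le
      refine ⟨h6, h6.trans (div_le_div_of_nonneg_left (by norm_num) (by norm_num) h5), ?_⟩
      rintro (h7 | h7)
      · exact absurd h h7
      · exact absurd h7 h3
  · rw [if_neg h, if_neg h]
    refine ⟨div_le_div_of_nonneg_right (by norm_num) hp0.le, ?_, fun _ => by rw [one_div]⟩
    rw [div_le_div_iff₀ hp0 (by norm_num)]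
    linarith

/-- the sieve bounds in one block -/
theorem block_sieve (ρ s c T H : ℕ) :
    (1 / 2) * (H : ℝ) * VV (PA T) (gg ρ s c) - (Z T : ℝ) ^ 205 ≤
      ∑ t ∈ range H, VV (PA T) (ind (AA (ρ + 1) s c) t) ∧
    ∑ t ∈ range H, VV (PA T) (ind (AA (ρ + 1) s c) t) ≤
      2 * (H : ℝ) * VV (PA T) (gg ρ s c) + (Z T : ℝ) ^ 205 := by
  refine brun_hooley T (range H) (AA (ρ + 1) s c) (gg ρ s c) H (Nat.cast_nonneg _)
    (fun p hp => (gg_prop ρ s c p (mem_PA.1 hp).1).1)
    (fun p hp => (gg_prop ρ s c p (mem_PA.1 hp).1).2.1)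
    (fun p hp => (gg_prop ρ s c p (mem_PA.1 hp).1).2.2.1) ?_
  intro S hS
  exact remainder (AA (ρ + 1) s c) (mm ρ) (qq ρ) (ww ρ s c) S (fun p hp => (mem_PA.1 (hS hp)).1)
    (fun p hp => local_all ρ s c p (mem_PA.1 (hS hp)).1) (fun p _ => ww_nonneg ρ s c p)
    (fun p hp => qq_mul_ww ρ s c p (mem_PA.1 (hS hp)).1) H

end Pool.Concat
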