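import Pool.Agent.Lib.MP_9dc83d_nt.PartOne

/-!
# The second moment of the number of small prime factors in a block
-/

set_option autoImplicit false

open Finset
open Pool.Agent.Lib.MP_dde2f1_nt.Sieve

namespace Pool.Agent.Lib.MP_9dc83d_nt

/-- the primes up to `y` not dividing `k` -/
def PS (k y : ℕ) : Finset ℕ := (Finset.Icc 1 y).filter (fun p => p.Prime ∧ ¬ p ∣ k)

/-- the indicator of divisibility -/
noncomputable def ind (b p n : ℕ) : ℝ := if p ∣ conc b n then 1 else 0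

lemma PS_prime {k y p : ℕ} (h : p ∈ PS k y) : p.Prime ∧ ¬ p ∣ k ∧ p ≤ y := by
  unfold PS at h
  rw [Finset.mem_filter, Finset.mem_Icc] at h
  exact ⟨h.2.1, h.2.2, h.1.2⟩

lemma sum_ind (b d e : ℕ) :
    ∑ n ∈ blk b d, ind b e n = (((blk b d).filter (fun n => e ∣ conc b n)).card : ℝ) := by
  unfold ind
  rw [← Finset.sum_filter, Finset.sum_const, nsmul_eq_mul, mul_one]

lemma ind_mul (b p q n : ℕ) (h : p.Coprime q) : ind b p n * ind b q n = ind b (p * q) n := by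
  unfold ind
  by_cases h1 : p ∣ conc b n
  · by_cases h2 : q ∣ conc b n
    · rw [if_pos h1, if_pos h2, if_pos (h.mul_dvd_of_dvd_of_dvd h1 h2), one_mul]
    · have h3 : ¬ p * q ∣ conc b n := fun h3 => h2 ((Dvd.intro_left _ rfl).trans h3)
      rw [if_neg h2, if_neg h3, mul_zero]
  · have h3 : ¬ p * q ∣ conc b n := fun h3 => h1 ((Dvd.intro _ rfl).trans h3)
    rw [if_neg h1, if_neg h3, zero_mul]

lemma ind_sq (b p n : ℕ) : ind b p n * ind b p n = ind b p n := by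
  unfold ind
  split_ifs <;> norm_num

lemma prime_coprime (p k : ℕ) (hp : p.Prime) (h : ¬ p ∣ k) : p.Coprime k :=
  (Nat.Prime.coprime_iff_not_dvd hp).2 h

lemma pair_count (b d y p q : ℕ) (hb : 2 ≤ b) (hp : p ∈ PS (kk b d) y)
    (hq : q ∈ PS (kk b d) y) :
    ∑ n ∈ blk b d, ind b p n * ind b q n ≤
      (((b - 1) * b ^ d : ℕ) : ℝ) * ((p : ℝ)⁻¹ * (q : ℝ)⁻¹) + (p : ℝ) * q +
      (if p = q then (((b - 1) * b ^ d : ℕ) : ℝ) * (p : ℝ)⁻¹ + p else 0) := by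
  obtain ⟨hp1, hp2, _⟩ := PS_prime hp
  obtain ⟨hq1, hq2, _⟩ := PS_prime hq
  by_cases h : p = q
  · subst h
    rw [if_pos rfl]
    have h1 := count_dvd b d hb p hp1.squarefree (prime_coprime _ _ hp1 hp2)
    rw [abs_le] at h1
    have h2 : ∑ n ∈ blk b d, ind b p n * ind b p n =
        (((blk b d).filter (fun n => p ∣ conc b n)).card : ℝ) := by
      rw [← sum_ind]
      exact Finset.sum_congr rfl fun n _ => ind_sq b p n
    rw [h2]
    have h3 : (0 : ℝ) ≤ (((b - 1) * b ^ d : ℕ) : ℝ) * ((p : ℝ)⁻¹ * (p : ℝ)⁻¹) + (p : ℝ) * p := by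
      positivity
    have h4 : (((b - 1) * b ^ d : ℕ) : ℝ) / p = (((b - 1) * b ^ d : ℕ) : ℝ) * (p : ℝ)⁻¹ :=
      div_eq_mul_inv _ _
    rw [← h4]
    linarith [h1.2]
  · rw [if_neg h, add_zero]
    have hcop : p.Coprime q := (Nat.coprime_primes hp1 hq1).2 h
    have hsq : Squarefree (p * q) :=
      (Nat.squarefree_mul hcop).2 ⟨hp1.squarefree, hq1.squarefree⟩
    have h1 := count_dvd b d hb (p * q) hsq
      (Nat.Coprime.mul_left (prime_coprime _ _ hp1 hp2) (prime_coprime _ _ hq1 hq2))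
    rw [abs_le] at h1
    have h2 : ∑ n ∈ blk b d, ind b p n * ind b q n =
        (((blk b d).filter (fun n => p * q ∣ conc b n)).card : ℝ) := by
      rw [← sum_ind]
      exact Finset.sum_congr rfl fun n _ => ind_mul b p q n hcop
    rw [h2]
    have h4 : (((b - 1) * b ^ d : ℕ) : ℝ) / ((p * q : ℕ) : ℝ) =
        (((b - 1) * b ^ d : ℕ) : ℝ) * ((p : ℝ)⁻¹ * (q : ℝ)⁻¹) := by
      rw [div_eq_mul_inv]
      push_cast
      rw [mul_inv]
    rw [← h4]
    have h5 : ((p * q : ℕ) : ℝ) = (p : ℝ) * q := by push_cast; ring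
    rw [← h5]
    linarith [h1.2]

lemma card_PS (k y : ℕ) : ((PS k y).card : ℝ) ≤ y := by
  have : (PS k y).card ≤ (Finset.Icc 1 y).card := Finset.card_filter_le _ _
  rw [Nat.card_Icc, Nat.add_sub_cancel] at this
  exact_mod_cast this

lemma sum_PS (k y : ℕ) : ∑ p ∈ PS k y, (p : ℝ) ≤ (y : ℝ) ^ 2 := by
  calc ∑ p ∈ PS k y, (p : ℝ) ≤ ∑ p ∈ PS k y, (y : ℝ) :=
        Finset.sum_le_sum fun p hp => by exact_mod_cast (PS_prime hp).2.2
    _ = ((PS k y).card : ℝ) * y := by rw [Finset.sum_const, nsmul_eq_mul]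
    _ ≤ y * y := by
        have := card_PS k y
        gcongr
    _ = (y : ℝ) ^ 2 := by ring

lemma sum_inv_PS (k y : ℕ) : ∑ p ∈ PS k y, (p : ℝ)⁻¹ ≤ y := by
  calc ∑ p ∈ PS k y, (p : ℝ)⁻¹ ≤ ∑ p ∈ PS k y, (1 : ℝ) := by
        apply Finset.sum_le_sum
        intro p hp
        have h1 : (1 : ℝ) ≤ p := by exact_mod_cast (PS_prime hp).1.one_lt.le
        exact inv_le_one_of_one_le₀ h1
    _ = ((PS k y).card : ℝ) := by rw [Finset.sum_const, nsmul_eq_mul, mul_one]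
    _ ≤ y := card_PS k y

/-- **the second moment** -/
lemma second_moment (b d y : ℕ) (hb : 2 ≤ b) (hy : 1 ≤ y) :
    ∑ n ∈ blk b d, (∑ p ∈ PS (kk b d) y, ind b p n - ∑ p ∈ PS (kk b d) y, (p : ℝ)⁻¹) ^ 2 ≤
      (((b - 1) * b ^ d : ℕ) : ℝ) * ∑ p ∈ PS (kk b d) y, (p : ℝ)⁻¹ + 4 * (y : ℝ) ^ 4 := by
  set P := PS (kk b d) y with hP
  set S := ∑ p ∈ P, (p : ℝ)⁻¹ with hS
  set H := (((b - 1) * b ^ d : ℕ) : ℝ) with hH
  have hS0 : 0 ≤ S := Finset.sum_nonneg fun p _ => by positivity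
  have hy' : (1 : ℝ) ≤ y := by exact_mod_cast hy
  -- expansion
  have hexp : ∑ n ∈ blk b d, (∑ p ∈ P, ind b p n - S) ^ 2 =
      ∑ p ∈ P, ∑ q ∈ P, ∑ n ∈ blk b d, ind b p n * ind b q n -
        2 * S * ∑ p ∈ P, ∑ n ∈ blk b d, ind b p n + H * S ^ 2 := by
    have h1 : ∀ n, (∑ p ∈ P, ind b p n - S) ^ 2 =
        ∑ p ∈ P, ∑ q ∈ P, ind b p n * ind b q n - 2 * S * ∑ p ∈ P, ind b p n + S ^ 2 := by
      intro n
      rw [← Finset.sum_mul_sum]
      ring
    rw [Finset.sum_congr rfl fun n _ => h1 n, Finset.sum_add_distrib, Finset.sum_sub_distrib,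
      ← Finset.mul_sum, Finset.sum_const, card_blk b d hb, nsmul_eq_mul]
    congr 1
    congr 1
    · rw [Finset.sum_comm]
      refine Finset.sum_congr rfl fun p _ => ?_
      rw [Finset.sum_comm]
    · rw [Finset.sum_comm]
  have hA : ∑ p ∈ P, ∑ q ∈ P, ∑ n ∈ blk b d, ind b p n * ind b q n ≤
      H * S ^ 2 + (∑ p ∈ P, (p : ℝ)) ^ 2 + (H * S + ∑ p ∈ P, (p : ℝ)) := by
    calc ∑ p ∈ P, ∑ q ∈ P, ∑ n ∈ blk b d, ind b p n * ind b q n
        ≤ ∑ p ∈ P, ∑ q ∈ P, (H * ((p : ℝ)⁻¹ * (q : ℝ)⁻¹) + (p : ℝ) * q +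
          (if p = q then H * (p : ℝ)⁻¹ + p else 0)) :=
          Finset.sum_le_sum fun p hp => Finset.sum_le_sum fun q hq =>
            pair_count b d y p q hb hp hq
      _ = H * S ^ 2 + (∑ p ∈ P, (p : ℝ)) ^ 2 + (H * S + ∑ p ∈ P, (p : ℝ)) := by
          have e1 : ∀ p ∈ P, ∑ q ∈ P, (H * ((p : ℝ)⁻¹ * (q : ℝ)⁻¹) + (p : ℝ) * q +
              (if p = q then H * (p : ℝ)⁻¹ + p else 0)) =
              H * (∑ q ∈ P, (p : ℝ)⁻¹ * (q : ℝ)⁻¹) + (∑ q ∈ P, (p : ℝ) * q) +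
                (H * (p : ℝ)⁻¹ + p) := by
            intro p hp
            rw [Finset.sum_add_distrib, Finset.sum_add_distrib, ← Finset.mul_sum,
              Finset.sum_ite_eq, if_pos hp]
          rw [Finset.sum_congr rfl e1, Finset.sum_add_distrib, Finset.sum_add_distrib,
            ← Finset.mul_sum, ← Finset.sum_mul_sum, ← Finset.sum_mul_sum,
            Finset.sum_add_distrib, ← Finset.mul_sum]
          ring
  have hB : H * S - ∑ p ∈ P, (p : ℝ) ≤ ∑ p ∈ P, ∑ n ∈ blk b d, ind b p n := by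
    have e1 : H * S - ∑ p ∈ P, (p : ℝ) = ∑ p ∈ P, (H * (p : ℝ)⁻¹ - p) := by
      rw [Finset.sum_sub_distrib, ← Finset.mul_sum]
    rw [e1]
    apply Finset.sum_le_sum
    intro p hp
    obtain ⟨hp1, hp2, _⟩ := PS_prime hp
    have h1 := count_dvd b d hb p hp1.squarefree (prime_coprime _ _ hp1 hp2)
    rw [abs_le] at h1
    rw [sum_ind]
    have h4 : (((b - 1) * b ^ d : ℕ) : ℝ) / p = H * (p : ℝ)⁻¹ := div_eq_mul_inv _ _
    linarith [h1.1]
  have hE1 := sum_PS (kk b d) y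
  have hE2 := sum_inv_PS (kk b d) y
  rw [← hP] at hE1 hE2
  have hT0 : 0 ≤ ∑ p ∈ P, (p : ℝ) := Finset.sum_nonneg fun p _ => by positivity
  rw [hexp]
  set T := ∑ p ∈ P, (p : ℝ) with hT
  have hST : S * T ≤ (y : ℝ) ^ 4 := by
    calc S * T ≤ y * (y : ℝ) ^ 2 := by
          have : S ≤ y := hE2
          gcongr
      _ = (y : ℝ) ^ 3 := by ring
      _ ≤ (y : ℝ) ^ 4 := pow_le_pow_right₀ hy' (by norm_num)
  have hTT : T ^ 2 ≤ (y : ℝ) ^ 4 := by
    calc T ^ 2 ≤ ((y : ℝ) ^ 2) ^ 2 := by gcongr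
      _ = (y : ℝ) ^ 4 := by ring
  have hT1 : T ≤ (y : ℝ) ^ 4 := hE1.trans (pow_le_pow_right₀ hy' (by norm_num))
  have hSB : 2 * S * (H * S - T) ≤ 2 * S * ∑ p ∈ P, ∑ n ∈ blk b d, ind b p n :=
    mul_le_mul_of_nonneg_left hB (by positivity)
  nlinarith

/-- **the lower bound for the sum of the reciprocals** -/
lemma sum_inv_lower (k y : ℕ) (hk : 0 < k) (hy : 1 ≤ y) :
    Real.log (Real.log ((y : ℝ) + 1)) - Real.log ((k : ℝ) / k.totient) - 1 ≤
      ∑ p ∈ PS k y, (p : ℝ)⁻¹ := by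
  have hk' : (0 : ℝ) < k := by exact_mod_cast hk
  have ht : (0 : ℝ) < k.totient := by exact_mod_cast Nat.totient_pos.2 hk
  have hy' : (1 : ℝ) ≤ y := by exact_mod_cast hy
  have hlog : 0 < Real.log ((y : ℝ) + 1) := Real.log_pos (by linarith)
  have h1 := linear_lower k y y hk le_rfl
  have h2 : ∑ a ∈ (PP k y).divisors.filter (· ≤ y), iphi a ≤ ∑ a ∈ (PP k y).divisors, iphi a := by
    apply Finset.sum_le_sum_of_subset_of_nonneg (Finset.filter_subset _ _)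
    intro a _ _
    rw [iphi_apply]
    positivity
  have h3 : ∑ a ∈ (PP k y).divisors, iphi a = ∏ p ∈ (PP k y).primeFactors, (1 + iphi p) :=
    (iphi_mult.prodPrimeFactors_one_add_of_squarefree (PP_squarefree k y)).symm
  have h4 : (PP k y).primeFactors = PS k y := PP_primeFactors k y
  have h5 : ∏ p ∈ PS k y, (1 + iphi p) ≤ Real.exp (∑ p ∈ PS k y, iphi p) := by
    rw [Real.exp_sum]
    apply Finset.prod_le_prod
    · intro p _
      rw [iphi_apply]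
      positivity
    · intro p _
      rw [add_comm]
      exact Real.add_one_le_exp _
  have h6 : ∑ p ∈ PS k y, iphi p ≤ ∑ p ∈ PS k y, (p : ℝ)⁻¹ + 1 := by
    have e1 : ∑ p ∈ PS k y, iphi p = ∑ p ∈ PS k y, (p : ℝ)⁻¹ +
        ∑ p ∈ PS k y, (((p : ℝ) - 1)⁻¹ - (p : ℝ)⁻¹) := by
      rw [← Finset.sum_add_distrib]
      refine Finset.sum_congr rfl fun p hp => ?_
      rw [iphi_prime p (PS_prime hp).1]
      ring
    rw [e1]
    have e2 : ∑ p ∈ PS k y, (((p : ℝ) - 1)⁻¹ - (p : ℝ)⁻¹) ≤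
        ∑ m ∈ Finset.Ico 2 (y + 1), (((m : ℝ) - 1)⁻¹ - (m : ℝ)⁻¹) := by
      apply Finset.sum_le_sum_of_subset_of_nonneg
      · intro p hp
        obtain ⟨h1, _, h3⟩ := PS_prime hp
        rw [Finset.mem_Ico]
        exact ⟨h1.two_le, by omega⟩
      · intro m hm _
        rw [Finset.mem_Ico] at hm
        have : (2 : ℝ) ≤ m := by exact_mod_cast hm.1
        have h7 : (m : ℝ)⁻¹ ≤ ((m : ℝ) - 1)⁻¹ := inv_anti₀ (by linarith) (by linarith)
        linarith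
    have e3 : ∀ N : ℕ, 1 ≤ N → ∑ m ∈ Finset.Ico 2 (N + 1), (((m : ℝ) - 1)⁻¹ - (m : ℝ)⁻¹) =
        1 - (N : ℝ)⁻¹ := by
      intro N hN
      induction N, hN using Nat.le_induction with
      | base => simp
      | succ N hN ih =>
        rw [Finset.sum_Ico_succ_top (by omega), ih]
        push_cast
        ring
    rw [e3 y hy] at e2
    have : (0 : ℝ) ≤ (y : ℝ)⁻¹ := by positivity
    linarith
  have h7 : ((k.totient : ℝ) / k) * Real.log ((y : ℝ) + 1) ≤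
      Real.exp (∑ p ∈ PS k y, (p : ℝ)⁻¹ + 1) := by
    calc ((k.totient : ℝ) / k) * Real.log ((y : ℝ) + 1)
        ≤ ∏ p ∈ (PP k y).primeFactors, (1 + iphi p) := by
          rw [← h3]
          exact h1.trans h2
      _ = ∏ p ∈ PS k y, (1 + iphi p) := by rw [h4]
      _ ≤ Real.exp (∑ p ∈ PS k y, iphi p) := h5
      _ ≤ _ := Real.exp_le_exp.2 h6
  have h8 : Real.log (((k.totient : ℝ) / k) * Real.log ((y : ℝ) + 1)) ≤
      ∑ p ∈ PS k y, (p : ℝ)⁻¹ + 1 := by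
    rw [Real.log_le_iff_le_exp (by positivity)]
    exact h7
  rw [Real.log_mul (by positivity) (by positivity)] at h8
  have h9 : Real.log ((k.totient : ℝ) / k) = - Real.log ((k : ℝ) / k.totient) := by
    rw [← Real.log_inv, inv_div]
  rw [h9] at h8
  linarith

end Pool.Agent.Lib.MP_9dc83d_nt
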