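import Pool.Agent.Lib.MP_9dc83d_nt.Transfer

/-!
# The upper bound for the number of rough terms
-/

set_option autoImplicit false

open Finset
open Pool.Agent.Lib.MP_dde2f1_nt.Sieve

namespace Pool.Agent.Lib.MP_9dc83d_nt

lemma kk_log (b d : ℕ) (hb : 2 ≤ b) :
    Real.log (kk b d) ≤ ((2 * (d + 1) * b : ℕ) : ℝ) := by
  have h1 : kk b d ≤ b ^ (2 * (d + 1)) := by
    unfold kk
    have e : b ^ (2 * (d + 1)) = b ^ (d + 1) * b ^ (d + 1) := by
      rw [two_mul, pow_add]
    rw [e]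
    exact Nat.mul_le_mul_left _ (Nat.sub_le _ _)
  have h2 : ((kk b d : ℕ) : ℝ) ≤ (b : ℝ) ^ (2 * (d + 1)) := by exact_mod_cast h1
  have h3 : (0 : ℝ) < (kk b d : ℕ) := by exact_mod_cast kk_pos b d hb
  have h4 := Real.log_le_log h3 h2
  rw [Real.log_pow] at h4
  have h5 : Real.log b ≤ b := by
    have h6 : (0 : ℝ) < b := by
      have : 0 < b := by omega
      exact_mod_cast this
    exact (Real.log_le_sub_one_of_pos h6).trans (by linarith)
  refine h4.trans ?_
  push_cast
  gcongr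

/-- the ratio `kk / φ(kk)` -/
lemma kk_tot : ∃ K : ℝ, 0 < K ∧ ∀ b d : ℕ, 2 ≤ b →
    (kk b d : ℝ) / (kk b d).totient ≤ K * (Real.log (2 * b) + 1) * Real.log ((d : ℝ) + 3) := by
  obtain ⟨C, hC, h⟩ := tot_bound
  refine ⟨C, hC, ?_⟩
  intro b d hb
  have hb' : (2 : ℝ) ≤ b := by exact_mod_cast hb
  have h1 := h (kk b d) (2 * (d + 1) * b) (kk_pos b d hb) (by nlinarith) (kk_log b d hb)
  refine h1.trans ?_
  have hd : (0 : ℝ) ≤ d := Nat.cast_nonneg d
  have h2 : Real.log ((2 * (d + 1) * b : ℕ) : ℝ) ≤ Real.log (2 * b) + Real.log ((d : ℝ) + 3) := by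
    rw [← Real.log_mul (by positivity) (by positivity)]
    apply Real.log_le_log
    · push_cast
      positivity
    · push_cast
      nlinarith
  have h3 := one_le_log d
  have h4 : 0 < Real.log (2 * b) := Real.log_pos (by linarith)
  have h5 : Real.log ((2 * (d + 1) * b : ℕ) : ℝ) ≤
      (Real.log (2 * b) + 1) * Real.log ((d : ℝ) + 3) := by
    refine h2.trans ?_
    nlinarith
  calc C * Real.log ((2 * (d + 1) * b : ℕ) : ℝ)
      ≤ C * ((Real.log (2 * b) + 1) * Real.log ((d : ℝ) + 3)) :=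
        mul_le_mul_of_nonneg_left h5 hC.le
    _ = C * (Real.log (2 * b) + 1) * Real.log ((d : ℝ) + 3) := by ring

lemma rough_coprime (b d n : ℕ) (hb : 2 ≤ b) (hn : b ^ d ≤ n)
    (h : n < (conc b n).minFac ^ 5) :
    Nat.Coprime (PP (kk b d) (b ^ (d / 5))) (conc b n) := by
  unfold PP
  apply Nat.Coprime.prod_left
  intro p hp
  rw [Finset.mem_filter, Finset.mem_Icc] at hp
  rw [Nat.Prime.coprime_iff_not_dvd hp.2.1]
  intro hdvd
  have h0 := Nat.minFac_le_of_dvd hp.2.1.two_le hdvd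
  have h1 : (conc b n).minFac ^ 5 ≤ p ^ 5 := Nat.pow_le_pow_left h0 5
  have h2 : p ^ 5 ≤ (b ^ (d / 5)) ^ 5 := Nat.pow_le_pow_left hp.1.2 5
  have h3 : (b ^ (d / 5)) ^ 5 ≤ b ^ d := by
    rw [← pow_mul]
    exact Nat.pow_le_pow_right (by omega) (by omega)
  omega

/-- the weight of the first part -/
noncomputable def w1 (d : ℕ) : ℝ := Real.log ((d : ℝ) + 3) / ((d : ℝ) + 3)

lemma w1_ge (d : ℕ) : 1 / ((d : ℝ) + 3) ≤ w1 d := by
  unfold w1
  have := one_le_log d
  gcongr

lemma w1_nonneg (d : ℕ) : 0 ≤ w1 d := by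
  have h1 := one_le_log d
  unfold w1
  positivity

lemma w1_step (d : ℕ) : 3 * w1 d ≤ 4 * w1 (d + 1) := by
  unfold w1
  have hd : (0 : ℝ) ≤ d := Nat.cast_nonneg d
  have h1 := one_le_log d
  have h2 : Real.log ((d : ℝ) + 3) ≤ Real.log (((d + 1 : ℕ) : ℝ) + 3) := by
    apply Real.log_le_log (by positivity)
    push_cast
    linarith
  have h3 : 3 * (Real.log ((d : ℝ) + 3) / ((d : ℝ) + 3)) ≤
      4 * (Real.log ((d : ℝ) + 3) / (((d + 1 : ℕ) : ℝ) + 3)) := by
    rw [← mul_div_assoc, ← mul_div_assoc, div_le_div_iff₀ (by positivity) (by positivity)]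
    push_cast
    nlinarith
  refine h3.trans ?_
  gcongr

/-- the block bound for the rough terms -/
lemma rough_block (b : ℕ) (hb : 2 ≤ b) : ∃ C : ℝ, 0 ≤ C ∧ ∀ (d : ℕ),
    (((blk b d).filter (fun n => n < (conc b n).minFac ^ 5)).card : ℝ) ≤
      C * (b : ℝ) ^ d * w1 d := by
  obtain ⟨K, hK, hK2⟩ := kk_tot
  have hb' : (2 : ℝ) ≤ b := by exact_mod_cast hb
  have hlog2 : 0 < Real.log 2 := Real.log_pos (by norm_num)
  have hlogb : Real.log 2 ≤ Real.log b := Real.log_le_log (by norm_num) hb'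
  have hlog2b : 0 < Real.log (2 * b) := Real.log_pos (by linarith)
  refine ⟨b * (K * (Real.log (2 * b) + 1)) * 12 / Real.log 2 + 12 + 7 * b, by positivity, ?_⟩
  intro d
  have hd : (0 : ℝ) ≤ d := Nat.cast_nonneg d
  have hw := w1_ge d
  have hw0 := w1_nonneg d
  have hone := one_le_log d
  have hbd : (0 : ℝ) < (b : ℝ) ^ d := by positivity
  rcases Nat.lt_or_ge d 5 with h5 | h5
  · have h1 : (((blk b d).filter (fun n => n < (conc b n).minFac ^ 5)).card :
        ℝ) ≤ b * (b : ℝ) ^ d := by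
      have h2 := Finset.card_filter_le (blk b d)
        (fun n => n < (conc b n).minFac ^ 5)
      rw [card_blk b d hb] at h2
      have h3 : (b - 1) * b ^ d ≤ b * b ^ d := Nat.mul_le_mul_right _ (Nat.sub_le _ _)
      exact_mod_cast h2.trans h3
    have h4 : (d : ℝ) ≤ 4 := by
      have : d ≤ 4 := by omega
      exact_mod_cast this
    have h6 : 1 ≤ 7 * w1 d := by
      have h7 : (1 : ℝ) / 7 ≤ 1 / ((d : ℝ) + 3) := by
        apply one_div_le_one_div_of_le (by positivity)
        linarith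
      linarith
    have h8 : (b : ℝ) * (b : ℝ) ^ d ≤ (7 * b) * (b : ℝ) ^ d * w1 d := by
      have : (b : ℝ) * (b : ℝ) ^ d * 1 ≤ (b : ℝ) * (b : ℝ) ^ d * (7 * w1 d) := by gcongr
      linarith
    refine h1.trans (h8.trans ?_)
    have h9 : 0 ≤ (b * (K * (Real.log (2 * b) + 1)) * 12 / Real.log 2 + 12) * (b : ℝ) ^ d *
      w1 d := by positivity
    linarith
  · have h12 : d + 3 ≤ 12 * (d / 5) := by omega
    have h12' : ((d : ℝ) + 3) / 12 ≤ ((d / 5 : ℕ) : ℝ) := by
      rw [div_le_iff₀ (by norm_num)]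
      have : ((d + 3 : ℕ) : ℝ) ≤ ((12 * (d / 5) : ℕ) : ℝ) := by exact_mod_cast h12
      push_cast at this
      push_cast
      linarith
    have hy : 1 ≤ b ^ (d / 5) := Nat.one_le_pow _ _ (by omega)
    have hbb := block_bound b d (b ^ (d / 5)) hb hy
    have hsub : ((blk b d).filter (fun n => n < (conc b n).minFac ^ 5)).card ≤
        ((blk b d).filter (fun n => Nat.Coprime (PP (kk b d) (b ^ (d / 5))) (conc b n))).card := by
      apply Finset.card_le_card
      intro n hn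
      rw [Finset.mem_filter] at hn ⊢
      refine ⟨hn.1, ?_⟩
      have h1 := hn.1
      unfold blk at h1
      rw [Finset.mem_Ico] at h1
      exact rough_coprime b d n hb h1.1 hn.2
    have hsub' : (((blk b d).filter (fun n => n < (conc b n).minFac ^ 5)).card : ℝ) ≤ (((blk b d).filter
          (fun n => Nat.Coprime (PP (kk b d) (b ^ (d / 5))) (conc b n))).card : ℝ) := by
      exact_mod_cast hsub
    refine hsub'.trans (hbb.trans ?_)
    -- the logarithm of the level
    have hlevel : ((d : ℝ) + 3) / 12 * Real.log 2 ≤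
        Real.log ((((b ^ (d / 5) : ℕ)) : ℝ) + 1) := by
      have h1 : Real.log ((((b ^ (d / 5) : ℕ)) : ℝ)) ≤
          Real.log ((((b ^ (d / 5) : ℕ)) : ℝ) + 1) := by
        apply Real.log_le_log
        · exact_mod_cast hy
        · linarith
      refine le_trans ?_ h1
      push_cast
      rw [Real.log_pow]
      gcongr
    have hmain : (((b - 1) * b ^ d : ℕ) : ℝ) * ((kk b d : ℝ) / (kk b d).totient) /
        Real.log ((((b ^ (d / 5) : ℕ)) : ℝ) + 1) ≤
        (b * (K * (Real.log (2 * b) + 1)) * 12 / Real.log 2) * (b : ℝ) ^ d * w1 d := by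
      have h1 : (((b - 1) * b ^ d : ℕ) : ℝ) ≤ b * (b : ℝ) ^ d := by
        have h3 : (b - 1) * b ^ d ≤ b * b ^ d := Nat.mul_le_mul_right _ (Nat.sub_le _ _)
        exact_mod_cast h3
      have h2 := hK2 b d hb
      have h3 : (0 : ℝ) ≤ (kk b d : ℝ) / (kk b d).totient := by positivity
      calc (((b - 1) * b ^ d : ℕ) : ℝ) * ((kk b d : ℝ) / (kk b d).totient) /
          Real.log ((((b ^ (d / 5) : ℕ)) : ℝ) + 1)
          ≤ (b * (b : ℝ) ^ d) * (K * (Real.log (2 * b) + 1) * Real.log ((d : ℝ) + 3)) /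
            (((d : ℝ) + 3) / 12 * Real.log 2) := by gcongr
        _ = (b * (K * (Real.log (2 * b) + 1)) * 12 / Real.log 2) * (b : ℝ) ^ d * w1 d := by
            unfold w1
            field_simp
    have herr : ((((b ^ (d / 5) : ℕ)) : ℝ)) ^ 4 ≤ 12 * (b : ℝ) ^ d * w1 d := by
      have h1 : ((b ^ (d / 5)) ^ 4) * b ^ (d / 5) ≤ b ^ d := by
        rw [← pow_mul, ← pow_add]
        exact Nat.pow_le_pow_right (by omega) (by omega)
      have h2 : ((d / 5 : ℕ) : ℝ) ≤ (b : ℝ) ^ (d / 5) := by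
        have h3 : d / 5 ≤ b ^ (d / 5) := (Nat.lt_pow_self (by omega)).le
        exact_mod_cast h3
      have h3 : ((((b ^ (d / 5) : ℕ)) : ℝ)) ^ 4 * (b : ℝ) ^ (d / 5) ≤ (b : ℝ) ^ d := by
        exact_mod_cast h1
      have h4 : ((((b ^ (d / 5) : ℕ)) : ℝ)) ^ 4 * (((d : ℝ) + 3) / 12) ≤ (b : ℝ) ^ d := by
        refine le_trans ?_ h3
        have : ((d : ℝ) + 3) / 12 ≤ (b : ℝ) ^ (d / 5) := h12'.trans h2
        gcongr
      have h5 : ((((b ^ (d / 5) : ℕ)) : ℝ)) ^ 4 ≤ (b : ℝ) ^ d * (12 * (1 / ((d : ℝ) + 3))) := by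
        have h6 : (b : ℝ) ^ d * (12 * (1 / ((d : ℝ) + 3))) =
            (b : ℝ) ^ d / (((d : ℝ) + 3) / 12) := by
          field_simp
        rw [h6, le_div_iff₀ (by positivity)]
        exact h4
      refine h5.trans ?_
      have h7 : (b : ℝ) ^ d * (12 * (1 / ((d : ℝ) + 3))) ≤ (b : ℝ) ^ d * (12 * w1 d) := by
        gcongr
      linarith
    have h9 : 0 ≤ (7 * b) * (b : ℝ) ^ d * w1 d := by positivity
    linarith

/-- **the rough terms** -/
theorem rough_count (b : ℕ) (hb : 2 ≤ b) : ∃ C : ℝ, ∀ x : ℕ, 16 ≤ x →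
    (((Finset.Icc 1 x).filter
      (fun n => n < (conc b n).minFac ^ 5)).card : ℝ) ≤
      C * x * Real.log (Real.log x) / Real.log x := by
  obtain ⟨C, hC, h⟩ := rough_block b hb
  have hb' : (2 : ℝ) ≤ b := by exact_mod_cast hb
  have hlogb : 0 < Real.log b := Real.log_pos (by linarith)
  refine ⟨2 * C * b * 3 * Real.log b, ?_⟩
  intro x hx
  have h1 := transfer b hb (fun n => n < (conc b n).minFac ^ 5) w1
    w1_nonneg w1_step C hC (fun d => by convert h d) x (by omega)
  have h2 := log_D b x hb hx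
  have h3 := log_lt b x hb (by omega)
  have h4 := log_sixteen x hx
  have h5 := loglog_ge x hx
  have h6 : w1 (Nat.log b x + 1) ≤ 3 * Real.log (Real.log x) * Real.log b / Real.log x := by
    unfold w1
    have h7 : (0 : ℝ) < ((Nat.log b x + 1 : ℕ) : ℝ) + 3 := by positivity
    have h8 : Real.log x / Real.log b ≤ ((Nat.log b x + 1 : ℕ) : ℝ) + 3 := by
      rw [div_le_iff₀ hlogb]
      nlinarith
    calc Real.log (((Nat.log b x + 1 : ℕ) : ℝ) + 3) / (((Nat.log b x + 1 : ℕ) : ℝ) + 3)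
        ≤ 3 * Real.log (Real.log x) / (Real.log x / Real.log b) := by
          have : 0 < Real.log x / Real.log b := by positivity
          gcongr
      _ = 3 * Real.log (Real.log x) * Real.log b / Real.log x := by
          field_simp
  refine le_trans (by convert h1) ?_
  calc 2 * C * b * x * w1 (Nat.log b x + 1)
      ≤ 2 * C * b * x * (3 * Real.log (Real.log x) * Real.log b / Real.log x) := by gcongr
    _ = 2 * C * b * 3 * Real.log b * x * Real.log (Real.log x) / Real.log x := by ring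

/-- **the prime terms** -/
lemma prime_rough (b n : ℕ) (hb : 2 ≤ b) (h : (conc b n).Prime) :
    n < (conc b n).minFac ^ 5 := by
  rw [h.minFac_eq]
  have h2 := le_conc b n hb
  have h3 : (conc b n) ^ 1 < (conc b n) ^ 5 := Nat.pow_lt_pow_right h.one_lt (by norm_num)
  rw [pow_one] at h3
  omega

end Pool.Agent.Lib.MP_9dc83d_nt
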