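import Pool.Agent.Lib.MP_9dc83d_nt.Moment

/-!
# Almost all terms have many prime factors
-/

set_option autoImplicit false

open Finset

namespace Pool.Agent.Lib.MP_9dc83d_nt

/-- the weight of the second part -/
noncomputable def w2 (d : ℕ) : ℝ := 1 / Real.log ((d : ℝ) + 3)

lemma w2_nonneg (d : ℕ) : 0 ≤ w2 d := by
  have h1 := one_le_log d
  unfold w2
  positivity

lemma w2_step (d : ℕ) : 3 * w2 d ≤ 4 * w2 (d + 1) := by
  unfold w2
  have hd : (0 : ℝ) ≤ d := Nat.cast_nonneg d
  have h1 := one_le_log d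
  have h1' := one_le_log (d + 1)
  have h2 : Real.log (((d + 1 : ℕ) : ℝ) + 3) ≤ Real.log ((d : ℝ) + 3) + 1 / 3 := by
    have e1 : ((d + 1 : ℕ) : ℝ) + 3 = ((d : ℝ) + 3) * (1 + 1 / ((d : ℝ) + 3)) := by
      push_cast
      field_simp
      ring
    rw [e1, Real.log_mul (by positivity) (by positivity)]
    have h3 : Real.log (1 + 1 / ((d : ℝ) + 3)) ≤ 1 / ((d : ℝ) + 3) := by
      have := Real.log_le_sub_one_of_pos (x := 1 + 1 / ((d : ℝ) + 3)) (by positivity)
      linarith
    have h4 : 1 / ((d : ℝ) + 3) ≤ 1 / 3 := by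
      apply one_div_le_one_div_of_le (by norm_num)
      linarith
    linarith
  rw [mul_one_div, mul_one_div, div_le_div_iff₀ (by linarith) (by linarith)]
  linarith

/-- Chebyshev's inequality in a block -/
lemma cheb (b d y : ℕ) (hb : 2 ≤ b) (hy : 1 ≤ y) (u : ℝ)
    (hu : u ≤ ∑ p ∈ PS (kk b d) y, (p : ℝ)⁻¹) :
    (((blk b d).filter (fun n => (((conc b n).primeFactors.card : ℕ) : ℝ) < u)).card : ℝ) *
      (∑ p ∈ PS (kk b d) y, (p : ℝ)⁻¹ - u) ^ 2 ≤
      (((b - 1) * b ^ d : ℕ) : ℝ) * ∑ p ∈ PS (kk b d) y, (p : ℝ)⁻¹ + 4 * (y : ℝ) ^ 4 := by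
  refine le_trans ?_ (second_moment b d y hb hy)
  set S := ∑ p ∈ PS (kk b d) y, (p : ℝ)⁻¹ with hS
  calc (((blk b d).filter (fun n => (((conc b n).primeFactors.card : ℕ) : ℝ) < u)).card : ℝ) *
        (S - u) ^ 2
      = ∑ n ∈ (blk b d).filter (fun n => (((conc b n).primeFactors.card : ℕ) : ℝ) < u),
          (S - u) ^ 2 := by rw [Finset.sum_const, nsmul_eq_mul]
    _ ≤ ∑ n ∈ (blk b d).filter (fun n => (((conc b n).primeFactors.card : ℕ) : ℝ) < u),
          (∑ p ∈ PS (kk b d) y, ind b p n - S) ^ 2 := by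
        apply Finset.sum_le_sum
        intro n hn
        rw [Finset.mem_filter] at hn
        have hn1 : b ^ d ≤ n := by
          have := hn.1
          unfold blk at this
          rw [Finset.mem_Ico] at this
          exact this.1
        have hn0 : 1 ≤ n := (Nat.one_le_pow _ _ (by omega)).trans hn1
        have hc0 : conc b n ≠ 0 := by
          have := le_conc b n hb
          omega
        have h1 : ∑ p ∈ PS (kk b d) y, ind b p n ≤ (((conc b n).primeFactors.card : ℕ) : ℝ) := by
          unfold ind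
          rw [← Finset.sum_filter, Finset.sum_const, nsmul_eq_mul, mul_one]
          have h2 : (PS (kk b d) y).filter (fun p => p ∣ conc b n) ⊆ (conc b n).primeFactors := by
            intro p hp
            rw [Finset.mem_filter] at hp
            exact Nat.mem_primeFactors.2 ⟨(PS_prime hp.1).1, hp.2, hc0⟩
          exact_mod_cast Finset.card_le_card h2
        have h3 : 0 ≤ S - u := by linarith
        have h4 : S - u ≤ S - ∑ p ∈ PS (kk b d) y, ind b p n := by linarith [hn.2]
        have h5 := pow_le_pow_left₀ h3 h4 2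
        calc (S - u) ^ 2 ≤ (S - ∑ p ∈ PS (kk b d) y, ind b p n) ^ 2 := h5
          _ = _ := by ring
    _ ≤ _ := by
        apply Finset.sum_le_sum_of_subset_of_nonneg (Finset.filter_subset _ _)
        intro n _ _
        positivity

/-- the sum of the reciprocals in terms of the block -/
lemma S_lower (b : ℕ) (hb : 2 ≤ b) : ∃ A : ℝ, 0 ≤ A ∧ ∀ d : ℕ, 5 ≤ d →
    Real.log ((d : ℝ) + 3) - Real.log (Real.log ((d : ℝ) + 3)) - A ≤
      ∑ p ∈ PS (kk b d) (b ^ (d / 5)), (p : ℝ)⁻¹ := by
  obtain ⟨K, hK, hK2⟩ := kk_tot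
  have hb' : (2 : ℝ) ≤ b := by exact_mod_cast hb
  have hlog2 : 0 < Real.log 2 := Real.log_pos (by norm_num)
  have hlogb : Real.log 2 ≤ Real.log b := Real.log_le_log (by norm_num) hb'
  have hlog2b : 0 < Real.log (2 * b) := Real.log_pos (by linarith)
  refine ⟨|Real.log (Real.log 2 / 12)| + |Real.log (K * (Real.log (2 * b) + 1))| + 1,
    by positivity, ?_⟩
  intro d h5
  have hd : (0 : ℝ) ≤ d := Nat.cast_nonneg d
  have hone := one_le_log d
  have h12 : d + 3 ≤ 12 * (d / 5) := by omega
  have h12' : ((d : ℝ) + 3) / 12 ≤ ((d / 5 : ℕ) : ℝ) := by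
    rw [div_le_iff₀ (by norm_num)]
    have : ((d + 3 : ℕ) : ℝ) ≤ ((12 * (d / 5) : ℕ) : ℝ) := by exact_mod_cast h12
    push_cast at this
    linarith
  have hy : 1 ≤ b ^ (d / 5) := Nat.one_le_pow _ _ (by omega)
  have hlevel : ((d : ℝ) + 3) * (Real.log 2 / 12) ≤
      Real.log ((((b ^ (d / 5) : ℕ)) : ℝ) + 1) := by
    have h1 : Real.log ((((b ^ (d / 5) : ℕ)) : ℝ)) ≤
        Real.log ((((b ^ (d / 5) : ℕ)) : ℝ) + 1) := by
      apply Real.log_le_log
      · exact_mod_cast hy
      · linarith
    refine le_trans ?_ h1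
    push_cast
    rw [Real.log_pow]
    calc ((d : ℝ) + 3) * (Real.log 2 / 12) = ((d : ℝ) + 3) / 12 * Real.log 2 := by ring
      _ ≤ ((d / 5 : ℕ) : ℝ) * Real.log b := by gcongr
  have h1 := sum_inv_lower (kk b d) (b ^ (d / 5)) (kk_pos b d hb) hy
  have h2 : Real.log ((d : ℝ) + 3) + Real.log (Real.log 2 / 12) ≤
      Real.log (Real.log ((((b ^ (d / 5) : ℕ)) : ℝ) + 1)) := by
    rw [← Real.log_mul (by positivity) (by positivity)]
    exact Real.log_le_log (by positivity) hlevel
  have h3 : Real.log ((kk b d : ℝ) / (kk b d).totient) ≤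
      Real.log (K * (Real.log (2 * b) + 1)) + Real.log (Real.log ((d : ℝ) + 3)) := by
    rw [← Real.log_mul (by positivity) (by positivity)]
    apply Real.log_le_log _ (hK2 b d hb)
    have h4 : (0 : ℝ) < kk b d := by exact_mod_cast kk_pos b d hb
    have h5 : (0 : ℝ) < (kk b d).totient := by exact_mod_cast Nat.totient_pos.2 (kk_pos b d hb)
    positivity
  have h4 := neg_abs_le (Real.log (Real.log 2 / 12))
  have h5 := le_abs_self (Real.log (K * (Real.log (2 * b) + 1)))
  linarith

/-- the block bound for the terms with few prime factors -/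
lemma few_block (b : ℕ) (hb : 2 ≤ b) (c : ℝ) (hc : c < 1) : ∃ C : ℝ, 0 ≤ C ∧ ∀ (d : ℕ),
    (((blk b d).filter (fun n => (((conc b n).primeFactors.card : ℕ) : ℝ) <
      c * Real.log (Real.log n))).card : ℝ) ≤ C * (b : ℝ) ^ d * w2 d := by
  obtain ⟨A, hA, hAS⟩ := S_lower b hb
  have hb' : (2 : ℝ) ≤ b := by exact_mod_cast hb
  have hlog2 : 0 < Real.log 2 := Real.log_pos (by norm_num)
  have hlogb : Real.log 2 ≤ Real.log b := Real.log_le_log (by norm_num) hb'
  set g := max c 0 with hg
  have hg0 : 0 ≤ g := le_max_right _ _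
  have hg1 : g < 1 := max_lt hc (by norm_num)
  have hcg : c ≤ g := le_max_left _ _
  set e := (1 - g) / 2 with he
  have he0 : 0 < e := by
    rw [he]
    linarith
  have he1 : e ≤ 1 / 2 := by
    rw [he]
    linarith
  -- the threshold
  set t₁ := |(A + g * Real.log b - 1 - Real.log (e / 2)) / (e / 2)| + 3 with ht₁
  have ht₁' : 3 ≤ t₁ := by
    rw [ht₁]
    have := abs_nonneg ((A + g * Real.log b - 1 - Real.log (e / 2)) / (e / 2))
    linarith
  refine ⟨b * (10 / e ^ 2 + t₁), by positivity, ?_⟩
  intro d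
  have hd : (0 : ℝ) ≤ d := Nat.cast_nonneg d
  have hone := one_le_log d
  have hbd : (0 : ℝ) < (b : ℝ) ^ d := by positivity
  have hH : (((b - 1) * b ^ d : ℕ) : ℝ) ≤ b * (b : ℝ) ^ d := by
    have h3 : (b - 1) * b ^ d ≤ b * b ^ d := Nat.mul_le_mul_right _ (Nat.sub_le _ _)
    exact_mod_cast h3
  by_cases ht : Real.log ((d : ℝ) + 3) ≤ t₁
  · have h1 : (((blk b d).filter (fun n => (((conc b n).primeFactors.card : ℕ) : ℝ) <
        c * Real.log (Real.log n))).card : ℝ) ≤ b * (b : ℝ) ^ d := by
      have h2 := Finset.card_filter_le (blk b d)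
        (fun n => (((conc b n).primeFactors.card : ℕ) : ℝ) < c * Real.log (Real.log n))
      rw [card_blk b d hb] at h2
      refine le_trans ?_ hH
      exact_mod_cast h2
    refine h1.trans ?_
    have h2 : 1 ≤ t₁ * w2 d := by
      unfold w2
      rw [mul_one_div, le_div_iff₀ (by linarith)]
      linarith
    have h3 := w2_nonneg d
    have h4 : (b : ℝ) * (b : ℝ) ^ d * 1 ≤ (b : ℝ) * (b : ℝ) ^ d * (t₁ * w2 d) := by gcongr
    have h5 : 0 ≤ b * (10 / e ^ 2) * (b : ℝ) ^ d * w2 d := by positivity
    linarith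
  · push Not at ht
    set t := Real.log ((d : ℝ) + 3) with htt
    have ht3 : 3 < t := by linarith
    -- `d ≥ 5`
    have hd5 : 5 ≤ d := by
      by_contra h
      push Not at h
      have h1 : (d : ℝ) + 3 ≤ 7 := by
        have : (d : ℝ) ≤ 4 := by
          have : d ≤ 4 := by omega
          exact_mod_cast this
        linarith
      have h2 : t ≤ Real.log 7 := Real.log_le_log (by positivity) h1
      have h3 : Real.log 7 ≤ 3 := by
        rw [Real.log_le_iff_le_exp (by norm_num)]
        have h4 : (7 : ℝ) ≤ (1 + 1) ^ 3 := by norm_num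
        have h5 : (1 + 1 : ℝ) ≤ Real.exp 1 := Real.add_one_le_exp 1
        have h6 : Real.exp 3 = Real.exp 1 ^ 3 := by
          rw [← Real.exp_nat_mul]
          norm_num
        rw [h6]
        exact h4.trans (pow_le_pow_left₀ (by norm_num) h5 3)
      linarith
    have hS := hAS d hd5
    set y := b ^ (d / 5) with hy
    have hy1 : 1 ≤ y := Nat.one_le_pow _ _ (by omega)
    set S := ∑ p ∈ PS (kk b d) y, (p : ℝ)⁻¹ with hSS
    rw [← htt] at hS
    -- the main inequality
    have hkey : g * Real.log b + Real.log t + A ≤ e * t := by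
      have h1 : Real.log (e / 2 * t) ≤ e / 2 * t - 1 :=
        Real.log_le_sub_one_of_pos (by positivity)
      rw [Real.log_mul (by positivity) (by positivity)] at h1
      have h2 : (A + g * Real.log b - 1 - Real.log (e / 2)) / (e / 2) ≤ t := by
        have := le_abs_self ((A + g * Real.log b - 1 - Real.log (e / 2)) / (e / 2))
        linarith
      rw [div_le_iff₀ (by positivity)] at h2
      linarith
    set u := g * (t + Real.log b) with hu
    have hu0 : 0 ≤ u := by positivity
    have hSt : t / 2 ≤ S := by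
      have h1 : e * t ≤ 1 / 2 * t := by gcongr
      have h2 : 0 ≤ g * Real.log b := by positivity
      linarith
    have hSu : u ≤ (1 - e) * S := by
      -- `(1-e) S ≥ (1-e)(t - log t - A)`, and `1 - e = g + e`
      have h1 : 1 - e = g + e := by
        rw [he]
        ring
      have h2 : (1 - e) * (t - Real.log t - A) ≤ (1 - e) * S := by
        apply mul_le_mul_of_nonneg_left hS
        linarith
      have h3 : 0 ≤ Real.log t := Real.log_nonneg (by linarith)
      have h4 : (1 - e) * (Real.log t + A) ≤ Real.log t + A := by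
        apply mul_le_of_le_one_left (by positivity)
        linarith
      have h5 : (1 - e) * t = g * t + e * t := by
        rw [h1]
        ring
      have h6 : (1 - e) * (t - Real.log t - A) = (1 - e) * t - (1 - e) * (Real.log t + A) := by
        ring
      rw [hu]
      linarith
    have hS1 : 1 ≤ S := by linarith
    have huS : u ≤ S := by nlinarith
    have hch := cheb b d y hb hy1 u huS
    -- the inclusion
    have hsub : ((blk b d).filter (fun n => (((conc b n).primeFactors.card : ℕ) : ℝ) <
        c * Real.log (Real.log n))).card ≤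
        ((blk b d).filter (fun n => (((conc b n).primeFactors.card : ℕ) : ℝ) < u)).card := by
      apply Finset.card_le_card
      intro n hn
      rw [Finset.mem_filter] at hn ⊢
      refine ⟨hn.1, hn.2.trans_le ?_⟩
      have hn1 := hn.1
      unfold blk at hn1
      rw [Finset.mem_Ico] at hn1
      have h32 : 2 ^ 5 ≤ b ^ d :=
        (Nat.pow_le_pow_left hb 5).trans (Nat.pow_le_pow_right (by omega) hd5)
      have hn32 : 32 ≤ n := by omega
      have hll := loglog_ge n (by omega)
      have hl := log_sixteen n (by omega)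
      have h2 : Real.log n ≤ ((d : ℝ) + 1) * Real.log b := by
        have h3 : (n : ℝ) ≤ (b : ℝ) ^ (d + 1) := by exact_mod_cast hn1.2.le
        have h4 := Real.log_le_log (by positivity) h3
        rw [Real.log_pow] at h4
        push_cast at h4
        exact h4
      have h3 : Real.log (Real.log n) ≤ t + Real.log b := by
        have hlb : 0 < Real.log b := by linarith
        have h4 := Real.log_le_log (by linarith) h2
        rw [Real.log_mul (by positivity) hlb.ne'] at h4
        have h5 : Real.log ((d : ℝ) + 1) ≤ t :=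
          Real.log_le_log (by positivity) (by linarith)
        have h6 : Real.log (Real.log b) ≤ Real.log b :=
          (Real.log_le_sub_one_of_pos (by linarith)).trans (by linarith)
        linarith
      calc c * Real.log (Real.log n) ≤ g * Real.log (Real.log n) := by gcongr
        _ ≤ g * (t + Real.log b) := by gcongr
    have hsub' : (((blk b d).filter (fun n => (((conc b n).primeFactors.card : ℕ) : ℝ) <
        c * Real.log (Real.log n))).card : ℝ) ≤
        (((blk b d).filter (fun n => (((conc b n).primeFactors.card : ℕ) : ℝ) < u)).card : ℝ) := by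
      exact_mod_cast hsub
    refine hsub'.trans ?_
    set N := (((blk b d).filter (fun n => (((conc b n).primeFactors.card : ℕ) : ℝ) <
      u)).card : ℝ) with hN
    have hN0 : 0 ≤ N := Nat.cast_nonneg _
    have hy4 : ((y : ℕ) : ℝ) ^ 4 ≤ b * (b : ℝ) ^ d := by
      have h1 : y ^ 4 ≤ b ^ d := by
        rw [hy, ← pow_mul]
        exact Nat.pow_le_pow_right (by omega) (by omega)
      have h2 : ((y : ℕ) : ℝ) ^ 4 ≤ (b : ℝ) ^ d := by exact_mod_cast h1
      have h3 : 1 * (b : ℝ) ^ d ≤ b * (b : ℝ) ^ d := by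
        gcongr
        linarith
      linarith
    have h1 : N * (e * S) ^ 2 ≤ b * (b : ℝ) ^ d * (5 * S) := by
      calc N * (e * S) ^ 2 ≤ N * (S - u) ^ 2 := by
            have h2 : e * S ≤ S - u := by linarith
            have h3 : 0 ≤ e * S := by positivity
            gcongr
        _ ≤ (((b - 1) * b ^ d : ℕ) : ℝ) * S + 4 * ((y : ℕ) : ℝ) ^ 4 := hch
        _ ≤ b * (b : ℝ) ^ d * S + 4 * (b * (b : ℝ) ^ d) := by gcongr
        _ ≤ b * (b : ℝ) ^ d * S + 4 * (b * (b : ℝ) ^ d) * S := by
            have : 4 * (b * (b : ℝ) ^ d) * 1 ≤ 4 * (b * (b : ℝ) ^ d) * S := by gcongr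
            linarith
        _ = b * (b : ℝ) ^ d * (5 * S) := by ring
    have hSpos : 0 < S := by linarith
    have h2 : N * e ^ 2 * S ≤ b * (b : ℝ) ^ d * 5 := by
      have h3 : (N * e ^ 2 * S) * S ≤ (b * (b : ℝ) ^ d * 5) * S := by linarith
      exact le_of_mul_le_mul_right h3 hSpos
    have h3 : N * e ^ 2 * (t / 2) ≤ b * (b : ℝ) ^ d * 5 := by
      refine le_trans ?_ h2
      gcongr
    have htpos : 0 < t := by linarith
    have h4 : N ≤ b * (10 / e ^ 2) * (b : ℝ) ^ d * (1 / t) := by
      have h5 : b * (10 / e ^ 2) * (b : ℝ) ^ d * (1 / t) =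
          (b * (b : ℝ) ^ d * 5) / (e ^ 2 * (t / 2)) := by
        field_simp
        ring
      rw [h5, le_div_iff₀ (by positivity)]
      linarith
    refine h4.trans ?_
    unfold w2
    rw [← htt]
    have h6 : 0 ≤ b * t₁ * (b : ℝ) ^ d * (1 / t) := by positivity
    linarith

/-- **the terms with few prime factors** -/
theorem few_count (b : ℕ) (hb : 2 ≤ b) (c : ℝ) (hc : c < 1) : ∃ C : ℝ, ∀ x : ℕ, 16 ≤ x →
    (((Finset.Icc 1 x).filter (fun n => (((conc b n).primeFactors.card : ℕ) : ℝ) <
      c * Real.log (Real.log n))).card : ℝ) ≤ C * x / Real.log (Real.log x) := by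
  obtain ⟨C, hC, h⟩ := few_block b hb c hc
  have hb' : (2 : ℝ) ≤ b := by exact_mod_cast hb
  have hlogb : 0 < Real.log b := Real.log_pos (by linarith)
  refine ⟨2 * C * b * (1 + Real.log b), ?_⟩
  intro x hx
  have h1 := transfer b hb (fun n => (((conc b n).primeFactors.card : ℕ) : ℝ) <
      c * Real.log (Real.log n)) w2 w2_nonneg w2_step C hC h x (by omega)
  have h3 := log_lt b x hb (by omega)
  have h4 := log_sixteen x hx
  have h5 := loglog_ge x hx
  have h6 : w2 (Nat.log b x + 1) ≤ (1 + Real.log b) / Real.log (Real.log x) := by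
    unfold w2
    set D := Nat.log b x + 1 with hD
    have hone := one_le_log D
    have hDpos : (0 : ℝ) < D := by
      have : 0 < D := by omega
      exact_mod_cast this
    have h7 : Real.log (Real.log x) ≤ Real.log D + Real.log (Real.log b) := by
      rw [← Real.log_mul (by positivity) (by positivity)]
      exact Real.log_le_log (by linarith) h3
    have h8 : Real.log D ≤ Real.log ((D : ℝ) + 3) := Real.log_le_log hDpos (by linarith)
    have h9 : Real.log (Real.log b) ≤ Real.log b :=
      (Real.log_le_sub_one_of_pos hlogb).trans (by linarith)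
    rw [div_le_div_iff₀ (by linarith) (by linarith)]
    nlinarith
  refine h1.trans ?_
  calc 2 * C * b * x * w2 (Nat.log b x + 1)
      ≤ 2 * C * b * x * ((1 + Real.log b) / Real.log (Real.log x)) := by gcongr
    _ = 2 * C * b * (1 + Real.log b) * x / Real.log (Real.log x) := by ring

end Pool.Agent.Lib.MP_9dc83d_nt
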