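import Mathlib

/-!
# S-parts of the terms of the concatenation sequence
-/

set_option autoImplicit false

open Finset

namespace Pool.ConcatS

/-- the concatenation of the base-`b` representations of `1, ..., n` -/
def cc (b n : ℕ) : ℕ :=
  (List.range' 1 n).foldl (fun acc k => acc * b ^ (Nat.digits b k).length + k) 0

theorem cc_zero (b : ℕ) : cc b 0 = 0 := rfl

theorem cc_succ (b n : ℕ) : cc b (n + 1) = cc b n * b ^ (Nat.digits b (n + 1)).length + (n + 1) := by
  unfold cc
  rw [List.range'_1_concat, List.foldl_append]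
  simp only [List.foldl_cons, List.foldl_nil]
  rw [add_comm 1 n]

theorem pow_len_le (b k : ℕ) (hb : 2 ≤ b) (hk : 1 ≤ k) : b ^ (Nat.digits b k).length ≤ b * k := by
  rw [Nat.length_digits b k (by omega) (by omega), pow_succ, mul_comm]
  exact Nat.mul_le_mul_left b (Nat.pow_log_le_self b (by omega))

theorem lt_pow_len (b k : ℕ) (hb : 2 ≤ b) : k < b ^ (Nat.digits b k).length :=
  Nat.lt_base_pow_length_digits (by omega)

/-- later terms in terms of earlier ones -/
theorem cc_shift (b Q : ℕ) (hb : 2 ≤ b) (n h : ℕ) (hQ : b * (n + h) ≤ Q) :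
    ∃ B t : ℕ, cc b (n + h) = cc b n * B + t ∧ t < B ∧ B ≤ Q ^ h ∧ (1 ≤ h → 0 < t) := by
  induction h with
  | zero => exact ⟨1, 0, by simp, by norm_num, by simp, by omega⟩
  | succ h ih =>
    obtain ⟨B, t, h1, h2, h3, -⟩ := ih (by nlinarith)
    set l := b ^ (Nat.digits b (n + h + 1)).length with hl
    have hl1 : n + h + 1 < l := lt_pow_len b _ hb
    have hl2 : l ≤ Q := (pow_len_le b _ hb (by omega)).trans hQ
    refine ⟨B * l, t * l + (n + h + 1), ?_, ?_, ?_, fun _ => by omega⟩
    · have e : n + (h + 1) = (n + h) + 1 := rfl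
      rw [e, cc_succ, h1, ← hl]
      ring
    · calc t * l + (n + h + 1) < t * l + l := by omega
        _ = (t + 1) * l := by ring
        _ ≤ B * l := Nat.mul_le_mul_right l h2
    · rw [pow_succ]
      exact Nat.mul_le_mul h3 hl2

theorem factorial_le_cc (b n : ℕ) (hb : 2 ≤ b) : 1 ≤ n → n.factorial ≤ cc b n := by
  intro hn
  induction n, hn using Nat.le_induction with
  | base => rw [cc_succ]; simp
  | succ n hn ih =>
    rw [cc_succ, Nat.factorial_succ, mul_comm]
    have h1 := lt_pow_len b (n + 1) hb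
    have h2 : n.factorial * (n + 1) ≤ cc b n * b ^ (Nat.digits b (n + 1)).length :=
      Nat.mul_le_mul ih h1.le
    omega

theorem log_cc_lower (b N n : ℕ) (hb : 2 ≤ b) (hN : 2 ≤ N) (hn : N < n) :
    1 / (12 * (1 + Real.log (2 * b))) * N * Real.log (2 * N * b) ≤ Real.log (cc b n) := by
  have hbR : (2 : ℝ) ≤ b := by exact_mod_cast hb
  have hNR : (2 : ℝ) ≤ N := by exact_mod_cast hN
  have hnR : (N : ℝ) + 1 ≤ n := by exact_mod_cast hn
  have hn0 : (0 : ℝ) < n := by linarith
  -- the factorial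
  have h1 : Real.log (n.factorial : ℝ) ≤ Real.log (cc b n) := by
    apply Real.log_le_log (by exact_mod_cast Nat.factorial_pos n)
    exact_mod_cast factorial_le_cc b n hb (by omega)
  have h2 : (n : ℝ) * (Real.log n - 1) ≤ Real.log (n.factorial : ℝ) := by
    have h3 := Real.pow_div_factorial_le_exp (n : ℝ) hn0.le n
    have hf : (0 : ℝ) < n.factorial := by exact_mod_cast Nat.factorial_pos n
    have h4 := Real.log_le_log (by positivity) h3
    rw [Real.log_div (by positivity) hf.ne', Real.log_pow, Real.log_exp] at h4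
    linarith
  have hlog3 : (1.091 : ℝ) ≤ Real.log 3 := by
    rw [Real.le_log_iff_exp_le (by norm_num)]
    have h5 := Real.exp_one_lt_d9
    have h6 : Real.exp (0.091 : ℝ) ≤ 1 / (1 - 0.091) := by
      have h7 := Real.add_one_le_exp (-(0.091 : ℝ))
      have h8 : Real.exp (0.091 : ℝ) * Real.exp (-(0.091 : ℝ)) = 1 := by
        rw [← Real.exp_add]; simp
      rw [le_div_iff₀ (by norm_num)]
      have h9 := Real.exp_pos (0.091 : ℝ)
      nlinarith
    have h7 : Real.exp (1.091 : ℝ) = Real.exp 1 * Real.exp 0.091 := by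
      rw [← Real.exp_add]; norm_num
    rw [h7]
    have h8 := Real.exp_pos (1 : ℝ)
    have h9 := Real.exp_pos (0.091 : ℝ)
    calc Real.exp 1 * Real.exp 0.091 ≤ 2.7182818286 * (1 / (1 - 0.091)) :=
          mul_le_mul h5.le h6 h9.le (by norm_num)
      _ ≤ 3 := by norm_num
  set ℓ := Real.log ((N : ℝ) + 1) with hℓ
  have hℓ1 : 1.091 ≤ ℓ := hlog3.trans (Real.log_le_log (by norm_num) (by linarith))
  have hℓn : ℓ ≤ Real.log n := Real.log_le_log (by linarith) hnR
  have h5 : (N : ℝ) * (ℓ / 12) ≤ (n : ℝ) * (Real.log n - 1) := by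
    apply mul_le_mul (by linarith) _ (by linarith) hn0.le
    linarith
  have hB : 0 ≤ Real.log (2 * b) := Real.log_nonneg (by linarith)
  have h6 : Real.log (2 * N * b) ≤ ℓ * (1 + Real.log (2 * b)) := by
    have e : (2 : ℝ) * N * b = N * (2 * b) := by ring
    rw [e, Real.log_mul (by positivity) (by positivity)]
    have h7 : Real.log N ≤ ℓ := Real.log_le_log (by linarith) (by linarith)
    nlinarith
  have h8 : 1 / (12 * (1 + Real.log (2 * b))) * N * Real.log (2 * N * b) ≤ (N : ℝ) * (ℓ / 12) := by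
    have h9 : 1 / (12 * (1 + Real.log (2 * b))) * N * Real.log (2 * N * b) ≤
        1 / (12 * (1 + Real.log (2 * b))) * N * (ℓ * (1 + Real.log (2 * b))) :=
      mul_le_mul_of_nonneg_left h6 (by positivity)
    refine h9.trans (le_of_eq ?_)
    field_simp
  linarith

/-- spacing -/
theorem card_spaced (N m : ℕ) (hN : 1 ≤ N) (hm : 1 ≤ m) (A : Finset ℕ) (hA : A ⊆ Ioc N (2 * N))
    (hs : ∀ n ∈ A, ∀ n' ∈ A, n < n' → N < m * (n' - n)) : A.card ≤ m := by
  have hmono : ∀ n ∈ A, ∀ n' ∈ A, n < n' → m * (n - N - 1) / N < m * (n' - N - 1) / N := by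
    intro n hn n' hn' h
    have h2 := Finset.mem_Ioc.1 (hA hn)
    have h3 := hs n hn n' hn' h
    have h4 : m * (n' - N - 1) = m * (n - N - 1) + m * (n' - n) := by
      rw [← Nat.mul_add]
      congr 1
      omega
    have h5 : (m * (n - N - 1) + N) / N ≤ m * (n' - N - 1) / N := by
      apply Nat.div_le_div_right
      omega
    rw [Nat.add_div_right _ (by omega)] at h5
    omega
  have h1 : A.card ≤ (range m).card := by
    apply Finset.card_le_card_of_injOn (fun n => m * (n - N - 1) / N)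
    · intro n hn
      have h2 := Finset.mem_Ioc.1 (hA hn)
      have h3 : m * (n - N - 1) / N < m := by
        rw [Nat.div_lt_iff_lt_mul (by omega)]
        exact Nat.mul_lt_mul_of_pos_left (by omega) (by omega)
      simpa using h3
    · intro n hn n' hn' he
      by_contra hne
      rcases lt_or_gt_of_ne hne with h | h
      · have := hmono n hn n' hn' h
        simp only at he
        omega
      · have := hmono n' hn' n hn h
        simp only at he
        omega
  simpa using h1

/-- layer cake over dyadic levels -/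
theorem layer (M w : ℝ) (hM : 0 ≤ M) (hw : w ≤ M) (J : ℕ) (hJ : M / 2 ^ J < w) :
    w ≤ ∑ j ∈ range J, if M / 2 ^ (j + 1) < w then M / 2 ^ j else 0 := by
  induction J with
  | zero => simp at hJ; linarith
  | succ J ih =>
    rw [Finset.sum_range_succ]
    have hnn : 0 ≤ ∑ j ∈ range J, if M / 2 ^ (j + 1) < w then M / 2 ^ j else 0 :=
      Finset.sum_nonneg fun j _ => by split_ifs <;> positivity
    rcases lt_or_ge (M / 2 ^ J) w with h | h
    · have h1 := ih h
      have h2 : (0 : ℝ) ≤ if M / 2 ^ (J + 1) < w then M / 2 ^ J else 0 := by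
        split_ifs <;> positivity
      linarith
    · rw [if_pos hJ]
      linarith

/-- the contribution of one prime -/
theorem one_prime (b N p : ℕ) (hb : 2 ≤ b) (hN : 1 ≤ N) (hp : p.Prime) (τ : ℝ) (J : ℕ)
    (hJ : 2 * N * Real.log (2 * N * b) / 2 ^ J ≤ τ) :
    ∑ n ∈ Ioc N (2 * N), (if τ < (cc b n).factorization p * Real.log p then
      (cc b n).factorization p * Real.log p else 0) ≤ J * (2 * N * Real.log (2 * N * b)) := by
  classical
  have hbR : (2 : ℝ) ≤ b := by exact_mod_cast hb
  have hNR : (1 : ℝ) ≤ N := by exact_mod_cast hN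
  have hlog : 0 < Real.log (2 * N * b) := Real.log_pos (by nlinarith)
  set Λ := Real.log (2 * N * b) with hΛ
  set M := 2 * N * Λ with hM
  have hM0 : 0 < M := by positivity
  have hp1 : (1 : ℝ) < p := by exact_mod_cast hp.one_lt
  have hlp : 0 < Real.log p := Real.log_pos hp1
  set w : ℕ → ℝ := fun n => (cc b n).factorization p * Real.log p with hw
  have hne : ∀ n, 1 ≤ n → cc b n ≠ 0 := fun n hn => by
    have h1 := factorial_le_cc b n hb hn
    have h2 := Nat.factorial_pos n
    omega
  -- from divisibility of t to the size of the exponents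
  have hsize : ∀ v h t B : ℕ, p ^ v ∣ t → 0 < t → t < B → B ≤ (b * (2 * N)) ^ h →
      v * Real.log p < h * Λ ∨ h = 0 := by
    intro v h t B hd ht0 htB hB
    rcases Nat.eq_zero_or_pos h with h0 | h0
    · exact Or.inr h0
    left
    have h1 := Nat.le_of_dvd ht0 hd
    have h2 : p ^ v < (b * (2 * N)) ^ h := by omega
    have h3 : ((p : ℝ) ^ v) < (2 * N * b) ^ h := by
      have : ((p ^ v : ℕ) : ℝ) < (((b * (2 * N)) ^ h : ℕ) : ℝ) := by exact_mod_cast h2
      push_cast at this
      have e : (2 : ℝ) * N * b = b * (2 * N) := by ring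
      rw [e]
      exact this
    have h4 := Real.log_lt_log (by positivity) h3
    rw [Real.log_pow, Real.log_pow] at h4
    exact h4
  have hwM : ∀ n ∈ Ioc N (2 * N), w n ≤ M := by
    intro n hn
    rw [Finset.mem_Ioc] at hn
    obtain ⟨B, t, h1, h2, h3, h4⟩ := cc_shift b (b * (2 * N)) hb 0 n
      (Nat.mul_le_mul_left b (by omega))
    rw [cc_zero, zero_mul, zero_add, zero_add] at h1
    have h5 : p ^ (cc b n).factorization p ∣ t := h1 ▸ Nat.ordProj_dvd _ _
    rcases hsize _ n t B h5 (h4 (by omega)) h2 h3 with h6 | h6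
    · have h7 : (n : ℝ) ≤ 2 * N := by exact_mod_cast hn.2
      have h8 : (n : ℝ) * Λ ≤ 2 * N * Λ := mul_le_mul_of_nonneg_right h7 hlog.le
      simp only [hw]
      linarith
    · omega
  have hspace : ∀ n n', N < n → n < n' → n' ≤ 2 * N → min (w n) (w n') < ((n' - n : ℕ) : ℝ) * Λ := by
    intro n n' hn h hn'
    obtain ⟨B, t, h1, h2, h3, h4⟩ := cc_shift b (b * (2 * N)) hb n (n' - n)
      (Nat.mul_le_mul_left b (by omega))
    have e : n + (n' - n) = n' := by omega
    rw [e] at h1
    set v := min ((cc b n).factorization p) ((cc b n').factorization p) with hv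
    have h5 : p ^ v ∣ cc b n := (pow_dvd_pow p (min_le_left _ _)).trans (Nat.ordProj_dvd _ _)
    have h6 : p ^ v ∣ cc b n' := (pow_dvd_pow p (min_le_right _ _)).trans (Nat.ordProj_dvd _ _)
    have h7 : p ^ v ∣ t := by
      rw [h1] at h6
      exact (Nat.dvd_add_right (h5.mul_right B)).1 h6
    rcases hsize v (n' - n) t B h7 (h4 (by omega)) h2 h3 with h8 | h8
    · have h9 : (v : ℝ) * Real.log p = min (w n) (w n') := by
        simp only [hw, hv]
        rw [Nat.cast_min, min_mul_of_nonneg _ _ hlp.le]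
      rw [← h9]
      exact h8
    · omega
  -- pointwise
  have h1 : ∀ n ∈ Ioc N (2 * N), (if τ < w n then w n else 0) ≤
      ∑ j ∈ range J, if M / 2 ^ (j + 1) < w n then M / 2 ^ j else 0 := by
    intro n hn
    split_ifs with h
    · exact layer M (w n) hM0.le (hwM n hn) J (lt_of_le_of_lt hJ h)
    · exact Finset.sum_nonneg fun j _ => by split_ifs <;> positivity
  refine (Finset.sum_le_sum h1).trans ?_
  rw [Finset.sum_comm]
  have h2 : ∀ j ∈ range J, ∑ n ∈ Ioc N (2 * N), (if M / 2 ^ (j + 1) < w n then M / 2 ^ j else 0) ≤ M := by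
    intro j _
    rw [← Finset.sum_filter, Finset.sum_const, nsmul_eq_mul]
    have h3 : ((Ioc N (2 * N)).filter fun n => M / 2 ^ (j + 1) < w n).card ≤ 2 ^ j := by
      apply card_spaced N (2 ^ j) hN Nat.one_le_two_pow _ (Finset.filter_subset _ _)
      intro n hn n' hn' h
      rw [Finset.mem_filter, Finset.mem_Ioc] at hn hn'
      have h4 := hspace n n' hn.1.1 h hn'.1.2
      have h5 : M / 2 ^ (j + 1) < ((n' - n : ℕ) : ℝ) * Λ := (lt_min hn.2 hn'.2).trans h4
      have h6 : M / 2 ^ (j + 1) = N * Λ / 2 ^ j := by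
        rw [hM, pow_succ]
        field_simp
      rw [h6, div_lt_iff₀ (by positivity)] at h5
      have h7 : (N : ℝ) < 2 ^ j * ((n' - n : ℕ) : ℝ) := by
        have h8 : (N : ℝ) * Λ < (2 ^ j * ((n' - n : ℕ) : ℝ)) * Λ := by
          calc (N : ℝ) * Λ < ((n' - n : ℕ) : ℝ) * Λ * 2 ^ j := h5
            _ = _ := by ring
        exact lt_of_mul_lt_mul_right h8 hlog.le
      exact_mod_cast h7
    have h4 : (((Ioc N (2 * N)).filter fun n => M / 2 ^ (j + 1) < w n).card : ℝ) ≤ 2 ^ j := by
      exact_mod_cast h3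
    calc _ ≤ (2 : ℝ) ^ j * (M / 2 ^ j) := mul_le_mul_of_nonneg_right h4 (by positivity)
      _ = M := by field_simp
  refine (Finset.sum_le_sum h2).trans ?_
  rw [Finset.sum_const, Finset.card_range, nsmul_eq_mul]

/-- **The S-parts of the terms.** -/
theorem spart (b : ℕ) (hb : 2 ≤ b) : ∃ C : ℝ, 0 < C ∧ ∀ (N : ℕ) (S : Finset ℕ), S.Nonempty →
    (∀ p ∈ S, p.Prime) → ∀ η : ℝ, 0 < η → η ≤ 1 →
    (((Ioc N (2 * N)).filter fun n =>
      (cc b n : ℝ) ^ η ≤ ∏ p ∈ S, (p : ℝ) ^ (cc b n).factorization p).card : ℝ) ≤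
      C * S.card * Real.log (2 * S.card / η) / η := by
  classical
  have hbR : (2 : ℝ) ≤ b := by exact_mod_cast hb
  have hB : 0 ≤ Real.log (2 * b) := Real.log_nonneg (by linarith)
  set c₀ : ℝ := 1 / (12 * (1 + Real.log (2 * b))) with hc₀
  have hc0 : 0 < c₀ := by positivity
  have hc1 : c₀ ≤ 1 := by
    rw [hc₀, div_le_one (by positivity)]
    linarith
  have hl2 := Real.log_two_gt_d9
  have hl2' := Real.log_two_lt_d9
  have hlc : 0 ≤ Real.log (2 / c₀) := Real.log_nonneg (by rw [le_div_iff₀ hc0]; linarith)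
  refine ⟨4 / c₀ * (2 / Real.log 2 + (1 + Real.log (2 / c₀)) / Real.log 2 ^ 2) + 2, by positivity, ?_⟩
  intro N S hS hSp η hη0 hη1
  have hs1 : 1 ≤ S.card := hS.card_pos
  have hs1R : (1 : ℝ) ≤ S.card := by exact_mod_cast hs1
  set s : ℝ := (S.card : ℝ) with hs
  have hlog2 : Real.log 2 ≤ Real.log (2 * s / η) := by
    apply Real.log_le_log (by norm_num)
    rw [le_div_iff₀ hη0]
    nlinarith
  set L := Real.log (2 * s / η) with hL
  have hL0 : 0 < L := by linarith
  have hsη : 1 ≤ s / η := by rw [le_div_iff₀ hη0]; linarith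
  rcases Nat.lt_or_ge N 2 with hN2 | hN2
  · -- trivial range
    have h1 : (((Ioc N (2 * N)).filter fun n =>
        (cc b n : ℝ) ^ η ≤ ∏ p ∈ S, (p : ℝ) ^ (cc b n).factorization p).card : ℝ) ≤ 1 := by
      have h2 : ((Ioc N (2 * N)).filter fun n =>
        (cc b n : ℝ) ^ η ≤ ∏ p ∈ S, (p : ℝ) ^ (cc b n).factorization p).card ≤ 1 := by
        refine (Finset.card_filter_le _ _).trans ?_
        rw [Nat.card_Ioc]
        omega
      exact_mod_cast h2
    refine h1.trans ?_
    have h3 : 1 ≤ 2 * (s / η) * L := by nlinarith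
    have h4 : 2 * (s / η) * L ≤ (4 / c₀ * (2 / Real.log 2 + (1 + Real.log (2 / c₀)) / Real.log 2 ^ 2) + 2) *
        (s / η) * L := by
      apply mul_le_mul_of_nonneg_right _ hL0.le
      apply mul_le_mul_of_nonneg_right _ (by positivity)
      have : 0 ≤ 4 / c₀ * (2 / Real.log 2 + (1 + Real.log (2 / c₀)) / Real.log 2 ^ 2) := by positivity
      linarith
    refine h3.trans (h4.trans (le_of_eq ?_))
    ring
  have hNR : (2 : ℝ) ≤ N := by exact_mod_cast hN2
  have hlogΛ : 0 < Real.log (2 * N * b) := Real.log_pos (by nlinarith)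
  set Λ := Real.log (2 * N * b) with hΛ
  set E := (Ioc N (2 * N)).filter fun n =>
      (cc b n : ℝ) ^ η ≤ ∏ p ∈ S, (p : ℝ) ^ (cc b n).factorization p with hE
  set τ : ℝ := η * (c₀ * N * Λ) / (2 * s) with hτ
  have hτ0 : 0 < τ := by positivity
  -- number of levels
  set J : ℕ := ⌈Real.log (4 * s / (η * c₀)) / Real.log 2⌉₊ with hJdef
  have hl20 : 0 < Real.log 2 := by linarith
  have harg : 1 ≤ 4 * s / (η * c₀) := by
    rw [le_div_iff₀ (by positivity)]
    have : η * c₀ ≤ 1 * 1 := mul_le_mul hη1 hc1 hc0.le (by norm_num)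
    linarith
  have hargl : 0 ≤ Real.log (4 * s / (η * c₀)) := Real.log_nonneg harg
  have hJ1 : (J : ℝ) ≤ Real.log (4 * s / (η * c₀)) / Real.log 2 + 1 :=
    (Nat.ceil_lt_add_one (div_nonneg hargl hl20.le)).le
  have hJ2 : 4 * s / (η * c₀) ≤ 2 ^ J := by
    have h1 : Real.log (4 * s / (η * c₀)) / Real.log 2 ≤ J := Nat.le_ceil _
    rw [div_le_iff₀ hl20] at h1
    have h2 : Real.log (4 * s / (η * c₀)) ≤ Real.log (2 ^ J) := by
      rw [Real.log_pow]
      exact h1
    exact (Real.log_le_log_iff (by linarith) (by positivity)).1 h2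
  have hJτ : 2 * N * Λ / 2 ^ J ≤ τ := by
    rw [div_le_iff₀ (by positivity)]
    have h1 : τ * (4 * s / (η * c₀)) ≤ τ * 2 ^ J := mul_le_mul_of_nonneg_left hJ2 hτ0.le
    refine le_trans (le_of_eq ?_) h1
    rw [hτ]
    field_simp
    ring
  -- lower bound for each exceptional n
  have hlow : ∀ n ∈ E, c₀ * η * N * Λ / 2 ≤ ∑ p ∈ S, (if τ < (cc b n).factorization p * Real.log p then
      (cc b n).factorization p * Real.log p else 0) := by
    intro n hn
    rw [hE, Finset.mem_filter, Finset.mem_Ioc] at hn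
    have hn0 : 0 < cc b n := by
      have h1 := factorial_le_cc b n hb (by omega)
      have h2 := Nat.factorial_pos n
      omega
    have h1 := log_cc_lower b N n hb hN2 hn.1.1
    rw [← hc₀, ← hΛ] at h1
    have hccR : (0 : ℝ) < cc b n := by exact_mod_cast hn0
    have h2 := Real.log_le_log (by positivity) hn.2
    rw [Real.log_rpow hccR, Real.log_prod (fun p hp => by
      have : (0 : ℝ) < p := by exact_mod_cast (hSp p hp).pos
      positivity)] at h2
    have h3 : ∑ p ∈ S, Real.log ((p : ℝ) ^ (cc b n).factorization p) =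
        ∑ p ∈ S, ((cc b n).factorization p * Real.log p) :=
      Finset.sum_congr rfl fun p _ => by rw [Real.log_pow]
    rw [h3] at h2
    have h4 : ∑ p ∈ S, ((cc b n).factorization p * Real.log p) ≤
        ∑ p ∈ S, ((if τ < (cc b n).factorization p * Real.log p then
          (cc b n).factorization p * Real.log p else 0) + τ) := by
      refine Finset.sum_le_sum fun p _ => ?_
      split_ifs with h
      · linarith
      · linarith
    rw [Finset.sum_add_distrib, Finset.sum_const, nsmul_eq_mul, ← hs] at h4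
    have h5 : s * τ = c₀ * η * N * Λ / 2 := by
      rw [hτ]
      field_simp
    have h6 : η * (c₀ * N * Λ) ≤ η * Real.log (cc b n) := mul_le_mul_of_nonneg_left h1 hη0.le
    have h7 : η * (c₀ * N * Λ) = c₀ * η * N * Λ / 2 + c₀ * η * N * Λ / 2 := by ring
    linarith
  have hsum : (E.card : ℝ) * (c₀ * η * N * Λ / 2) ≤ s * (J * (2 * N * Λ)) := by
    have h1 : (E.card : ℝ) * (c₀ * η * N * Λ / 2) ≤ ∑ n ∈ E, ∑ p ∈ S,
        (if τ < (cc b n).factorization p * Real.log p then
          (cc b n).factorization p * Real.log p else 0) := by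
      rw [← nsmul_eq_mul, ← Finset.sum_const]
      exact Finset.sum_le_sum hlow
    refine h1.trans ?_
    rw [Finset.sum_comm]
    have h2 : ∀ p ∈ S, ∑ n ∈ E, (if τ < (cc b n).factorization p * Real.log p then
          (cc b n).factorization p * Real.log p else 0) ≤ J * (2 * N * Λ) := by
      intro p hp
      have h3 := one_prime b N p hb (by omega) (hSp p hp) τ J hJτ
      refine le_trans (Finset.sum_le_sum_of_subset_of_nonneg (Finset.filter_subset _ _)
        fun n _ _ => ?_) h3
      split_ifs with h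
      · linarith
      · exact le_rfl
    refine (Finset.sum_le_sum h2).trans ?_
    rw [Finset.sum_const, nsmul_eq_mul]
  have hmain : (E.card : ℝ) ≤ 4 / c₀ * (s / η) * J := by
    have hNΛ : 0 < N * Λ := by positivity
    have h1 : (E.card : ℝ) * (c₀ * η / 2) * (N * Λ) ≤ s * (J * 2) * (N * Λ) := by
      calc (E.card : ℝ) * (c₀ * η / 2) * (N * Λ) = (E.card : ℝ) * (c₀ * η * N * Λ / 2) := by ring
        _ ≤ s * (J * (2 * N * Λ)) := hsum
        _ = s * (J * 2) * (N * Λ) := by ring
    have h2 := le_of_mul_le_mul_right h1 hNΛ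
    have h3 : 4 / c₀ * (s / η) * J = s * (J * 2) / (c₀ * η / 2) := by
      field_simp
      ring
    rw [h3, le_div_iff₀ (by positivity)]
    exact h2
  -- final bookkeeping
  have hJL : (J : ℝ) ≤ (2 / Real.log 2 + (1 + Real.log (2 / c₀)) / Real.log 2 ^ 2) * L := by
    have h1 : Real.log (4 * s / (η * c₀)) = L + Real.log (2 / c₀) := by
      rw [hL, ← Real.log_mul (by positivity) (by positivity)]
      congr 1
      field_simp
      ring
    rw [h1] at hJ1
    have h2 : 1 ≤ L / Real.log 2 := by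
      rw [le_div_iff₀ hl20]
      linarith
    have h3 : (1 + Real.log (2 / c₀)) / Real.log 2 * 1 ≤ (1 + Real.log (2 / c₀)) / Real.log 2 * (L / Real.log 2) :=
      mul_le_mul_of_nonneg_left h2 (by positivity)
    have h4 : (2 / Real.log 2 + (1 + Real.log (2 / c₀)) / Real.log 2 ^ 2) * L =
        2 * (L / Real.log 2) + (1 + Real.log (2 / c₀)) / Real.log 2 * (L / Real.log 2) := by
      field_simp
    rw [h4]
    have h5 : (L + Real.log (2 / c₀)) / Real.log 2 + 1 ≤
        L / Real.log 2 + ((1 + Real.log (2 / c₀)) / Real.log 2 + 1) := by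
      have : (L + Real.log (2 / c₀)) / Real.log 2 = L / Real.log 2 + Real.log (2 / c₀) / Real.log 2 := by
        field_simp
      have h6 : Real.log (2 / c₀) / Real.log 2 ≤ (1 + Real.log (2 / c₀)) / Real.log 2 := by
        apply div_le_div_of_nonneg_right _ hl20.le
        linarith
      linarith
    linarith
  refine hmain.trans ?_
  have h1 : 4 / c₀ * (s / η) * J ≤ 4 / c₀ * (s / η) *
      ((2 / Real.log 2 + (1 + Real.log (2 / c₀)) / Real.log 2 ^ 2) * L) :=
    mul_le_mul_of_nonneg_left hJL (by positivity)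
  have h2 : 0 ≤ 2 * (s / η) * L := by positivity
  have h3 : (4 / c₀ * (2 / Real.log 2 + (1 + Real.log (2 / c₀)) / Real.log 2 ^ 2) + 2) * s * L / η =
      4 / c₀ * (s / η) * ((2 / Real.log 2 + (1 + Real.log (2 / c₀)) / Real.log 2 ^ 2) * L) +
        2 * (s / η) * L := by
    ring
  rw [h3]
  linarith

end Pool.ConcatS
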