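import Mathlib

/-!
# The concatenated integers and their closed form inside a block of constant digit length
-/

set_option autoImplicit false

open Finset

namespace Pool.Agent.Lib.MP_9dc83d_nt

/-- The integer whose base `b` digit string is the concatenation of the base `b` representations
of `1, 2, ..., n`. -/
def conc (b n : ℕ) : ℕ :=
  (List.range' 1 n).foldl (fun acc k => acc * b ^ (Nat.digits b k).length + k) 0

lemma conc_zero (b : ℕ) : conc b 0 = 0 := rfl

lemma conc_succ (b n : ℕ) :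
    conc b (n + 1) = conc b n * b ^ (Nat.digits b (n + 1)).length + (n + 1) := by
  unfold conc
  rw [List.range'_concat, List.foldl_append]
  simp [add_comm]

lemma conc_lt_succ (b n : ℕ) (hb : 2 ≤ b) : conc b n < conc b (n + 1) := by
  rw [conc_succ]
  have h : 1 ≤ b ^ (Nat.digits b (n + 1)).length := Nat.one_le_pow _ _ (by omega)
  have h2 : conc b n * 1 ≤ conc b n * b ^ (Nat.digits b (n + 1)).length :=
    Nat.mul_le_mul_left _ h
  omega

lemma conc_strictMono (b : ℕ) (hb : 2 ≤ b) : StrictMono (conc b) :=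
  strictMono_nat_of_lt_succ fun n => conc_lt_succ b n hb

lemma le_conc (b n : ℕ) (hb : 2 ≤ b) : n ≤ conc b n :=
  (conc_strictMono b hb).id_le n

lemma digits_len (b d m : ℕ) (hb : 2 ≤ b) (h1 : b ^ d ≤ m) (h2 : m < b ^ (d + 1)) :
    (Nat.digits b m).length = d + 1 := by
  have a1 := (Nat.digits_length_le_iff (b := b) (k := d + 1) (by omega) m).2 h2
  have a2 := (Nat.lt_digits_length_iff (b := b) (k := d) (by omega) m).2 h1
  omega

/-- closed form in the block `b ^ d ≤ n < b ^ (d + 1)` -/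
lemma closed (b d : ℕ) (hb : 2 ≤ b) (h : ℕ) (hh : h ≤ (b - 1) * b ^ d) :
    (((b : ℤ) ^ (d + 1) - 1) ^ 2) * (conc b (b ^ d - 1 + h) : ℤ) =
      (((b : ℤ) ^ (d + 1) - 1) ^ 2 * (conc b (b ^ d - 1) : ℤ) +
        ((b : ℤ) ^ (d + 1) - 1) * ((b : ℤ) ^ d - 1) + (b : ℤ) ^ (d + 1)) *
        ((b : ℤ) ^ (d + 1)) ^ h -
      ((b : ℤ) ^ (d + 1) - 1) * (h : ℤ) -
        (((b : ℤ) ^ (d + 1) - 1) * ((b : ℤ) ^ d - 1) + (b : ℤ) ^ (d + 1)) := by
  have hbd : 1 ≤ b ^ d := Nat.one_le_pow _ _ (by omega)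
  induction h with
  | zero =>
    simp only [add_zero, pow_zero, Nat.cast_zero]
    ring
  | succ h ih =>
    have ih' := ih (by omega)
    have hlen : (Nat.digits b (b ^ d - 1 + h + 1)).length = d + 1 := by
      apply digits_len b d _ hb
      · omega
      · have e1 : b ^ (d + 1) = (b - 1) * b ^ d + b ^ d := by
          rw [pow_succ]
          obtain ⟨c, rfl⟩ : ∃ c, b = c + 1 := ⟨b - 1, by omega⟩
          simp only [Nat.add_sub_cancel]
          ring
        omega
    have e2 : b ^ d - 1 + (h + 1) = b ^ d - 1 + h + 1 := by ring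
    rw [e2, conc_succ, hlen]
    have e3 : ((b ^ d - 1 + h + 1 : ℕ) : ℤ) = (b : ℤ) ^ d + h := by
      have : b ^ d - 1 + h + 1 = b ^ d + h := by omega
      rw [this]
      push_cast
      ring
    have e4 : ((conc b (b ^ d - 1 + h) * b ^ (d + 1) + (b ^ d - 1 + h + 1) : ℕ) : ℤ) =
        (conc b (b ^ d - 1 + h) : ℤ) * (b : ℤ) ^ (d + 1) + ((b : ℤ) ^ d + h) := by
      rw [← e3]
      push_cast
      ring
    rw [e4]
    generalize (conc b (b ^ d - 1 + h) : ℤ) = X at ih' ⊢
    generalize (conc b (b ^ d - 1) : ℤ) = Y at ih' ⊢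
    generalize (b : ℤ) ^ (d + 1) = q at ih' ⊢
    generalize (b : ℤ) ^ d = m at ih' ⊢
    push_cast
    have : (q - 1) ^ 2 * (X * q + (m + h)) = q * ((q - 1) ^ 2 * X) + (q - 1) ^ 2 * (m + h) := by
      ring
    rw [this, ih', pow_succ]
    ring

end Pool.Agent.Lib.MP_9dc83d_nt
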