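import Pool.Agent.Lib.MP_d9bc60_nt.EN.M2

/-!
# The ratio `n / φ(n)` for integers of known logarithm
-/

set_option autoImplicit false

open Finset

namespace Pool.Agent.Lib.MP_9dc83d_nt

lemma two_pow_card (n : ℕ) (hn : 1 ≤ n) : 2 ^ n.primeFactors.card ≤ n := by
  have h1 : 2 ^ n.primeFactors.card ≤ ∏ p ∈ n.primeFactors, p := by
    rw [← Finset.prod_const]
    exact Finset.prod_le_prod' fun p hp => (Nat.prime_of_mem_primeFactors hp).two_le
  exact h1.trans (Nat.le_of_dvd hn (Nat.prod_primeFactors_dvd n))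

lemma card_le_log (n : ℕ) (hn : 1 ≤ n) :
    (n.primeFactors.card : ℝ) * Real.log 2 ≤ Real.log n := by
  have h := two_pow_card n hn
  have h2 : ((2 : ℝ) ^ n.primeFactors.card) ≤ n := by exact_mod_cast h
  have h3 := Real.log_le_log (by positivity) h2
  rwa [Real.log_pow] at h3

/-- each factor of a prime larger than `L` -/
lemma factor_ge (p L : ℕ) (hL : 1 ≤ L) (hp : L < p) :
    Real.exp (-(1 / (L : ℝ))) ≤ 1 - (p : ℝ)⁻¹ := by
  have hL' : (1 : ℝ) ≤ L := by exact_mod_cast hL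
  have hp' : (L : ℝ) + 1 ≤ p := by exact_mod_cast hp
  have h1 : 1 / (L : ℝ) + 1 ≤ Real.exp (1 / (L : ℝ)) := Real.add_one_le_exp _
  have h2 : (L : ℝ) / (L + 1) ≤ 1 - (p : ℝ)⁻¹ := by
    have : (p : ℝ)⁻¹ ≤ ((L : ℝ) + 1)⁻¹ := inv_anti₀ (by linarith) hp'
    have h3 : (L : ℝ) / (L + 1) = 1 - ((L : ℝ) + 1)⁻¹ := by
      field_simp
      ring
    linarith
  refine le_trans ?_ h2
  rw [Real.exp_neg]
  have h4 : (L : ℝ) / (L + 1) = (1 / (L : ℝ) + 1)⁻¹ := by
    field_simp
    ring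
  rw [h4]
  exact inv_anti₀ (by positivity) h1

/-- **the ratio `n/φ(n)` is at most a constant times `log L` when `log n ≤ L`** -/
theorem tot_bound : ∃ C : ℝ, 0 < C ∧ ∀ n L : ℕ, 1 ≤ n → 2 ≤ L → Real.log n ≤ L →
    (n : ℝ) / n.totient ≤ C * Real.log L := by
  obtain ⟨c, hc0, hc1, hc⟩ := Pool.Agent.Lib.MP_d9bc60_nt.EN.prod_lower
  refine ⟨c⁻¹ * Real.exp (1 / Real.log 2), by positivity, ?_⟩
  intro n L hn hL hlog
  have hlog2 : 0 < Real.log 2 := Real.log_pos (by norm_num)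
  have hL' : (2 : ℝ) ≤ L := by exact_mod_cast hL
  have hlogL : 0 < Real.log L := Real.log_pos (by linarith)
  have hn' : (0 : ℝ) < n := by exact_mod_cast hn
  have hphi : ((n.totient : ℕ) : ℝ) = n * ∏ p ∈ n.primeFactors, (1 - (p : ℝ)⁻¹) := by
    have := Nat.totient_eq_mul_prod_factors n
    have h2 : (((n.totient : ℕ) : ℚ) : ℝ) =
      ((n * ∏ p ∈ n.primeFactors, (1 - (p : ℚ)⁻¹) : ℚ) : ℝ) := by rw [this]
    push_cast at h2
    exact h2
  have hfac : ∀ p : ℕ, p.Prime → 0 < 1 - (p : ℝ)⁻¹ ∧ 1 - (p : ℝ)⁻¹ ≤ 1 := by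
    intro p hp
    have h1 : (1 : ℝ) < p := by exact_mod_cast hp.one_lt
    have h2 := inv_lt_one_of_one_lt₀ h1
    have h3 : (0 : ℝ) < (p : ℝ)⁻¹ := by positivity
    constructor <;> linarith
  have hsplit : (∏ p ∈ n.primeFactors, (1 - (p : ℝ)⁻¹)) =
      (∏ p ∈ n.primeFactors.filter (fun p => p ≤ L), (1 - (p : ℝ)⁻¹)) *
      ∏ p ∈ n.primeFactors.filter (fun p => ¬ p ≤ L), (1 - (p : ℝ)⁻¹) :=
    (Finset.prod_filter_mul_prod_filter_not _ _ _).symm
  have hA : c / Real.log L ≤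
      ∏ p ∈ n.primeFactors.filter (fun p => p ≤ L), (1 - (p : ℝ)⁻¹) := by
    refine (hc L hL).trans ?_
    have hsub : n.primeFactors.filter (fun p => p ≤ L) ⊆ (Icc 1 L).filter Nat.Prime := by
      intro p hp
      rw [Finset.mem_filter] at hp
      have hpp := Nat.prime_of_mem_primeFactors hp.1
      rw [Finset.mem_filter, Finset.mem_Icc]
      exact ⟨⟨hpp.one_lt.le, hp.2⟩, hpp⟩
    rw [← Finset.prod_sdiff hsub]
    have h1 : ∏ p ∈ (Icc 1 L).filter Nat.Prime \ n.primeFactors.filter (fun p => p ≤ L),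
        (1 - (p : ℝ)⁻¹) ≤ 1 := by
      apply Finset.prod_le_one
      · intro p hp
        rw [Finset.mem_sdiff, Finset.mem_filter] at hp
        exact (hfac p hp.1.2).1.le
      · intro p hp
        rw [Finset.mem_sdiff, Finset.mem_filter] at hp
        exact (hfac p hp.1.2).2
    have h2 : 0 ≤ ∏ p ∈ n.primeFactors.filter (fun p => p ≤ L), (1 - (p : ℝ)⁻¹) := by
      apply Finset.prod_nonneg
      intro p hp
      rw [Finset.mem_filter] at hp
      exact (hfac p (Nat.prime_of_mem_primeFactors hp.1)).1.le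
    exact mul_le_of_le_one_left h2 h1
  have hB : Real.exp (-(1 / Real.log 2)) ≤
      ∏ p ∈ n.primeFactors.filter (fun p => ¬ p ≤ L), (1 - (p : ℝ)⁻¹) := by
    have h1 : Real.exp (-(1 / (L : ℝ))) ^ (n.primeFactors.filter (fun p => ¬ p ≤ L)).card ≤
        ∏ p ∈ n.primeFactors.filter (fun p => ¬ p ≤ L), (1 - (p : ℝ)⁻¹) := by
      rw [← Finset.prod_const]
      apply Finset.prod_le_prod
      · intro p _
        exact (Real.exp_pos _).le
      · intro p hp
        rw [Finset.mem_filter] at hp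
        exact factor_ge p L (by omega) (by omega)
    refine le_trans ?_ h1
    rw [← Real.exp_nat_mul]
    apply Real.exp_le_exp.2
    have h2 : (((n.primeFactors.filter (fun p => ¬ p ≤ L)).card : ℕ) : ℝ) ≤
        n.primeFactors.card := by
      exact_mod_cast Finset.card_filter_le _ _
    have h3 := card_le_log n hn
    have h4 : (((n.primeFactors.filter (fun p => ¬ p ≤ L)).card : ℕ) : ℝ) * (1 / (L : ℝ)) ≤
        1 / Real.log 2 := by
      rw [le_div_iff₀ hlog2, mul_one_div, div_mul_eq_mul_div, div_le_one (by linarith)]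
      calc _ ≤ (n.primeFactors.card : ℝ) * Real.log 2 := by gcongr
        _ ≤ L := h3.trans hlog
    linarith
  have hC : c / Real.log L * Real.exp (-(1 / Real.log 2)) ≤
      ∏ p ∈ n.primeFactors, (1 - (p : ℝ)⁻¹) := by
    rw [hsplit]
    apply mul_le_mul hA hB (Real.exp_pos _).le
    apply Finset.prod_nonneg
    intro p hp
    rw [Finset.mem_filter] at hp
    exact (hfac p (Nat.prime_of_mem_primeFactors hp.1)).1.le
  have hCpos : 0 < c / Real.log L * Real.exp (-(1 / Real.log 2)) := by positivity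
  rw [hphi]
  have h5 : (n : ℝ) / (n * ∏ p ∈ n.primeFactors, (1 - (p : ℝ)⁻¹)) =
      (∏ p ∈ n.primeFactors, (1 - (p : ℝ)⁻¹))⁻¹ := by
    field_simp
  rw [h5]
  refine (inv_anti₀ hCpos hC).trans (le_of_eq ?_)
  rw [Real.exp_neg]
  field_simp

end Pool.Agent.Lib.MP_9dc83d_nt
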