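import Pool.Agent.Lib.MP_9dc83d_nt.Block
import Pool.Agent.Lib.MP_9dc83d_nt.Tot

/-!
# From bounds in blocks to bounds on initial segments
-/

set_option autoImplicit false

open Finset

namespace Pool.Agent.Lib.MP_9dc83d_nt

lemma log_three : 1 ≤ Real.log 3 := by
  rw [Real.le_log_iff_exp_le (by norm_num)]
  have := Real.exp_one_lt_d9
  linarith

lemma one_le_log (d : ℕ) : 1 ≤ Real.log ((d : ℝ) + 3) := by
  refine log_three.trans (Real.log_le_log (by norm_num) ?_)
  have : (0 : ℝ) ≤ d := Nat.cast_nonneg d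
  linarith

/-- weighted geometric sums -/
lemma geom_weight (b : ℕ) (hb : 2 ≤ b) (w : ℕ → ℝ) (hw0 : ∀ d, 0 ≤ w d)
    (hw : ∀ d, 3 * w d ≤ 4 * w (d + 1)) (D : ℕ) :
    ∑ d ∈ range D, (b : ℝ) ^ d * w d ≤ 2 * (b : ℝ) ^ D * w D := by
  have hb' : (2 : ℝ) ≤ b := by exact_mod_cast hb
  induction D with
  | zero => simpa using hw0 0
  | succ D ih =>
    rw [Finset.sum_range_succ]
    have h1 := hw D
    have h2 : (0 : ℝ) ≤ (b : ℝ) ^ D := by positivity
    calc ∑ d ∈ range D, (b : ℝ) ^ d * w d + (b : ℝ) ^ D * w D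
        ≤ (b : ℝ) ^ D * (3 * w D) := by linarith
      _ ≤ (b : ℝ) ^ D * (4 * w (D + 1)) := by gcongr
      _ = 2 * ((b : ℝ) ^ D * 2) * w (D + 1) := by ring
      _ ≤ 2 * ((b : ℝ) ^ D * b) * w (D + 1) := by
          have := hw0 (D + 1)
          gcongr
      _ = 2 * (b : ℝ) ^ (D + 1) * w (D + 1) := by rw [pow_succ]

/-- the numbers below `b ^ D` split into blocks -/
lemma card_split (b : ℕ) (hb : 2 ≤ b) (P : ℕ → Prop) [DecidablePred P] (D : ℕ) :
    ((Finset.Ico 1 (b ^ D)).filter P).card = ∑ d ∈ range D, ((blk b d).filter P).card := by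
  induction D with
  | zero => simp
  | succ D ih =>
    rw [Finset.sum_range_succ, ← ih]
    have h1 : 1 ≤ b ^ D := Nat.one_le_pow _ _ (by omega)
    have h2 : b ^ D ≤ b ^ (D + 1) := Nat.pow_le_pow_right (by omega) (by omega)
    have h3 : Finset.Ico 1 (b ^ (D + 1)) = Finset.Ico 1 (b ^ D) ∪ blk b D :=
      (Finset.Ico_union_Ico_eq_Ico h1 h2).symm
    rw [h3, Finset.filter_union, Finset.card_union_of_disjoint]
    apply Finset.disjoint_filter_filter
    exact Finset.Ico_disjoint_Ico_consecutive 1 (b ^ D) (b ^ (D + 1))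

/-- **from blocks to initial segments** -/
lemma transfer (b : ℕ) (hb : 2 ≤ b) (P : ℕ → Prop) [DecidablePred P] (w : ℕ → ℝ)
    (hw0 : ∀ d, 0 ≤ w d) (hw : ∀ d, 3 * w d ≤ 4 * w (d + 1)) (C : ℝ) (hC : 0 ≤ C)
    (h : ∀ d, (((blk b d).filter P).card : ℝ) ≤ C * (b : ℝ) ^ d * w d) (x : ℕ) (hx : 1 ≤ x) :
    (((Finset.Icc 1 x).filter P).card : ℝ) ≤
      2 * C * b * x * w (Nat.log b x + 1) := by
  set D := Nat.log b x + 1 with hD
  have h1 : x < b ^ D := Nat.lt_pow_succ_log_self (by omega) x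
  have h2 : b ^ (Nat.log b x) ≤ x := Nat.pow_log_le_self b (by omega)
  have h3 : ((Finset.Icc 1 x).filter P).card ≤ ((Finset.Ico 1 (b ^ D)).filter P).card := by
    apply Finset.card_le_card
    apply Finset.filter_subset_filter
    intro n hn
    rw [Finset.mem_Icc] at hn
    rw [Finset.mem_Ico]
    omega
  rw [card_split b hb P D] at h3
  have h4 : (((Finset.Icc 1 x).filter P).card : ℝ) ≤
      ∑ d ∈ range D, (((blk b d).filter P).card : ℝ) := by exact_mod_cast h3
  have h5 : (b : ℝ) ^ D ≤ b * x := by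
    rw [hD, pow_succ, mul_comm]
    have : ((b : ℝ) ^ (Nat.log b x)) ≤ x := by exact_mod_cast h2
    gcongr
  calc (((Finset.Icc 1 x).filter P).card : ℝ)
      ≤ ∑ d ∈ range D, (((blk b d).filter P).card : ℝ) := h4
    _ ≤ ∑ d ∈ range D, C * (b : ℝ) ^ d * w d := Finset.sum_le_sum fun d _ => h d
    _ = C * ∑ d ∈ range D, (b : ℝ) ^ d * w d := by
        rw [Finset.mul_sum]
        exact Finset.sum_congr rfl fun d _ => by ring
    _ ≤ C * (2 * (b : ℝ) ^ D * w D) := by
        have := geom_weight b hb w hw0 hw D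
        gcongr
    _ ≤ C * (2 * (b * x) * w D) := by
        have := hw0 D
        gcongr
    _ = 2 * C * b * x * w D := by ring

/-- `log x < (Nat.log b x + 1) * log b` -/
lemma log_lt (b x : ℕ) (hb : 2 ≤ b) (hx : 1 ≤ x) :
    Real.log x ≤ ((Nat.log b x + 1 : ℕ) : ℝ) * Real.log b := by
  have h1 : x < b ^ (Nat.log b x + 1) := Nat.lt_pow_succ_log_self (by omega) x
  have h2 : (x : ℝ) ≤ (b : ℝ) ^ (Nat.log b x + 1) := by exact_mod_cast h1.le
  have h3 := Real.log_le_log (by exact_mod_cast hx) h2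
  rwa [Real.log_pow] at h3

lemma log_ge (b x : ℕ) (hb : 2 ≤ b) (hx : 1 ≤ x) :
    (Nat.log b x : ℝ) * Real.log 2 ≤ Real.log x := by
  have h2 : b ^ (Nat.log b x) ≤ x := Nat.pow_log_le_self b (by omega)
  have h3 : 2 ^ (Nat.log b x) ≤ x := (Nat.pow_le_pow_left hb _).trans h2
  have h4 : ((2 : ℝ) ^ (Nat.log b x)) ≤ x := by exact_mod_cast h3
  have h5 := Real.log_le_log (by positivity) h4
  rwa [Real.log_pow] at h5

lemma log_sixteen (x : ℕ) (hx : 16 ≤ x) : (2.7724 : ℝ) ≤ Real.log x := by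
  have h1 : Real.log 16 ≤ Real.log x :=
    Real.log_le_log (by norm_num) (by exact_mod_cast hx)
  have h2 : Real.log 16 = 4 * Real.log 2 := by
    rw [show (16 : ℝ) = 2 ^ 4 by norm_num, Real.log_pow]
    norm_num
  have h3 := Real.log_two_gt_d9
  linarith

lemma loglog_ge (x : ℕ) (hx : 16 ≤ x) : 1 ≤ Real.log (Real.log x) := by
  have h1 := log_sixteen x hx
  rw [Real.le_log_iff_exp_le (by linarith)]
  have := Real.exp_one_lt_d9
  linarith

/-- the logarithm of `D + 3` against `log log x` -/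
lemma log_D (b x : ℕ) (hb : 2 ≤ b) (hx : 16 ≤ x) :
    Real.log (((Nat.log b x + 1 : ℕ) : ℝ) + 3) ≤ 3 * Real.log (Real.log x) := by
  have h1 := log_sixteen x hx
  have h2 := log_ge b x hb (by omega)
  have h3 := Real.log_two_gt_d9
  have h4 := loglog_ge x hx
  have h5 : (Nat.log b x : ℝ) ≤ 1.4428 * Real.log x := by
    have h0 : (0 : ℝ) ≤ Nat.log b x := Nat.cast_nonneg _
    nlinarith
  have h6 : (((Nat.log b x + 1 : ℕ) : ℝ) + 3) ≤ 3 * Real.log x := by
    push_cast
    linarith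
  have h7 : (0 : ℝ) < ((Nat.log b x + 1 : ℕ) : ℝ) + 3 := by positivity
  have h8 := Real.log_le_log h7 h6
  rw [Real.log_mul (by norm_num) (by linarith)] at h8
  have h9 : Real.log 3 ≤ 2 := by
    rw [Real.log_le_iff_le_exp (by norm_num)]
    have := Real.add_one_le_exp (2 : ℝ)
    linarith
  linarith

end Pool.Agent.Lib.MP_9dc83d_nt
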