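import Pool.Agent.Lib.MP_9dc83d_nt.Local
import Pool.Agent.Lib.MP_9dc83d_nt.Mertens

/-!
# Bounds for the sieve product
-/

set_option autoImplicit false

open Finset

namespace Pool.Concat

theorem prod_le_of_subset (s t : Finset ℕ) (f : ℕ → ℝ) (h : s ⊆ t) (h0 : ∀ p ∈ t, 0 ≤ f p)
    (h1 : ∀ p ∈ t, f p ≤ 1) : ∏ p ∈ t, f p ≤ ∏ p ∈ s, f p := by
  classical
  rw [← Finset.prod_sdiff h]
  refine mul_le_of_le_one_left (Finset.prod_nonneg fun p hp => h0 p (h hp)) ?_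
  exact Finset.prod_le_one (fun p hp => h0 p (Finset.mem_sdiff.1 hp).1)
    (fun p hp => h1 p (Finset.mem_sdiff.1 hp).1)

/-- primes dividing a number below `2 ^ y` -/
theorem div_prod (c : ℝ)
    (hM : ∀ n : ℕ, 2 ≤ n → c / Real.log n ≤ ∏ p ∈ (Icc 1 n).filter Nat.Prime, (1 - (p : ℝ)⁻¹))
    (hc : 0 < c) (ρ y : ℕ) (hρ0 : 0 < ρ) (hρ : ρ < 2 ^ y) (hy : 2 ≤ y) (Q : Finset ℕ)
    (hQ : ∀ p ∈ Q, p.Prime ∧ p ∣ ρ) :
    c * Real.exp (-3) / Real.log y ≤ ∏ p ∈ Q, (1 - (p : ℝ)⁻¹) := by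
  classical
  have hyR : (2 : ℝ) ≤ y := by exact_mod_cast hy
  have hlogy : 0 < Real.log y := Real.log_pos (by linarith)
  have hinv : ∀ p : ℕ, p.Prime → (0 : ℝ) ≤ 1 - (p : ℝ)⁻¹ ∧ 1 - (p : ℝ)⁻¹ ≤ 1 := by
    intro p hp
    have h1 : (1 : ℝ) ≤ p := by exact_mod_cast hp.one_lt.le
    have h2 : (p : ℝ)⁻¹ ≤ 1 := inv_le_one_of_one_le₀ h1
    have h3 : (0 : ℝ) ≤ (p : ℝ)⁻¹ := by positivity
    constructor <;> linarith
  rw [← Finset.prod_filter_mul_prod_filter_not Q (fun p => p ≤ y)]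
  have h1 : c / Real.log y ≤ ∏ p ∈ Q.filter (fun p => p ≤ y), (1 - (p : ℝ)⁻¹) := by
    refine (hM y hy).trans ?_
    apply prod_le_of_subset
    · intro p hp
      rw [Finset.mem_filter] at hp
      rw [Finset.mem_filter, Finset.mem_Icc]
      exact ⟨⟨(hQ p hp.1).1.one_lt.le, hp.2⟩, (hQ p hp.1).1⟩
    · intro p hp
      exact (hinv p (Finset.mem_filter.1 hp).2).1
    · intro p hp
      exact (hinv p (Finset.mem_filter.1 hp).2).2
  have h2 : Real.exp (-3) ≤ ∏ p ∈ Q.filter (fun p => ¬ p ≤ y), (1 - (p : ℝ)⁻¹) := by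
    set Q2 := Q.filter (fun p => ¬ p ≤ y) with hQ2
    have hcard : Q2.card ≤ y := by
      have h3 : ∏ p ∈ Q2, p ∣ ρ := by
        apply Finset.prod_primes_dvd
        · intro p hp
          exact (hQ p (Finset.mem_filter.1 hp).1).1.prime
        · intro p hp
          exact (hQ p (Finset.mem_filter.1 hp).1).2
      have h4 : 2 ^ Q2.card ≤ ∏ p ∈ Q2, p := by
        rw [← Finset.prod_const]
        exact Finset.prod_le_prod' fun p hp => (hQ p (Finset.mem_filter.1 hp).1).1.two_le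
      have h5 := Nat.le_of_dvd hρ0 h3
      have h6 : 2 ^ Q2.card < 2 ^ y := lt_of_le_of_lt (h4.trans h5) hρ
      exact ((Nat.pow_lt_pow_iff_right (by norm_num)).1 h6).le
    have h7 := VV_ge_exp Q2 (fun p => (p : ℝ)⁻¹) (fun p _ => by positivity) (fun p hp => by
      have h8 : (2 : ℝ) ≤ p := by exact_mod_cast (hQ p (Finset.mem_filter.1 hp).1).1.two_le
      have h9 : (p : ℝ)⁻¹ ≤ (2 : ℝ)⁻¹ := inv_anti₀ (by norm_num) h8
      linarith)
    unfold VV at h7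
    refine le_trans (Real.exp_le_exp.2 ?_) h7
    have h10 : ∑ p ∈ Q2, (p : ℝ)⁻¹ ≤ ∑ _p ∈ Q2, (y : ℝ)⁻¹ := by
      refine Finset.sum_le_sum fun p hp => ?_
      have h11 : y ≤ p := (not_le.1 (Finset.mem_filter.1 hp).2).le
      exact inv_anti₀ (by linarith) (by exact_mod_cast h11)
    rw [Finset.sum_const, nsmul_eq_mul] at h10
    have h12 : (Q2.card : ℝ) * (y : ℝ)⁻¹ ≤ 1 := by
      rw [← div_eq_mul_inv, div_le_one (by linarith)]
      exact_mod_cast hcard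
    linarith
  calc c * Real.exp (-3) / Real.log y = (c / Real.log y) * Real.exp (-3) := by ring
    _ ≤ _ := mul_le_mul h1 h2 (Real.exp_pos _).le (Finset.prod_nonneg fun p hp =>
        (hinv p (hQ p (Finset.mem_filter.1 hp).1).1).1)

/-- correction factors -/
noncomputable def kap (k : ℕ) : ℝ := if k ≤ 2 then 1 else 1 - 1 / ((k : ℝ) - 1) ^ 2

theorem kap_mem (k : ℕ) : 0 ≤ kap k ∧ kap k ≤ 1 := by
  unfold kap
  split_ifs with h
  · norm_num
  · have h3 : (3 : ℝ) ≤ k := by exact_mod_cast (by omega : 3 ≤ k)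
    have h4 : (1 : ℝ) ≤ ((k : ℝ) - 1) ^ 2 := by nlinarith
    have h5 : 1 / ((k : ℝ) - 1) ^ 2 ≤ 1 := by
      rw [div_le_one (by linarith)]
      exact h4
    have h6 : 0 ≤ 1 / ((k : ℝ) - 1) ^ 2 := by positivity
    constructor <;> linarith

theorem prod_kap (n : ℕ) (hn : 2 ≤ n) :
    ∏ k ∈ Icc 1 n, kap k = (n : ℝ) / (2 * ((n : ℝ) - 1)) := by
  induction n, hn using Nat.le_induction with
  | base =>
    have : Icc 1 2 = {1, 2} := by decide
    rw [this, Finset.prod_pair (by norm_num)]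
    unfold kap
    norm_num
  | succ n hn ih =>
    rw [Finset.prod_Icc_succ_top (by omega), ih]
    unfold kap
    rw [if_neg (by omega)]
    have h2 : (2 : ℝ) ≤ n := by exact_mod_cast hn
    have h3 : (n : ℝ) - 1 ≠ 0 := by linarith
    have h4 : (n : ℝ) ≠ 0 := by linarith
    push_cast
    have h5 : (n : ℝ) + 1 - 1 = n := by ring
    rw [h5]
    field_simp
    ring

theorem prod_kap_ge (T : ℕ) : (1 / 2 : ℝ) ≤ ∏ p ∈ PA T, kap p := by
  have h1 : ∏ k ∈ Icc 1 (Z T), kap k ≤ ∏ p ∈ PA T, kap p := by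
    unfold PA
    apply prod_le_of_subset
    · exact Finset.filter_subset _ _
    · intro k _
      exact (kap_mem k).1
    · intro k _
      exact (kap_mem k).2
  refine le_trans ?_ h1
  rw [prod_kap (Z T) (two_le_Z T)]
  have h2 : (2 : ℝ) ≤ Z T := by exact_mod_cast two_le_Z T
  rw [div_le_div_iff₀ (by norm_num) (by linarith)]
  linarith

theorem V_upper (c : ℝ)
    (hM : ∀ n : ℕ, 2 ≤ n → c / Real.log n ≤ ∏ p ∈ (Icc 1 n).filter Nat.Prime, (1 - (p : ℝ)⁻¹))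
    (hc : 0 < c) (ρ s c' y T : ℕ) (hρ0 : 0 < ρ) (hρ : ρ < 2 ^ y) (hy : 2 ≤ y) :
    VV (PA T) (gg ρ s c') ≤ Real.log y / (c * Real.exp (-3) * Real.log (Z T)) := by
  classical
  have hyR : (2 : ℝ) ≤ y := by exact_mod_cast hy
  have hlogy : 0 < Real.log y := Real.log_pos (by linarith)
  have hZR : (2 : ℝ) ≤ Z T := by exact_mod_cast two_le_Z T
  have hlogZ : 0 < Real.log (Z T) := Real.log_pos (by linarith)
  have hinv : ∀ p : ℕ, p.Prime → (0 : ℝ) ≤ 1 - (p : ℝ)⁻¹ ∧ 1 - (p : ℝ)⁻¹ ≤ 1 := by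
    intro p hp
    have h1 : (1 : ℝ) ≤ p := by exact_mod_cast hp.one_lt.le
    have h2 : (p : ℝ)⁻¹ ≤ 1 := inv_le_one_of_one_le₀ h1
    have h3 : (0 : ℝ) ≤ (p : ℝ)⁻¹ := by positivity
    constructor <;> linarith
  set a := ∏ p ∈ (PA T).filter (fun p => ¬ p ∣ ρ), (1 - (p : ℝ)⁻¹) with ha
  set h := ∏ p ∈ (PA T).filter (fun p => p ∣ ρ), (1 - (p : ℝ)⁻¹) with hh
  have hha : h * a = ∏ p ∈ PA T, (1 - (p : ℝ)⁻¹) := Finset.prod_filter_mul_prod_filter_not _ _ _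
  have ha0 : 0 ≤ a := Finset.prod_nonneg fun p hp => (hinv p (mem_PA.1 (Finset.mem_filter.1 hp).1).1).1
  have hh1 : c * Real.exp (-3) / Real.log y ≤ h := by
    apply div_prod c hM hc ρ y hρ0 hρ hy
    intro p hp
    rw [Finset.mem_filter] at hp
    exact ⟨(mem_PA.1 hp.1).1, hp.2⟩
  have hV : VV (PA T) (gg ρ s c') ≤ a := by
    unfold VV
    rw [← Finset.prod_filter_mul_prod_filter_not (PA T) (fun p => p ∣ ρ)]
    have h1 : ∏ p ∈ (PA T).filter (fun p => p ∣ ρ), (1 - gg ρ s c' p) ≤ 1 := by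
      apply Finset.prod_le_one
      · intro p hp
        have := (gg_prop ρ s c' p (mem_PA.1 (Finset.mem_filter.1 hp).1).1).2.2.1
        linarith
      · intro p hp
        have := (gg_prop ρ s c' p (mem_PA.1 (Finset.mem_filter.1 hp).1).1).1
        linarith
    have h2 : ∏ p ∈ (PA T).filter (fun p => ¬ p ∣ ρ), (1 - gg ρ s c' p) = a := by
      refine Finset.prod_congr rfl fun p hp => ?_
      rw [(gg_prop ρ s c' p (mem_PA.1 (Finset.mem_filter.1 hp).1).1).2.2.2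
        (Or.inl (Finset.mem_filter.1 hp).2)]
    rw [h2]
    exact mul_le_of_le_one_left ha0 h1
  have hup := Mert.prod_upper (Z T)
  have hMz : (∏ p ∈ PA T, (1 - (p : ℝ)⁻¹)) * Real.log (Z T) ≤ 1 := by
    refine le_trans ?_ hup
    refine mul_le_mul_of_nonneg_left (Real.log_le_log (by linarith) (by linarith)) ?_
    exact Finset.prod_nonneg fun p hp => (hinv p (mem_PA.1 hp).1).1
  have hE := Real.exp_pos (-3)
  rw [le_div_iff₀ (by positivity)]
  rw [div_le_iff₀ hlogy] at hh1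
  have h3 : a * (c * Real.exp (-3)) ≤ a * (h * Real.log y) := mul_le_mul_of_nonneg_left hh1 ha0
  have h4 : VV (PA T) (gg ρ s c') * (c * Real.exp (-3) * Real.log (Z T)) ≤
      a * (c * Real.exp (-3) * Real.log (Z T)) := mul_le_mul_of_nonneg_right hV (by positivity)
  have h5 : a * (c * Real.exp (-3)) * Real.log (Z T) ≤ a * (h * Real.log y) * Real.log (Z T) :=
    mul_le_mul_of_nonneg_right h3 hlogZ.le
  have h6 : a * (h * Real.log y) * Real.log (Z T) = (h * a) * Real.log (Z T) * Real.log y := by ring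
  rw [h6, hha] at h5
  have h7 := mul_le_mul_of_nonneg_right hMz hlogy.le
  linarith

theorem V_lower (c : ℝ)
    (hM : ∀ n : ℕ, 2 ≤ n → c / Real.log n ≤ ∏ p ∈ (Icc 1 n).filter Nat.Prime, (1 - (p : ℝ)⁻¹))
    (hc : 0 < c) (ρ s c' y T : ℕ) (hρ0 : 0 < ρ) (hρ : ρ < 2 ^ y) (hy : 2 ≤ y) :
    c ^ 2 * Real.exp (-3) / (2 * Real.log (Z T) * Real.log y) ≤ VV (PA T) (gg ρ s c') := by
  classical
  have hyR : (2 : ℝ) ≤ y := by exact_mod_cast hy
  have hlogy : 0 < Real.log y := Real.log_pos (by linarith)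
  have hZR : (2 : ℝ) ≤ Z T := by exact_mod_cast two_le_Z T
  have hlogZ : 0 < Real.log (Z T) := Real.log_pos (by linarith)
  have hinv : ∀ p : ℕ, p.Prime → (0 : ℝ) ≤ 1 - (p : ℝ)⁻¹ ∧ 1 - (p : ℝ)⁻¹ ≤ 1 := by
    intro p hp
    have h1 : (1 : ℝ) ≤ p := by exact_mod_cast hp.one_lt.le
    have h2 : (p : ℝ)⁻¹ ≤ 1 := inv_le_one_of_one_le₀ h1
    have h3 : (0 : ℝ) ≤ (p : ℝ)⁻¹ := by positivity
    constructor <;> linarith
  have key : ∀ p ∈ PA T, (1 - (p : ℝ)⁻¹) * (if p ∣ ρ then (1 - (p : ℝ)⁻¹) else 1) * kap p ≤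
      1 - gg ρ s c' p := by
    intro p hp
    have hpp := (mem_PA.1 hp).1
    obtain ⟨g0, g1, g2, g3⟩ := gg_prop ρ s c' p hpp
    obtain ⟨i0, i1⟩ := hinv p hpp
    obtain ⟨k0, k1⟩ := kap_mem p
    by_cases hd : p ∣ ρ
    · rw [if_pos hd]
      by_cases h2 : p = 2
      · rw [g3 (Or.inr h2)]
        have h3 : (1 - (p : ℝ)⁻¹) * (1 - (p : ℝ)⁻¹) ≤ (1 - (p : ℝ)⁻¹) * 1 :=
          mul_le_mul_of_nonneg_left i1 i0
        have h4 : (1 - (p : ℝ)⁻¹) * (1 - (p : ℝ)⁻¹) * kap p ≤ (1 - (p : ℝ)⁻¹) * (1 - (p : ℝ)⁻¹) * 1 :=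
          mul_le_mul_of_nonneg_left k1 (mul_nonneg i0 i0)
        linarith
      · have hp3 : 3 ≤ p := by have := hpp.two_le; omega
        have hp3R : (3 : ℝ) ≤ p := by exact_mod_cast hp3
        have h5 : (1 - (p : ℝ)⁻¹) * (1 - (p : ℝ)⁻¹) * kap p = 1 - 2 / p := by
          unfold kap
          rw [if_neg (by omega)]
          have h6 : (p : ℝ) ≠ 0 := by linarith
          have h7 : (p : ℝ) - 1 ≠ 0 := by linarith
          field_simp
          ring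
        rw [h5]
        linarith
    · rw [if_neg hd, g3 (Or.inl hd), mul_one]
      have := mul_le_mul_of_nonneg_left k1 i0
      linarith
  have h1 : ∏ p ∈ PA T, ((1 - (p : ℝ)⁻¹) * (if p ∣ ρ then (1 - (p : ℝ)⁻¹) else 1) * kap p) ≤
      VV (PA T) (gg ρ s c') := by
    unfold VV
    refine Finset.prod_le_prod (fun p hp => ?_) key
    obtain ⟨i0, i1⟩ := hinv p (mem_PA.1 hp).1
    refine mul_nonneg (mul_nonneg i0 ?_) (kap_mem p).1
    split_ifs
    · exact i0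
    · norm_num
  refine le_trans ?_ h1
  rw [Finset.prod_mul_distrib, Finset.prod_mul_distrib]
  have h2 : c / Real.log (Z T) ≤ ∏ p ∈ PA T, (1 - (p : ℝ)⁻¹) := hM (Z T) (two_le_Z T)
  have h3 : c * Real.exp (-3) / Real.log y ≤ ∏ p ∈ PA T, (if p ∣ ρ then (1 - (p : ℝ)⁻¹) else 1) := by
    rw [← Finset.prod_filter]
    apply div_prod c hM hc ρ y hρ0 hρ hy
    intro p hp
    rw [Finset.mem_filter] at hp
    exact ⟨(mem_PA.1 hp.1).1, hp.2⟩
  have h4 := prod_kap_ge T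
  have hE := Real.exp_pos (-3)
  have h5 : 0 ≤ c / Real.log (Z T) := by positivity
  have h6 : 0 ≤ c * Real.exp (-3) / Real.log y := by positivity
  have h7 : (c / Real.log (Z T)) * (c * Real.exp (-3) / Real.log y) ≤
      (∏ p ∈ PA T, (1 - (p : ℝ)⁻¹)) * ∏ p ∈ PA T, (if p ∣ ρ then (1 - (p : ℝ)⁻¹) else 1) :=
    mul_le_mul h2 h3 h6 (h5.trans h2)
  have h8 : (c / Real.log (Z T)) * (c * Real.exp (-3) / Real.log y) * (1 / 2) ≤
      ((∏ p ∈ PA T, (1 - (p : ℝ)⁻¹)) * ∏ p ∈ PA T, (if p ∣ ρ then (1 - (p : ℝ)⁻¹) else 1)) *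
      ∏ p ∈ PA T, kap p :=
    mul_le_mul h7 h4 (by norm_num) ((mul_nonneg h5 h6).trans h7)
  refine le_trans (le_of_eq ?_) h8
  field_simp

end Pool.Concat
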